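import Pool.Agent.FH.Basic

/-!
FH, module BAND0.
-/

set_option autoImplicit false

namespace Pool.Agent.FH

theorem abs_cos_lt_one {κ : ℝ} (h : κ ∈ Set.Ioo 0 Real.pi) : |Real.cos κ| < 1 := by
  have h1 : 0 < Real.sin κ := Real.sin_pos_of_pos_of_lt_pi h.1 h.2
  have h2 := Real.sin_sq_add_cos_sq κ
  rw [← sq_lt_one_iff_abs_lt_one]
  nlinarith

/-- the segment between two points of the same band is inside the band -/
theorem seg (hL : Stmt_Lam) {n : ℕ} (hn : 1 ≤ n) {j : ℕ} (hj : j < Nat.fib n) {κ κ' : ℝ}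
    (hκ : κ ∈ Set.Ioo 0 Real.pi) (hκ' : κ' ∈ Set.Ioo 0 Real.pi) (q : ℝ) {E : ℝ}
    (hE : E ∈ Set.uIcc (lam n j κ q) (lam n j κ' q)) : |X n E q| < 1 := by
  obtain ⟨h1, h2⟩ := hL n hn j hj
  have hsub : Set.uIcc κ κ' ⊆ Set.Ioo 0 Real.pi := by
    intro x hx
    rw [Set.mem_uIcc] at hx
    rcases hx with hx | hx
    · exact ⟨lt_of_lt_of_le hκ.1 hx.1, lt_of_le_of_lt hx.2 hκ'.2⟩
    · exact ⟨lt_of_lt_of_le hκ'.1 hx.1, lt_of_le_of_lt hx.2 hκ.2⟩
  have hcont : ContinuousOn (fun x => lam n j x q) (Set.uIcc κ κ') := by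
    have hl : LipschitzOnWith 2 (fun x => lam n j x q) (Set.uIcc κ κ') := by
      refine LipschitzOnWith.of_dist_le_mul ?_
      intro x hx y hy
      have := h2 x (hsub hx) y (hsub hy) q q
      rw [Real.dist_eq, Real.dist_eq]
      simpa using this
    exact hl.continuousOn
  obtain ⟨x, hx, rfl⟩ := intermediate_value_uIcc hcont hE
  show |X n (lam n j x q) q| < 1
  rw [(h1 x (hsub hx) q).1]
  exact abs_cos_lt_one (hsub hx)

/-- at `q = 0` the half traces are Chebyshev polynomials -/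
theorem X_cos (φ : ℝ) : ∀ n : ℕ, X n (2 * Real.cos φ) 0 = Real.cos (Nat.fib n * φ) := by
  intro n
  induction n using Nat.strong_induction_on with
  | _ n ih =>
    match n, ih with
    | 0, _ => simp [X]
    | 1, _ => simp [X]
    | 2, _ => simp [X]
    | n + 3, ih =>
      have h2 := ih (n + 2) (by omega)
      have h1 := ih (n + 1) (by omega)
      have h0 := ih n (by omega)
      show 2 * X (n + 2) (2 * Real.cos φ) 0 * X (n + 1) (2 * Real.cos φ) 0
        - X n (2 * Real.cos φ) 0 = _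
      rw [h2, h1, h0]
      have f3 : Nat.fib (n + 3) = Nat.fib (n + 2) + Nat.fib (n + 1) := by
        have := Nat.fib_add_two (n := n + 1)
        rw [show n + 1 + 2 = n + 3 by omega, show n + 1 + 1 = n + 2 by omega] at this
        omega
      have f2 : Nat.fib (n + 2) = Nat.fib n + Nat.fib (n + 1) := Nat.fib_add_two
      have e3 : (Nat.fib (n + 3) : ℝ) * φ = Nat.fib (n + 2) * φ + Nat.fib (n + 1) * φ := by
        rw [f3]; push_cast; ring
      have e0 : (Nat.fib n : ℝ) * φ = Nat.fib (n + 2) * φ - Nat.fib (n + 1) * φ := by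
        rw [f2]; push_cast; ring
      rw [e3, e0, Real.cos_add, Real.cos_sub]
      ring

/-- at `q = 0` the bands are inside `(-2,2)` -/
theorem abs_lt_two {n : ℕ} (hn : 1 ≤ n) {E : ℝ} (h : |X n E 0| < 1) : |E| < 2 := by
  by_contra hc
  push Not at hc
  have h1 : 1 ≤ |X 1 E 0| := by
    show 1 ≤ |E / 2|
    rw [abs_div, abs_of_pos (by norm_num : (0 : ℝ) < 2)]
    linarith
  have h2 : 1 ≤ |X 2 E 0| := by
    show 1 ≤ |(E - 0) / 2|
    rw [sub_zero, abs_div, abs_of_pos (by norm_num : (0 : ℝ) < 2)]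
    linarith
  have := (grow_le (fun j => X j E 0) (fun n => rfl) (by simp [X]) h1 h2 (n - 1)).1
  simp only [Nat.sub_add_cancel hn] at this
  exact absurd h (not_lt.2 this)

theorem band0_aux (hL : Stmt_Lam) {n : ℕ} (hn : 1 ≤ n) {j : ℕ} (hj : j < Nat.fib n) {κ κ' : ℝ}
    (hκ : κ ∈ Set.Ioo 0 Real.pi) (hκ' : κ' ∈ Set.Ioo 0 Real.pi)
    (hle : lam n j κ' 0 ≤ lam n j κ 0) :
    |lam n j κ 0 - lam n j κ' 0| ≤ 2 * Real.pi / Nat.fib n := by
  have hF : (0 : ℝ) < Nat.fib n := by exact_mod_cast Nat.fib_pos.2 hn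
  set E := lam n j κ 0 with hEdef
  set E' := lam n j κ' 0 with hE'def
  have aE : |E| < 2 := abs_lt_two hn (seg hL hn hj hκ hκ' 0 Set.left_mem_uIcc)
  have aE' : |E'| < 2 := abs_lt_two hn (seg hL hn hj hκ hκ' 0 Set.right_mem_uIcc)
  rw [abs_lt] at aE aE'
  set θ := Real.arccos (E / 2) with hθ
  set θ' := Real.arccos (E' / 2) with hθ'
  have cE : 2 * Real.cos θ = E := by
    rw [hθ, Real.cos_arccos (by linarith) (by linarith)]; ring
  have cE' : 2 * Real.cos θ' = E' := by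
    rw [hθ', Real.cos_arccos (by linarith) (by linarith)]; ring
  have h0 : 0 ≤ θ := Real.arccos_nonneg _
  have h0' : 0 ≤ θ' := Real.arccos_nonneg _
  have hp : θ ≤ Real.pi := Real.arccos_le_pi _
  have hp' : θ' ≤ Real.pi := Real.arccos_le_pi _
  have hθle : θ ≤ θ' := Real.arccos_le_arccos (by linarith)
  have key : θ' - θ ≤ Real.pi / Nat.fib n := by
    by_contra hc
    push Not at hc
    have hc' : Real.pi < Nat.fib n * (θ' - θ) := by
      rw [div_lt_iff₀ hF] at hc
      linarith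
    set k : ℤ := ⌈(Nat.fib n : ℝ) * θ / Real.pi⌉ with hk
    have k1 : (Nat.fib n : ℝ) * θ ≤ k * Real.pi := by
      have := Int.le_ceil ((Nat.fib n : ℝ) * θ / Real.pi)
      rwa [div_le_iff₀ Real.pi_pos] at this
    have k2 : (k : ℝ) * Real.pi < Nat.fib n * θ + Real.pi := by
      have := Int.ceil_lt_add_one ((Nat.fib n : ℝ) * θ / Real.pi)
      rw [← hk] at this
      have h2 : (k : ℝ) * Real.pi < (Nat.fib n * θ / Real.pi + 1) * Real.pi :=
        mul_lt_mul_of_pos_right this Real.pi_pos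
      rwa [add_mul, div_mul_cancel₀ _ Real.pi_pos.ne', one_mul] at h2
    set φ : ℝ := k * Real.pi / Nat.fib n with hφ
    have hφF : (Nat.fib n : ℝ) * φ = k * Real.pi := by
      rw [hφ]; field_simp
    have p1 : θ ≤ φ := by
      have : (Nat.fib n : ℝ) * θ ≤ Nat.fib n * φ := by rw [hφF]; exact k1
      exact le_of_mul_le_mul_left this hF
    have p2 : φ ≤ θ' := by
      have : (Nat.fib n : ℝ) * φ ≤ Nat.fib n * θ' := by rw [hφF]; nlinarith
      exact le_of_mul_le_mul_left this hF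
    have q1 : 2 * Real.cos φ ≤ E := by
      rw [← cE]
      have := Real.cos_le_cos_of_nonneg_of_le_pi h0 (p2.trans hp') p1
      linarith
    have q2 : E' ≤ 2 * Real.cos φ := by
      rw [← cE']
      have := Real.cos_le_cos_of_nonneg_of_le_pi (h0.trans p1) hp' p2
      linarith
    have hin : 2 * Real.cos φ ∈ Set.uIcc (lam n j κ 0) (lam n j κ' 0) := by
      rw [Set.mem_uIcc]
      exact Or.inr ⟨q2, q1⟩
    have h3 := seg hL hn hj hκ hκ' 0 hin
    rw [X_cos, hφF, Real.abs_cos_int_mul_pi] at h3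
    exact lt_irrefl _ h3
  rw [← cE, ← cE', ← mul_sub, abs_mul, abs_of_pos (by norm_num : (0 : ℝ) < 2), mul_div_assoc]
  have h4 := Real.abs_cos_sub_cos_le θ θ'
  have h5 : |θ - θ'| = θ' - θ := by
    rw [abs_sub_comm, abs_of_nonneg (by linarith)]
  rw [h5] at h4
  linarith

theorem band0_proof (hL : Stmt_Lam) : Stmt_Band0 := by
  intro n hn j hj κ hκ κ' hκ'
  rcases le_total (lam n j κ' 0) (lam n j κ 0) with h | h
  · exact band0_aux hL hn hj hκ hκ' h
  · rw [abs_sub_comm]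
    exact band0_aux hL hn hj hκ' hκ h

end Pool.Agent.FH
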