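import Pool.Agent.FH.Stmts

/-!
FH, module BASIC (Deriv, Poly, Nest) and WORDTR.
-/

set_option autoImplicit false

namespace Pool.Agent.FH

/-! ### Deriv -/

theorem deriv_proof : Stmt_Deriv := by
  intro n
  induction n using Nat.strong_induction_on with
  | _ n ih =>
    intro E q
    match n, ih with
    | 0, _ =>
      have h : HasFDerivAt (fun _ : ℝ × ℝ => (1 : ℝ)) (0 : ℝ × ℝ →L[ℝ] ℝ) (E, q) :=
        hasFDerivAt_const 1 (E, q)
      have e : (W 0 E q • ContinuousLinearMap.fst ℝ ℝ ℝ + U 0 E q • ContinuousLinearMap.snd ℝ ℝ ℝ)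
          = (0 : ℝ × ℝ →L[ℝ] ℝ) := by
        ext <;> simp [W, U]
      rw [e]
      exact h
    | 1, _ =>
      have h : HasFDerivAt (fun p : ℝ × ℝ => (1 / 2 : ℝ) * p.1)
          ((1 / 2 : ℝ) • ContinuousLinearMap.fst ℝ ℝ ℝ) (E, q) :=
        (hasFDerivAt_fst (𝕜 := ℝ) (p := (E, q))).const_mul (1 / 2 : ℝ)
      have e : (W 1 E q • ContinuousLinearMap.fst ℝ ℝ ℝ + U 1 E q • ContinuousLinearMap.snd ℝ ℝ ℝ)
          = (1 / 2 : ℝ) • ContinuousLinearMap.fst ℝ ℝ ℝ := by
        ext <;> simp [W, U]
      rw [e]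
      have f : (fun p : ℝ × ℝ => X 1 p.1 p.2) = fun p : ℝ × ℝ => (1 / 2 : ℝ) * p.1 := by
        funext p
        simp only [X]
        ring
      rw [f]
      exact h
    | 2, _ =>
      have h : HasFDerivAt (fun p : ℝ × ℝ => (1 / 2 : ℝ) * (p.1 - p.2))
          ((1 / 2 : ℝ) • (ContinuousLinearMap.fst ℝ ℝ ℝ - ContinuousLinearMap.snd ℝ ℝ ℝ)) (E, q) :=
        ((hasFDerivAt_fst (𝕜 := ℝ) (p := (E, q))).sub
          (hasFDerivAt_snd (𝕜 := ℝ) (p := (E, q)))).const_mul (1 / 2 : ℝ)
      have e : (W 2 E q • ContinuousLinearMap.fst ℝ ℝ ℝ + U 2 E q • ContinuousLinearMap.snd ℝ ℝ ℝ)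
          = (1 / 2 : ℝ) • (ContinuousLinearMap.fst ℝ ℝ ℝ - ContinuousLinearMap.snd ℝ ℝ ℝ) := by
        ext <;> simp [W, U]
      rw [e]
      have f : (fun p : ℝ × ℝ => X 2 p.1 p.2) = fun p : ℝ × ℝ => (1 / 2 : ℝ) * (p.1 - p.2) := by
        funext p
        simp only [X]
        ring
      rw [f]
      exact h
    | n + 3, ih =>
      have h2 := ih (n + 2) (by omega) E q
      have h1 := ih (n + 1) (by omega) E q
      have h0 := ih n (by omega) E q
      have h := ((h2.const_mul 2).mul h1).sub h0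
      refine HasFDerivAt.congr_fderiv (f := fun p : ℝ × ℝ => X (n + 3) p.1 p.2) h ?_
      ext <;> simp [W, U] <;> ring

/-! ### Poly -/

/-- the polynomial `X n` in `E` -/
noncomputable def Pp (q : ℝ) : ℕ → Polynomial ℝ
  | 0 => 1
  | 1 => Polynomial.C (1 / 2) * Polynomial.X
  | 2 => Polynomial.C (1 / 2) * (Polynomial.X - Polynomial.C q)
  | (n + 3) => Polynomial.C 2 * (Pp q (n + 2) * Pp q (n + 1)) - Pp q n

/-- the polynomial `U n` in `E` -/
noncomputable def Rp (q : ℝ) : ℕ → Polynomial ℝ
  | 0 => 0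
  | 1 => 0
  | 2 => Polynomial.C (-(1 / 2))
  | (n + 3) => Polynomial.C 2 * (Rp q (n + 2) * Pp q (n + 1) + Pp q (n + 2) * Rp q (n + 1)) - Rp q n

theorem Pp_eval (q E : ℝ) : ∀ n : ℕ, (Pp q n).eval E = X n E q := by
  intro n
  induction n using Nat.strong_induction_on with
  | _ n ih =>
    match n, ih with
    | 0, _ => simp [Pp, X]
    | 1, _ => simp only [Pp, X, Polynomial.eval_mul, Polynomial.eval_C, Polynomial.eval_X]; ring
    | 2, _ =>
      simp only [Pp, X, Polynomial.eval_mul, Polynomial.eval_C, Polynomial.eval_X,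
        Polynomial.eval_sub]
      ring
    | n + 3, ih =>
      have h2 := ih (n + 2) (by omega)
      have h1 := ih (n + 1) (by omega)
      have h0 := ih n (by omega)
      simp only [Pp, X, Polynomial.eval_mul, Polynomial.eval_C, Polynomial.eval_sub, h2, h1, h0]
      ring

theorem Rp_eval (q E : ℝ) : ∀ n : ℕ, (Rp q n).eval E = U n E q := by
  intro n
  induction n using Nat.strong_induction_on with
  | _ n ih =>
    match n, ih with
    | 0, _ => simp [Rp, U]
    | 1, _ => simp [Rp, U]
    | 2, _ => simp [Rp, U]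
    | n + 3, ih =>
      have h2 := ih (n + 2) (by omega)
      have h1 := ih (n + 1) (by omega)
      have h0 := ih n (by omega)
      simp only [Rp, U, Polynomial.eval_mul, Polynomial.eval_C, Polynomial.eval_sub,
        Polynomial.eval_add, h2, h1, h0, Pp_eval]

theorem Pp_deriv_eval (q E : ℝ) : ∀ n : ℕ, (Polynomial.derivative (Pp q n)).eval E = W n E q := by
  intro n
  induction n using Nat.strong_induction_on with
  | _ n ih =>
    match n, ih with
    | 0, _ => simp [Pp, W]
    | 1, _ => simp [Pp, W]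
    | 2, _ => simp [Pp, W]
    | n + 3, ih =>
      have h2 := ih (n + 2) (by omega)
      have h1 := ih (n + 1) (by omega)
      have h0 := ih n (by omega)
      simp only [Pp, W, Polynomial.derivative_sub, Polynomial.derivative_mul,
        Polynomial.derivative_C, zero_mul, zero_add, Polynomial.eval_mul, Polynomial.eval_C,
        Polynomial.eval_sub, Polynomial.eval_add, h2, h1, h0, Pp_eval]

theorem Pp_natDegree (q : ℝ) : ∀ n : ℕ, (Pp q n).natDegree = Nat.fib n := by
  intro n
  induction n using Nat.strong_induction_on with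
  | _ n ih =>
    match n, ih with
    | 0, _ => simp [Pp]
    | 1, _ =>
      simp only [Pp]
      rw [Polynomial.natDegree_C_mul (by norm_num), Polynomial.natDegree_X]
      rfl
    | 2, _ =>
      simp only [Pp]
      rw [Polynomial.natDegree_C_mul (by norm_num), Polynomial.natDegree_X_sub_C]
      rfl
    | n + 3, ih =>
      have h2 := ih (n + 2) (by omega)
      have h1 := ih (n + 1) (by omega)
      have h0 := ih n (by omega)
      have p1 : 0 < Nat.fib (n + 1) := Nat.fib_pos.2 (by omega)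
      have p2 : 0 < Nat.fib (n + 2) := Nat.fib_pos.2 (by omega)
      have n1 : Pp q (n + 1) ≠ 0 := by
        intro h
        rw [h, Polynomial.natDegree_zero] at h1
        omega
      have n2 : Pp q (n + 2) ≠ 0 := by
        intro h
        rw [h, Polynomial.natDegree_zero] at h2
        omega
      have hd : (Polynomial.C 2 * (Pp q (n + 2) * Pp q (n + 1))).natDegree = Nat.fib (n + 3) := by
        rw [Polynomial.natDegree_C_mul (by norm_num), Polynomial.natDegree_mul n2 n1, h2, h1]
        have := Nat.fib_add_two (n := n + 1)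
        have e : n + 1 + 2 = n + 3 := by omega
        have e' : n + 1 + 1 = n + 2 := by omega
        rw [e, e'] at this
        omega
      have hlt : (Pp q n).natDegree < (Polynomial.C 2 * (Pp q (n + 2) * Pp q (n + 1))).natDegree := by
        rw [hd, h0]
        have a1 := Nat.fib_add_two (n := n + 1)
        have a2 := Nat.fib_add_two (n := n)
        have e : n + 1 + 2 = n + 3 := by omega
        have e' : n + 1 + 1 = n + 2 := by omega
        rw [e, e'] at a1
        omega
      show (Polynomial.C 2 * (Pp q (n + 2) * Pp q (n + 1)) - Pp q n).natDegree = Nat.fib (n + 3)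
      rw [Polynomial.natDegree_sub_eq_left_of_natDegree_lt hlt, hd]

theorem Rp_natDegree (q : ℝ) : ∀ n : ℕ, (Rp q (n + 1)).natDegree < Nat.fib (n + 1) := by
  intro n
  induction n using Nat.strong_induction_on with
  | _ n ih =>
    match n, ih with
    | 0, _ => simp [Rp]
    | 1, _ => simp [Rp]
    | n + 2, ih =>
      have h2 := ih (n + 1) (by omega)
      have h1 := ih n (by omega)
      have h0 : (Rp q n).natDegree < Nat.fib (n + 3) := by
        rcases Nat.eq_zero_or_pos n with h | h
        · subst h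
          simp [Rp, Nat.fib]
        · have := ih (n - 1) (by omega)
          rw [Nat.sub_add_cancel h] at this
          exact lt_of_lt_of_le this (Nat.fib_mono (by omega))
      have a1 := Nat.fib_add_two (n := n + 1)
      have e : n + 1 + 2 = n + 3 := by omega
      have e' : n + 1 + 1 = n + 2 := by omega
      rw [e, e'] at a1
      rw [e'] at h2
      have g1 : (Rp q (n + 2) * Pp q (n + 1)).natDegree < Nat.fib (n + 3) := by
        refine lt_of_le_of_lt Polynomial.natDegree_mul_le ?_
        rw [Pp_natDegree]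
        omega
      have g2 : (Pp q (n + 2) * Rp q (n + 1)).natDegree < Nat.fib (n + 3) := by
        refine lt_of_le_of_lt Polynomial.natDegree_mul_le ?_
        rw [Pp_natDegree]
        omega
      have g3 : (Polynomial.C 2 * (Rp q (n + 2) * Pp q (n + 1) + Pp q (n + 2) * Rp q (n + 1))).natDegree
          < Nat.fib (n + 3) := by
        rw [Polynomial.natDegree_C_mul (by norm_num)]
        exact lt_of_le_of_lt (Polynomial.natDegree_add_le _ _) (max_lt g1 g2)
      show (Polynomial.C 2 * (Rp q (n + 2) * Pp q (n + 1) + Pp q (n + 2) * Rp q (n + 1))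
        - Rp q n).natDegree < Nat.fib (n + 3)
      exact lt_of_le_of_lt (Polynomial.natDegree_sub_le _ _) (max_lt g3 h0)

theorem poly_proof : Stmt_Poly := by
  intro n hn q
  refine ⟨Pp q n, Rp q n, Pp_natDegree q n, ?_, fun E => Pp_eval q E n,
    fun E => Pp_deriv_eval q E n, fun E => Rp_eval q E n⟩
  have := Rp_natDegree q (n - 1)
  rwa [Nat.sub_add_cancel hn] at this

/-! ### Nest -/

/-- growth step -/
theorem grow_step {a b c : ℝ} (ha : 1 ≤ |a|) (hb : 1 ≤ |b|) (hc : |c| ≤ |b|) :
    |a| ≤ |2 * b * a - c| := by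
  have h1 : |2 * b * a| - |c| ≤ |2 * b * a - c| := abs_sub_abs_le_abs_sub _ _
  have h2 : |2 * b * a| = 2 * |b| * |a| := by
    rw [abs_mul, abs_mul, abs_of_pos (by norm_num : (0 : ℝ) < 2)]
  rw [h2] at h1
  nlinarith [mul_nonneg (sub_nonneg.2 ha) (sub_nonneg.2 hb)]

theorem grow_le (x : ℕ → ℝ) (hrec : ∀ n, x (n + 3) = 2 * x (n + 2) * x (n + 1) - x n)
    (h0 : |x 0| ≤ 1) (h1 : 1 ≤ |x 1|) (h2 : 1 ≤ |x 2|) :
    ∀ j, 1 ≤ |x (j + 1)| ∧ 1 ≤ |x (j + 2)| ∧ |x j| ≤ |x (j + 2)| := by
  intro j
  induction j with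
  | zero => exact ⟨h1, h2, h0.trans h2⟩
  | succ j ih =>
    obtain ⟨a, b, c⟩ := ih
    have h := grow_step a b c
    rw [← hrec j] at h
    exact ⟨b, a.trans h, h⟩

theorem grow_lt (x : ℕ → ℝ) (hrec : ∀ n, x (n + 3) = 2 * x (n + 2) * x (n + 1) - x n)
    (h0 : |x 0| ≤ 1) (h1 : 1 < |x 1|) (h2 : 1 < |x 2|) :
    ∀ j, 1 < |x (j + 1)| ∧ 1 < |x (j + 2)| ∧ |x j| ≤ |x (j + 2)| := by
  intro j
  induction j with
  | zero => exact ⟨h1, h2, h0.trans h2.le⟩
  | succ j ih =>
    obtain ⟨a, b, c⟩ := ih
    have h := grow_step a.le b.le c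
    rw [← hrec j] at h
    exact ⟨b, a.trans_le h, h⟩

theorem nest_proof : Stmt_Nest := by
  intro m E q hm k hk hkm
  by_contra hcon
  push Not at hcon
  have key : ∀ k : ℕ, 1 < |X (k + 1) E q| → 1 < |X (k + 2) E q| →
      ∃ i ≤ k, |X i E q| ≤ 1 ∧ 1 < |X (i + 1) E q| ∧ 1 < |X (i + 2) E q| := by
    intro k
    induction k with
    | zero =>
      intro h1 h2
      exact ⟨0, le_refl 0, by simp [X], h1, h2⟩
    | succ k ih =>
      intro h1 h2
      by_cases h : |X (k + 1) E q| ≤ 1
      · exact ⟨k + 1, le_refl _, h, h1, h2⟩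
      · obtain ⟨i, hi, h3⟩ := ih (not_le.1 h) h1
        exact ⟨i, by omega, h3⟩
  obtain ⟨k, rfl⟩ : ∃ k', k = k' + 1 := ⟨k - 1, by omega⟩
  obtain ⟨i, hi, h0, h1, h2⟩ := key k hcon.1 hcon.2
  have hg := grow_lt (fun j => X (i + j) E q) (fun n => by
    show X (i + (n + 3)) E q = 2 * X (i + (n + 2)) E q * X (i + (n + 1)) E q - X (i + n) E q
    have e3 : i + (n + 3) = (i + n) + 3 := by omega
    have e2 : i + (n + 2) = (i + n) + 2 := by omega
    have e1 : i + (n + 1) = (i + n) + 1 := by omega
    rw [e3, e2, e1]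
    rfl) h0 h1 h2 (m - i - 1)
  have e : i + (m - i - 1 + 1) = m := by omega
  have := hg.1
  simp only [e] at this
  exact absurd hm (not_le.2 this)

/-! ### WordTr -/

theorem TM_append_b (E : ℝ) : ∀ l₁ l₂ : List ℝ, TM E (l₁ ++ l₂) = TM E l₂ * TM E l₁ := by
  intro l₁
  induction l₁ with
  | nil => intro l₂; simp [TM]
  | cons v l ih =>
    intro l₂
    simp only [List.cons_append, TM, ih, Matrix.mul_assoc]

theorem TM_det_b (E : ℝ) : ∀ l : List ℝ, (TM E l).det = 1 := by
  intro l
  induction l with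
  | nil => simp [TM]
  | cons v l ih => simp [TM, Matrix.det_mul, ih, T, Matrix.det_fin_two]

/-- Cayley-Hamilton for traces -/
theorem trace_aux (A B : Matrix (Fin 2) (Fin 2) ℝ) (hB : B.det = 1) :
    (B * (A * B)).trace = B.trace * (A * B).trace - A.trace := by
  rw [Matrix.det_fin_two] at hB
  simp only [Matrix.trace_fin_two, Matrix.mul_apply, Fin.sum_univ_two]
  linear_combination (-(A 0 0 + A 1 1)) * hB

theorem wordTr_proof : Stmt_WordTr := by
  intro n E q
  induction n using Nat.strong_induction_on with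
  | _ n ih =>
    match n, ih with
    | 0, _ => simp [word, TM, X]
    | 1, _ => simp [word, TM, T, X, Matrix.trace_fin_two]; ring
    | 2, _ => simp [word, TM, T, X, Matrix.trace_fin_two]; ring
    | 3, _ => simp [word, TM, T, X, Matrix.trace_fin_two]; ring
    | n + 4, ih =>
      have h3 := ih (n + 3) (by omega)
      have h2 := ih (n + 2) (by omega)
      have h1 := ih (n + 1) (by omega)
      have e3 : TM E (word q (n + 3)) = TM E (word q (n + 1)) * TM E (word q (n + 2)) := by
        show TM E (word q (n + 2) ++ word q (n + 1)) = _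
        rw [TM_append_b]
      have e4 : TM E (word q (n + 4)) = TM E (word q (n + 2)) * TM E (word q (n + 3)) := by
        show TM E (word q (n + 3) ++ word q (n + 2)) = _
        rw [TM_append_b]
      rw [e4, e3, trace_aux _ _ (TM_det_b E _), ← e3, h3, h2, h1]
      show _ = 2 * (2 * X (n + 3) E q * X (n + 2) E q - X (n + 1) E q)
      ring

end Pool.Agent.FH
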