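import Pool.Agent.FH.Stmts

set_option autoImplicit false

open MeasureTheory MeasureTheory.Measure Metric Filter Topology
open scoped ENNReal NNReal

namespace Pool.Agent.FH

theorem exists_interval (T : Set ℝ) (hT : ediam T ≤ 1) {s : ℝ} (hs : 0 < s) {δ : ℝ≥0∞}
    (hδ : 0 < δ) : ∃ a b : ℝ, T ⊆ Set.Ioo a b ∧
      (ENNReal.ofReal (b - a)) ^ s ≤ (⨆ _ : T.Nonempty, ediam T ^ s) + δ := by
  rcases T.eq_empty_or_nonempty with h | h
  · subst h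
    refine ⟨0, 0, Set.empty_subset _, ?_⟩
    simp [ENNReal.zero_rpow_of_pos hs]
  · have hb : Bornology.IsBounded T :=
      Metric.isBounded_iff_ediam_ne_top.2 (ne_top_of_le_ne_top ENNReal.one_ne_top hT)
    have e1 : ediam T = ENNReal.ofReal (sSup T - sInf T) := Real.ediam_eq hb
    have hsup : (⨆ _ : T.Nonempty, ediam T ^ s) = ediam T ^ s := by
      simp [h]
    rw [hsup]
    have hbdd := (isBounded_iff_bddBelow_bddAbove.1 hb)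
    have hcont : Continuous (fun η : ℝ =>
        (ENNReal.ofReal ((sSup T + η) - (sInf T - η))) ^ s) :=
      ENNReal.continuous_rpow_const.comp (ENNReal.continuous_ofReal.comp (by fun_prop))
    have h0 : (fun η : ℝ =>
        (ENNReal.ofReal ((sSup T + η) - (sInf T - η))) ^ s) 0 < ediam T ^ s + δ := by
      simp only [add_zero, sub_zero]
      rw [← e1]
      refine ENNReal.lt_add_right ?_ hδ.ne'
      exact ENNReal.rpow_ne_top_of_nonneg hs.le (ne_top_of_le_ne_top ENNReal.one_ne_top hT)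
    have h1 := (hcont.tendsto 0).eventually (gt_mem_nhds h0)
    have h2 : ∀ᶠ η in 𝓝[>] (0 : ℝ), (ENNReal.ofReal ((sSup T + η) - (sInf T - η))) ^ s
        < ediam T ^ s + δ := h1.filter_mono nhdsWithin_le_nhds
    obtain ⟨η, hη, hη0⟩ := (h2.and self_mem_nhdsWithin).exists
    refine ⟨sInf T - η, sSup T + η, ?_, hη.le⟩
    intro x hx
    have := csInf_le hbdd.1 hx
    have := le_csSup hbdd.2 hx
    have hη0' : 0 < η := hη0
    constructor <;> linarith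

theorem exists_intervals {K : Set ℝ} {s : ℝ} (hs : 0 < s) (h : μH[s] K = 0) {ε : ℝ≥0∞}
    (hε : 0 < ε) : ∃ a b : ℕ → ℝ, K ⊆ ⋃ i, Set.Ioo (a i) (b i) ∧
      ∑' i, (ENNReal.ofReal (b i - a i)) ^ s ≤ ε := by
  rw [hausdorffMeasure_apply] at h
  have h1 : ⨅ (t : ℕ → Set ℝ) (_ : K ⊆ ⋃ n, t n) (_ : ∀ n, ediam (t n) ≤ (1 : ℝ≥0∞)),
          ∑' n, ⨆ _ : (t n).Nonempty, ediam (t n) ^ s < ε / 2 := by
    refine lt_of_le_of_lt ?_ (ENNReal.half_pos hε.ne')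
    rw [← h]
    exact le_iSup₂ (f := fun (r : ℝ≥0∞) (_ : 0 < r) => ⨅ (t : ℕ → Set ℝ) (_ : K ⊆ ⋃ n, t n)
      (_ : ∀ n, ediam (t n) ≤ r), ∑' n, ⨆ _ : (t n).Nonempty, ediam (t n) ^ s) 1 one_pos
  simp only [iInf_lt_iff] at h1
  obtain ⟨t, ht1, ht2, ht3⟩ := h1
  obtain ⟨δ, hδ0, hδ⟩ := ENNReal.exists_pos_sum_of_countable (ENNReal.half_pos hε.ne').ne' ℕ
  have hex : ∀ n, ∃ a b : ℝ, t n ⊆ Set.Ioo a b ∧
      (ENNReal.ofReal (b - a)) ^ s ≤ (⨆ _ : (t n).Nonempty, ediam (t n) ^ s) + δ n := fun n =>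
    exists_interval (t n) (ht2 n) hs (by simpa using hδ0 n)
  choose a b hab1 hab2 using hex
  refine ⟨a, b, ht1.trans (Set.iUnion_mono hab1), ?_⟩
  calc ∑' i, (ENNReal.ofReal (b i - a i)) ^ s
      ≤ ∑' i, ((⨆ _ : (t i).Nonempty, ediam (t i) ^ s) + δ i) := ENNReal.tsum_le_tsum hab2
    _ = ∑' i, (⨆ _ : (t i).Nonempty, ediam (t i) ^ s) + ∑' i, (δ i : ℝ≥0∞) := ENNReal.tsum_add
    _ ≤ ε / 2 + ε / 2 := add_le_add ht3.le hδ.le
    _ = ε := ENNReal.add_halves ε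

/-! ## counting functions -/

theorem Z_one_le (q E : ℝ) : Z 1 q E ≤ 1 := by
  unfold Z
  refine (Set.ncard_le_ncard (t := {(0 : ℝ)}) ?_ (Set.finite_singleton _)).trans (by simp)
  rintro x ⟨h1, -⟩
  have : x / 2 = 0 := h1
  simp only [Set.mem_singleton_iff]
  linarith

theorem Z_two_le (q E : ℝ) : Z 2 q E ≤ 1 := by
  unfold Z
  refine (Set.ncard_le_ncard (t := {q}) ?_ (Set.finite_singleton _)).trans (by simp)
  rintro x ⟨h1, -⟩
  have : (x - q) / 2 = 0 := h1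
  simp only [Set.mem_singleton_iff]
  linarith

/-- the golden ratio -/
theorem exists_phi : ∃ φ : ℝ, φ ^ 2 = φ + 1 ∧ 1.6 < φ ∧ φ < 1.62 := by
  refine ⟨(1 + Real.sqrt 5) / 2, ?_, ?_, ?_⟩
  · have := Real.sq_sqrt (show (0 : ℝ) ≤ 5 by norm_num)
    nlinarith
  · have : (2.2 : ℝ) < Real.sqrt 5 := Real.lt_sqrt_of_sq_lt (by norm_num)
    linarith
  · have : Real.sqrt 5 < (2.24 : ℝ) := by
      rw [Real.sqrt_lt' (by norm_num)]; norm_num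
    linarith

theorem Z_phi (hC : Stmt_Count) {φ : ℝ} (h1 : φ ^ 2 = φ + 1) (h2 : 1.6 < φ) (h3 : φ < 1.62)
    (n : ℕ) (q E : ℝ) :
    |(Z (n + 2) q E : ℝ) - φ * Z (n + 1) q E| ≤ 6 := by
  induction n with
  | zero =>
    have e1 : (Z 1 q E : ℝ) ≤ 1 := by exact_mod_cast Z_one_le q E
    have e2 : (Z 2 q E : ℝ) ≤ 1 := by exact_mod_cast Z_two_le q E
    have e3 : (0 : ℝ) ≤ Z 1 q E := Nat.cast_nonneg _
    have e4 : (0 : ℝ) ≤ Z 2 q E := Nat.cast_nonneg _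
    simp only [zero_add]
    rw [abs_le]
    constructor <;> nlinarith
  | succ n ih =>
    obtain ⟨a1, a2⟩ := hC.1 (n + 1) (by omega) q E
    have b1 : (Z (n + 3) q E : ℝ) ≤ Z (n + 2) q E + Z (n + 1) q E + 2 := by exact_mod_cast a1
    have b2 : (Z (n + 2) q E : ℝ) + Z (n + 1) q E ≤ Z (n + 3) q E + 2 := by exact_mod_cast a2
    have e : (Z (n + 3) q E : ℝ) - φ * Z (n + 2) q E =
        ((Z (n + 3) q E : ℝ) - Z (n + 2) q E - Z (n + 1) q E)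
          - (φ - 1) * ((Z (n + 2) q E : ℝ) - φ * Z (n + 1) q E) := by
      have : (φ - 1) * φ = 1 := by nlinarith
      linear_combination (-(Z (n + 1) q E : ℝ)) * this
    show |(Z (n + 3) q E : ℝ) - φ * Z (n + 2) q E| ≤ 6
    rw [e]
    rw [abs_le] at ih ⊢
    constructor <;> nlinarith

theorem Z_phi2 (hC : Stmt_Count) {φ : ℝ} (h1 : φ ^ 2 = φ + 1) (h2 : 1.6 < φ) (h3 : φ < 1.62)
    (n : ℕ) (q E : ℝ) :
    |(Z (n + 3) q E : ℝ) - φ ^ 2 * Z (n + 1) q E| ≤ 16 := by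
  have a := Z_phi hC h1 h2 h3 n q E
  have b := Z_phi hC h1 h2 h3 (n + 1) q E
  have b' : |(Z (n + 3) q E : ℝ) - φ * Z (n + 2) q E| ≤ 6 := b
  rw [abs_le] at a b' ⊢
  constructor <;> nlinarith

/-- one of the two coarser scales controls the count -/
theorem Z_scale (hC : Stmt_Count) (n r : ℕ) (hn : 3 ≤ n) (hr : r = n - 1 ∨ r = n - 2) :
    ∃ c : ℝ, 0 ≤ c ∧ c ≤ 2.63 ∧ ∀ q E : ℝ, |(Z n q E : ℝ) - c * Z r q E| ≤ 16 := by
  obtain ⟨φ, h1, h2, h3⟩ := exists_phi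
  rcases hr with hr | hr
  · refine ⟨φ, by linarith, by linarith, fun q E => ?_⟩
    obtain ⟨m, rfl⟩ : ∃ m, n = m + 2 := ⟨n - 2, by omega⟩
    have : r = m + 1 := by omega
    subst this
    exact (Z_phi hC h1 h2 h3 m q E).trans (by norm_num)
  · refine ⟨φ ^ 2, by positivity, by nlinarith, fun q E => ?_⟩
    obtain ⟨m, rfl⟩ : ∃ m, n = m + 3 := ⟨n - 3, by omega⟩
    have : r = m + 1 := by omega
    subst this
    exact Z_phi2 hC h1 h2 h3 m q E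

/-- the finitely many possible labels -/
noncomputable def lab (n : ℕ) (q a b : ℝ) : Finset ℕ :=
  Finset.Icc (Z n q a - 2) (Z n q a + 50) ∪ Finset.Icc (Z n q b - 50) (Z n q b + 50)

theorem lab_card (n : ℕ) (q a b : ℝ) : (lab n q a b).card ≤ 200 := by
  refine (Finset.card_union_le _ _).trans ?_
  rw [Nat.card_Icc, Nat.card_Icc]
  omega

theorem mem_lab_left (hC : Stmt_Count) {n r j j' : ℕ} (hn : 3 ≤ n) (hr : r = n - 1 ∨ r = n - 2)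
    {q₁ q₂ a b E' x y : ℝ} (h1 : E' ∈ Band n j q₂) (h2 : E' ∈ Band r j' q₂)
    (hx : x ∈ Band n j q₁) (hxa : a < x) (hy : y ∈ Band r j' q₁) (hya : y ≤ a) :
    j ∈ lab n q₁ a b := by
  obtain ⟨c, hc0, hc, hZ⟩ := Z_scale hC n r hn hr
  have hr1 : 1 ≤ r := by omega
  have A1 := (hC.2.1 n (by omega) j q₂ E' h1).2
  have A2 := (hC.2.1 r hr1 j' q₂ E' h2).1
  have A3 := (hC.2.1 r hr1 j' q₁ y hy).2
  have A4 := hC.2.2 n (by omega) q₁ y a hya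
  have A5 := hC.2.2 n (by omega) q₁ a x hxa.le
  have A6 := (hC.2.1 n (by omega) j q₁ x hx).1
  have B1 : (j : ℝ) ≤ Z n q₂ E' + 2 := by exact_mod_cast A1
  have B2 : (Z r q₂ E' : ℝ) ≤ j' + 2 := by exact_mod_cast A2
  have B3 : (j' : ℝ) ≤ Z r q₁ y + 2 := by exact_mod_cast A3
  have B4 : (Z n q₁ y : ℝ) ≤ Z n q₁ a := by exact_mod_cast A4
  have C1 := abs_le.1 (hZ q₂ E')
  have C2 := abs_le.1 (hZ q₁ y)
  have D1 : (j : ℝ) ≤ Z n q₁ a + 50 := by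
    have : c * (Z r q₂ E' : ℝ) ≤ c * (Z r q₁ y + 4) :=
      mul_le_mul_of_nonneg_left (by linarith) hc0
    nlinarith
  have D2 : j ≤ Z n q₁ a + 50 := by exact_mod_cast D1
  refine Finset.mem_union_left _ (Finset.mem_Icc.2 ⟨by omega, D2⟩)

theorem mem_lab_right (hC : Stmt_Count) {n r j j' : ℕ} (hn : 3 ≤ n) (hr : r = n - 1 ∨ r = n - 2)
    {q₁ q₂ a b E' x y : ℝ} (h1 : E' ∈ Band n j q₂) (h2 : E' ∈ Band r j' q₂)
    (hx : x ∈ Band n j q₁) (hxb : x < b) (hy : y ∈ Band r j' q₁) (hyb : b ≤ y) :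
    j ∈ lab n q₁ a b := by
  obtain ⟨c, hc0, hc, hZ⟩ := Z_scale hC n r hn hr
  have hr1 : 1 ≤ r := by omega
  have A1 := (hC.2.1 n (by omega) j q₂ E' h1).1
  have A2 := (hC.2.1 r hr1 j' q₂ E' h2).2
  have A3 := (hC.2.1 r hr1 j' q₁ y hy).1
  have A4 := hC.2.2 n (by omega) q₁ b y hyb
  have A5 := hC.2.2 n (by omega) q₁ x b hxb.le
  have A6 := (hC.2.1 n (by omega) j q₁ x hx).2
  have B1 : (Z n q₂ E' : ℝ) ≤ j + 2 := by exact_mod_cast A1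
  have B2 : (j' : ℝ) ≤ Z r q₂ E' + 2 := by exact_mod_cast A2
  have B3 : (Z r q₁ y : ℝ) ≤ j' + 2 := by exact_mod_cast A3
  have B4 : (Z n q₁ b : ℝ) ≤ Z n q₁ y := by exact_mod_cast A4
  have C1 := abs_le.1 (hZ q₂ E')
  have C2 := abs_le.1 (hZ q₁ y)
  have D1 : (Z n q₁ b : ℝ) ≤ j + 50 := by
    have : c * (Z r q₁ y : ℝ) ≤ c * (Z r q₂ E' + 4) :=
      mul_le_mul_of_nonneg_left (by linarith) hc0
    nlinarith
  have D2 : Z n q₁ b ≤ j + 50 := by exact_mod_cast D1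
  refine Finset.mem_union_right _ (Finset.mem_Icc.2 ⟨by omega, by omega⟩)

/-! ## bands -/

theorem mem_band (n : ℕ) {q E : ℝ} (h : |X n E q| < 1) :
    E ∈ Band n ({E' : ℝ | X n E' q = X n E q ∧ E' < E}.ncard) q := ⟨h, rfl⟩

theorem band_dist (hBL : Stmt_BandLam) (hS : Stmt_Shrink) {n j : ℕ} (hn : 1 ≤ n) {q₁ q₂ : ℝ}
    (hq : 0 ≤ q₁) (hqq : q₁ ≤ q₂) {x y : ℝ} (hx : x ∈ Band n j q₂) (hy : y ∈ Band n j q₂) :
    ∃ x' ∈ Band n j q₁, ∃ y' ∈ Band n j q₁, |x - y| ≤ |x' - y'| := by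
  obtain ⟨hj, κ, hκ, rfl⟩ := (hBL n hn j q₂ x).1 hx
  obtain ⟨-, κ', hκ', rfl⟩ := (hBL n hn j q₂ y).1 hy
  exact ⟨lam n j κ q₁, (hBL n hn j q₁ _).2 ⟨hj, κ, hκ, rfl⟩, lam n j κ' q₁,
    (hBL n hn j q₁ _).2 ⟨hj, κ', hκ', rfl⟩, hS n hn j hj κ hκ κ' hκ' q₁ q₂ hq hqq⟩

theorem band_small (hBL : Stmt_BandLam) (hS : Stmt_Shrink) (hB0 : Stmt_Band0) {n j : ℕ}
    (hn : 1 ≤ n) {q : ℝ} (hq : 0 ≤ q) {x y : ℝ} (hx : x ∈ Band n j q) (hy : y ∈ Band n j q) :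
    |x - y| ≤ 2 * Real.pi / Nat.fib n := by
  obtain ⟨hj, κ, hκ, rfl⟩ := (hBL n hn j q x).1 hx
  obtain ⟨-, κ', hκ', rfl⟩ := (hBL n hn j q y).1 hy
  exact (hS n hn j hj κ hκ κ' hκ' 0 q le_rfl hq).trans (hB0 n hn j hj κ hκ κ' hκ')

theorem fib_ge (n : ℕ) : (3 / 2 : ℝ) ^ (n + 1) ≤ 9 / 4 * Nat.fib (n + 1) ∧
    (3 / 2 : ℝ) ^ (n + 2) ≤ 9 / 4 * Nat.fib (n + 2) := by
  induction n with
  | zero => norm_num
  | succ n ih =>
    refine ⟨ih.2, ?_⟩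
    have e : (Nat.fib (n + 3) : ℝ) = Nat.fib (n + 1) + Nat.fib (n + 2) := by
      exact_mod_cast Nat.fib_add_two (n := n + 1)
    show (3 / 2 : ℝ) ^ (n + 3) ≤ 9 / 4 * Nat.fib (n + 3)
    rw [e]
    have h1 := ih.1
    have h2 := ih.2
    have e3 : (3 / 2 : ℝ) ^ (n + 3) = 3 / 2 * (3 / 2 : ℝ) ^ (n + 2) := by ring
    have e2 : (3 / 2 : ℝ) ^ (n + 2) = 3 / 2 * (3 / 2 : ℝ) ^ (n + 1) := by ring
    have hp : (0 : ℝ) < (3 / 2 : ℝ) ^ (n + 1) := by positivity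
    nlinarith

theorem two_pi_div_fib (n : ℕ) (hn : 1 ≤ n) :
    2 * Real.pi / Nat.fib n ≤ 15 * (2 / 3 : ℝ) ^ n := by
  obtain ⟨m, rfl⟩ : ∃ m, n = m + 1 := ⟨n - 1, by omega⟩
  have hf : (0 : ℝ) < Nat.fib (m + 1) := by
    exact_mod_cast Nat.fib_pos.2 (Nat.succ_pos m)
  rw [div_le_iff₀ hf]
  have h := (fib_ge m).1
  have hp : (0 : ℝ) < (2 / 3 : ℝ) ^ (m + 1) := by positivity
  have e : (2 / 3 : ℝ) ^ (m + 1) * (3 / 2 : ℝ) ^ (m + 1) = 1 := by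
    rw [← mul_pow]; norm_num
  have h2 : (2 / 3 : ℝ) ^ (m + 1) * (3 / 2 : ℝ) ^ (m + 1)
      ≤ (2 / 3 : ℝ) ^ (m + 1) * (9 / 4 * Nat.fib (m + 1)) := mul_le_mul_of_nonneg_left h hp.le
  rw [e] at h2
  have := Real.pi_lt_d2
  nlinarith

theorem cont_X (hP : Stmt_Poly) (n : ℕ) (hn : 1 ≤ n) (q : ℝ) :
    Continuous (fun E => X n E q) := by
  obtain ⟨P, R, -, -, h, -⟩ := hP n hn q
  have : (fun E => X n E q) = fun E => P.eval E := by
    funext E; exact (h E).symm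
  rw [this]
  exact P.continuous

/-- the exceptional set is countable -/
theorem exc_countable (hP : Stmt_Poly) (q : ℝ) :
    {E : ℝ | ∃ n : ℕ, 1 ≤ n ∧ |X n E q| = 1}.Countable := by
  have h : {E : ℝ | ∃ n : ℕ, 1 ≤ n ∧ |X n E q| = 1} ⊆
      ⋃ n : ℕ, {E : ℝ | 1 ≤ n ∧ |X n E q| = 1} := by
    rintro E ⟨n, hn⟩
    exact Set.mem_iUnion.2 ⟨n, hn⟩
  refine Set.Countable.mono h (Set.countable_iUnion fun n => ?_)
  by_cases hn : 1 ≤ n
  · obtain ⟨P, R, hd, -, he, -⟩ := hP n hn q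
    have hf : 0 < Nat.fib n := Nat.fib_pos.2 hn
    have key : ∀ c : ℝ, {E : ℝ | X n E q = c}.Finite := by
      intro c
      have hne : P - Polynomial.C c ≠ 0 := by
        intro h0
        have : P = Polynomial.C c := sub_eq_zero.1 h0
        rw [this, Polynomial.natDegree_C] at hd
        omega
      refine (Polynomial.finite_setOfPred_isRoot hne).subset ?_
      intro E hE
      have hE' : X n E q = c := hE
      show Polynomial.IsRoot _ _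
      rw [Polynomial.IsRoot, Polynomial.eval_sub, Polynomial.eval_C, he E, hE', sub_self]
    refine Set.Finite.countable (((key 1).union (key (-1))).subset ?_)
    rintro E ⟨-, hE⟩
    rcases (abs_eq (by norm_num : (0 : ℝ) ≤ 1)).1 hE with h | h
    · exact Or.inl h
    · exact Or.inr h
  · refine Set.Countable.mono ?_ Set.countable_empty
    rintro E ⟨h1, -⟩
    exact hn h1

/-- infinitely many scales see a given energy, and the corresponding bands at `q₁` get inside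
some interval of the cover -/
theorem exists_scale (hBL : Stmt_BandLam) (hS : Stmt_Shrink) (hB0 : Stmt_Band0)
    (hN : Stmt_Nest) (hP : Stmt_Poly) {q₁ q₂ : ℝ} (hq : 0 ≤ q₁) (_hqq : q₁ ≤ q₂)
    {a b : ℕ → ℝ} (hab : Kinf q₁ ⊆ ⋃ i, Set.Ioo (a i) (b i)) {E : ℝ}
    (hE : ∀ n : ℕ, 1 ≤ n → |X n E q₂| < 1 ∨ |X (n + 1) E q₂| < 1) :
    ∃ i n j : ℕ, 1 ≤ n ∧ E ∈ Band n j q₂ ∧ Band n j q₁ ⊆ Set.Ioo (a i) (b i) := by
  have hinf : ∀ N : ℕ, ∃ n > N, 1 ≤ n ∧ |X n E q₂| < 1 := by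
    intro N
    rcases hE (N + 1) (by omega) with h | h
    · exact ⟨N + 1, by omega, by omega, h⟩
    · exact ⟨N + 2, by omega, by omega, h⟩
  obtain ⟨φ, hφ, hφ2⟩ := Filter.extraction_of_frequently_atTop
    (P := fun n => 1 ≤ n ∧ |X n E q₂| < 1)
    (Filter.frequently_atTop'.2 fun N => by
      obtain ⟨n, hn, h⟩ := hinf N
      exact ⟨n, hn, h⟩)
  -- labels and midpoints
  have hlab : ∀ m : ℕ, ∃ j : ℕ, E ∈ Band (φ m) j q₂ := fun m => ⟨_, mem_band _ (hφ2 m).2⟩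
  choose j hj using hlab
  have hmid : ∀ m : ℕ, ∃ y : ℝ, y ∈ Band (φ m) (j m) q₁ := by
    intro m
    obtain ⟨hjm, κ, hκ, -⟩ := (hBL _ (hφ2 m).1 _ _ _).1 (hj m)
    exact ⟨lam (φ m) (j m) κ q₁, (hBL _ (hφ2 m).1 _ _ _).2 ⟨hjm, κ, hκ, rfl⟩⟩
  choose y hy using hmid
  have hφm : ∀ m, m ≤ φ m := fun m => hφ.id_le m
  have hbd : ∀ m, 2 ≤ m → y m ∈ Set.Icc (-(2 + q₁)) (2 + q₁) := by
    intro m hm
    have h1 : |X (φ m) (y m) q₁| ≤ 1 := (hy m).1.le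
    rcases hN _ _ _ h1 1 le_rfl (by have := hφm m; omega) with h | h
    · have h' : |y m / 2| ≤ 1 := h
      rw [abs_le] at h'
      constructor <;> linarith [h'.1, h'.2]
    · have h' : |(y m - q₁) / 2| ≤ 1 := h
      rw [abs_le] at h'
      constructor <;> linarith [h'.1, h'.2]
  obtain ⟨z, -, ψ, hψ, hlim⟩ := (isCompact_Icc (a := -(2 + q₁)) (b := 2 + q₁)).tendsto_subseq
    (x := fun m => y (m + 2)) (fun m => hbd (m + 2) (by omega))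
  have hz : z ∈ Kinf q₁ := by
    intro k hk
    have hcl : IsClosed {x : ℝ | |X k x q₁| ≤ 1 ∨ |X (k + 1) x q₁| ≤ 1} := by
      apply IsClosed.union
      · exact isClosed_le (cont_X hP k hk q₁).abs continuous_const
      · exact isClosed_le (cont_X hP (k + 1) (by omega) q₁).abs continuous_const
    refine hcl.mem_of_tendsto hlim ?_
    filter_upwards [Filter.eventually_ge_atTop (k + 1)] with m hm
    have h1 : |X (φ (ψ m + 2)) (y (ψ m + 2)) q₁| ≤ 1 := (hy _).1.le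
    have h2 := hψ.id_le m
    have h3 := hφm (ψ m + 2)
    exact hN _ _ _ h1 k hk (by simp only [id] at h2; omega)
  obtain ⟨i, hi⟩ := Set.mem_iUnion.1 (hab hz)
  have hopen : ∀ᶠ x in 𝓝 z, x ∈ Set.Ioo (a i) (b i) := Ioo_mem_nhds hi.1 hi.2
  obtain ⟨δ, hδ, hball⟩ := Metric.eventually_nhds_iff.1 hopen
  have hd0 : Filter.Tendsto (fun m : ℕ => 15 * (2 / 3 : ℝ) ^ m) Filter.atTop (𝓝 0) := by
    have := (tendsto_pow_atTop_nhds_zero_of_lt_one (r := (2 / 3 : ℝ)) (by norm_num)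
      (by norm_num)).const_mul 15
    simpa using this
  have e1 : ∀ᶠ m in Filter.atTop, 15 * (2 / 3 : ℝ) ^ m < δ / 2 :=
    hd0.eventually (gt_mem_nhds (by positivity))
  have e2 : ∀ᶠ m in Filter.atTop, dist (y (ψ m + 2)) z < δ / 2 :=
    hlim.eventually (Metric.ball_mem_nhds z (by positivity))
  obtain ⟨m, hm1, hm2⟩ := (e1.and e2).exists
  refine ⟨i, φ (ψ m + 2), j (ψ m + 2), (hφ2 _).1, hj _, ?_⟩
  intro x hx
  apply hball
  have h1 := band_small hBL hS hB0 (hφ2 (ψ m + 2)).1 hq hx (hy _)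
  have h2 := two_pi_div_fib (φ (ψ m + 2)) (hφ2 (ψ m + 2)).1
  have h3 : (2 / 3 : ℝ) ^ (φ (ψ m + 2)) ≤ (2 / 3 : ℝ) ^ m := by
    apply pow_le_pow_of_le_one (by norm_num) (by norm_num)
    have h2 := hψ.id_le m
    have h3 := hφm (ψ m + 2)
    simp only [id] at h2
    omega
  calc dist x z ≤ dist x (y (ψ m + 2)) + dist (y (ψ m + 2)) z := dist_triangle _ _ _
    _ < δ := by
      rw [Real.dist_eq] at hm2 ⊢
      have : |x - y (ψ m + 2)| < δ / 2 := by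
        refine lt_of_le_of_lt (h1.trans (h2.trans ?_)) hm1
        exact mul_le_mul_of_nonneg_left h3 (by norm_num)
      rw [Real.dist_eq]
      linarith

/-- every energy outside of the exceptional set is in a band with a label in `lab` -/
theorem exists_cover (hC : Stmt_Count) (hBL : Stmt_BandLam) (hS : Stmt_Shrink) (hB0 : Stmt_Band0)
    (hN : Stmt_Nest) (hP : Stmt_Poly) {q₁ q₂ : ℝ} (hq : 0 ≤ q₁) (hqq : q₁ ≤ q₂)
    {a b : ℕ → ℝ} (hab : Kinf q₁ ⊆ ⋃ i, Set.Ioo (a i) (b i)) {E : ℝ}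
    (hE : ∀ n : ℕ, 1 ≤ n → |X n E q₂| < 1 ∨ |X (n + 1) E q₂| < 1) :
    ∃ i n j : ℕ, 1 ≤ n ∧ j ∈ lab n q₁ (a i) (b i) ∧ E ∈ Band n j q₂ ∧
      Band n j q₁ ⊆ Set.Ioo (a i) (b i) := by
  obtain ⟨i, n0, j0, hn0, h1, h2⟩ := exists_scale hBL hS hB0 hN hP hq hqq hab hE
  have hex : ∃ n, ∃ j, 1 ≤ n ∧ E ∈ Band n j q₂ ∧ Band n j q₁ ⊆ Set.Ioo (a i) (b i) :=
    ⟨n0, j0, hn0, h1, h2⟩
  classical
  obtain ⟨j, hn, hj1, hj2⟩ := Nat.find_spec hex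
  have hmin : ∀ m < Nat.find hex, ¬ ∃ j, 1 ≤ m ∧ E ∈ Band m j q₂ ∧
    Band m j q₁ ⊆ Set.Ioo (a i) (b i) := fun m hm => Nat.find_min hex hm
  generalize Nat.find hex = n at hn hj1 hj2 hmin
  refine ⟨i, n, j, hn, ?_, hj1, hj2⟩
  obtain ⟨hjn, κ, hκ, -⟩ := (hBL n hn j q₂ E).1 hj1
  have hx : lam n j κ q₁ ∈ Band n j q₁ := (hBL n hn j q₁ _).2 ⟨hjn, κ, hκ, rfl⟩
  by_cases hn3 : 3 ≤ n
  · have hrex : ∃ r, (r = n - 1 ∨ r = n - 2) ∧ |X r E q₂| < 1 := by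
      rcases hE (n - 2) (by omega) with h | h
      · exact ⟨n - 2, Or.inr rfl, h⟩
      · refine ⟨n - 1, Or.inl rfl, ?_⟩
        have : n - 2 + 1 = n - 1 := by omega
        rwa [this] at h
    obtain ⟨r, hr, hrE⟩ := hrex
    have hrE' := mem_band r hrE
    have hnot : ¬ Band r ({E' : ℝ | X r E' q₂ = X r E q₂ ∧ E' < E}.ncard) q₁ ⊆
        Set.Ioo (a i) (b i) := by
      intro hsub
      exact hmin r (by omega) ⟨_, by omega, hrE', hsub⟩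
    obtain ⟨y, hy, hyn⟩ := Set.not_subset.1 hnot
    have hxI := hj2 hx
    by_cases hya : y ≤ a i
    · exact mem_lab_left hC hn3 hr hj1 hrE' hx hxI.1 hy hya
    · have hyb : b i ≤ y := by
        by_contra hcon
        exact hyn ⟨not_le.1 hya, not_le.1 hcon⟩
      exact mem_lab_right hC hn3 hr hj1 hrE' hx hxI.2 hy hyb
  · have hn12 : n = 1 ∨ n = 2 := by omega
    have hj0 : j = 0 := by
      rcases hn12 with rfl | rfl <;> simp at hjn <;> exact hjn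
    have hZ : Z n q₁ (a i) ≤ 1 := by
      rcases hn12 with rfl | rfl
      · exact Z_one_le _ _
      · exact Z_two_le _ _
    subst hj0
    exact Finset.mem_union_left _ (Finset.mem_Icc.2 ⟨by omega, by omega⟩)

/-- the cover of the spectrum at `q₂` that comes from a cover at `q₁` -/
noncomputable def cov (q₁ q₂ : ℝ) (a b : ℕ → ℝ) (p : ℕ × ℕ × ℕ) : Set ℝ :=
  {E : ℝ | 1 ≤ p.2.1 ∧ p.2.2 ∈ lab p.2.1 q₁ (a p.1) (b p.1) ∧ E ∈ Band p.2.1 p.2.2 q₂ ∧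
      Band p.2.1 p.2.2 q₁ ⊆ Set.Ioo (a p.1) (b p.1)}

theorem ediam_cov_left (hBL : Stmt_BandLam) (hS : Stmt_Shrink) {q₁ q₂ : ℝ}
    (hq : 0 ≤ q₁) (hqq : q₁ ≤ q₂) (a b : ℕ → ℝ) (p : ℕ × ℕ × ℕ) :
    ediam (cov q₁ q₂ a b p) ≤ ENNReal.ofReal (b p.1 - a p.1) := by
  refine Metric.ediam_le ?_
  rintro x ⟨hn, -, hx, hsub⟩ y ⟨-, -, hy, -⟩
  obtain ⟨x', hx', y', hy', h⟩ := band_dist hBL hS hn hq hqq hx hy
  rw [edist_dist, Real.dist_eq]
  refine ENNReal.ofReal_le_ofReal (h.trans ?_)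
  have h1 := hsub hx'
  have h2 := hsub hy'
  rw [abs_le]
  constructor <;> linarith [h1.1, h1.2, h2.1, h2.2]

theorem ediam_cov_right (hBL : Stmt_BandLam) (hS : Stmt_Shrink) (hB0 : Stmt_Band0) {q₁ q₂ : ℝ}
    (hq : 0 ≤ q₁) (hqq : q₁ ≤ q₂) (a b : ℕ → ℝ) (p : ℕ × ℕ × ℕ) :
    ediam (cov q₁ q₂ a b p) ≤ ENNReal.ofReal (15 * (2 / 3 : ℝ) ^ p.2.1) := by
  refine Metric.ediam_le ?_
  rintro x ⟨hn, -, hx, hsub⟩ y ⟨-, -, hy, -⟩
  rw [edist_dist, Real.dist_eq]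
  exact ENNReal.ofReal_le_ofReal
    ((band_small hBL hS hB0 hn (hq.trans hqq) hx hy).trans (two_pi_div_fib _ hn))

theorem cov_pow (hBL : Stmt_BandLam) (hS : Stmt_Shrink) (hB0 : Stmt_Band0) {q₁ q₂ : ℝ}
    (hq : 0 ≤ q₁) (hqq : q₁ ≤ q₂) (a b : ℕ → ℝ) {s d : ℝ} (hs : 0 < s) (hsd : s < d) (i n j : ℕ) :
    ediam (cov q₁ q₂ a b (i, n, j)) ^ d ≤
      if j ∈ lab n q₁ (a i) (b i) then (ENNReal.ofReal (b i - a i)) ^ s *
        (ENNReal.ofReal 15 ^ (d - s) * ((ENNReal.ofReal (2 / 3)) ^ (d - s)) ^ n) else 0 := by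
  split_ifs with h
  · have e1 : ediam (cov q₁ q₂ a b (i, n, j)) ^ d = ediam (cov q₁ q₂ a b (i, n, j)) ^ s *
        ediam (cov q₁ q₂ a b (i, n, j)) ^ (d - s) := by
      rw [← ENNReal.rpow_add_of_nonneg _ _ hs.le (by linarith)]
      congr 1
      ring
    rw [e1]
    have e2 : ENNReal.ofReal (15 * (2 / 3 : ℝ) ^ n) ^ (d - s) =
        ENNReal.ofReal 15 ^ (d - s) * ((ENNReal.ofReal (2 / 3)) ^ (d - s)) ^ n := by
      rw [ENNReal.ofReal_mul (by norm_num), ENNReal.mul_rpow_of_nonneg _ _ (by linarith),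
        ENNReal.ofReal_pow (by norm_num), ← ENNReal.rpow_natCast, ← ENNReal.rpow_natCast,
        ← ENNReal.rpow_mul, ← ENNReal.rpow_mul, mul_comm (n : ℝ) (d - s)]
    rw [← e2]
    refine mul_le_mul' ?_ ?_
    · exact ENNReal.rpow_le_rpow (ediam_cov_left hBL hS hq hqq a b (i, n, j)) hs.le
    · exact ENNReal.rpow_le_rpow (ediam_cov_right hBL hS hB0 hq hqq a b (i, n, j)) (by linarith)
  · have : cov q₁ q₂ a b (i, n, j) = ∅ := by
      apply Set.eq_empty_of_forall_notMem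
      rintro x ⟨-, h1, -⟩
      exact h h1
    rw [this, Metric.ediam_empty, ENNReal.zero_rpow_of_pos (by linarith)]

theorem cov_sum (hBL : Stmt_BandLam) (hS : Stmt_Shrink) (hB0 : Stmt_Band0) {q₁ q₂ : ℝ}
    (hq : 0 ≤ q₁) (hqq : q₁ ≤ q₂) {s d : ℝ} (hs : 0 < s) (hsd : s < d) :
    ∃ C : ℝ≥0∞, C ≠ ⊤ ∧ ∀ a b : ℕ → ℝ,
      ∑' p, ediam (cov q₁ q₂ a b p) ^ d ≤ C * ∑' i, (ENNReal.ofReal (b i - a i)) ^ s := by
  have hr : (ENNReal.ofReal (2 / 3)) ^ (d - s) < 1 := by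
    apply ENNReal.rpow_lt_one
    · rw [← ENNReal.ofReal_one]
      exact (ENNReal.ofReal_lt_ofReal_iff (by norm_num)).2 (by norm_num)
    · linarith
  refine ⟨200 * (ENNReal.ofReal 15 ^ (d - s) * (1 - (ENNReal.ofReal (2 / 3)) ^ (d - s))⁻¹),
    ?_, ?_⟩
  · refine ENNReal.mul_ne_top (by norm_num) (ENNReal.mul_ne_top ?_ ?_)
    · exact ENNReal.rpow_ne_top_of_nonneg (by linarith) ENNReal.ofReal_ne_top
    · rw [ENNReal.inv_ne_top]
      exact (tsub_pos_of_lt hr).ne'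
  · intro a b
    rw [ENNReal.tsum_prod', ← ENNReal.tsum_mul_left]
    refine ENNReal.tsum_le_tsum fun i => ?_
    rw [ENNReal.tsum_prod']
    have h1 : ∀ n : ℕ, ∑' j, ediam (cov q₁ q₂ a b (i, n, j)) ^ d ≤
        (200 * (ENNReal.ofReal (b i - a i)) ^ s * ENNReal.ofReal 15 ^ (d - s)) *
          ((ENNReal.ofReal (2 / 3)) ^ (d - s)) ^ n := by
      intro n
      refine (ENNReal.tsum_le_tsum fun j =>
        cov_pow hBL hS hB0 hq hqq a b hs hsd i n j).trans ?_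
      rw [tsum_eq_sum (s := lab n q₁ (a i) (b i)) (fun j hj => by simp [hj])]
      rw [Finset.sum_congr rfl (fun j hj => if_pos hj), Finset.sum_const, nsmul_eq_mul]
      have hc : ((lab n q₁ (a i) (b i)).card : ℝ≥0∞) ≤ 200 := by
        exact_mod_cast lab_card n q₁ (a i) (b i)
      calc ((lab n q₁ (a i) (b i)).card : ℝ≥0∞) * ((ENNReal.ofReal (b i - a i)) ^ s *
            (ENNReal.ofReal 15 ^ (d - s) * ((ENNReal.ofReal (2 / 3)) ^ (d - s)) ^ n))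
          ≤ 200 * ((ENNReal.ofReal (b i - a i)) ^ s *
            (ENNReal.ofReal 15 ^ (d - s) * ((ENNReal.ofReal (2 / 3)) ^ (d - s)) ^ n)) := by
            gcongr
        _ = _ := by ring
    refine (ENNReal.tsum_le_tsum h1).trans ?_
    rw [ENNReal.tsum_mul_left, ENNReal.tsum_geometric]
    apply le_of_eq
    ring

theorem measure_zero (hC : Stmt_Count) (hBL : Stmt_BandLam) (hS : Stmt_Shrink)
    (hB0 : Stmt_Band0) (hN : Stmt_Nest) (hP : Stmt_Poly) {q₁ q₂ : ℝ} (hq : 0 ≤ q₁)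
    (hqq : q₁ ≤ q₂) {s d : ℝ} (hs : 0 < s) (hsd : s < d) (h : μH[s] (Kinf q₁) = 0) :
    μH[d] (Kinf q₂ \ {E : ℝ | ∃ n : ℕ, 1 ≤ n ∧ |X n E q₂| = 1}) = 0 := by
  obtain ⟨C, hCt, hC'⟩ := cov_sum hBL hS hB0 hq hqq hs hsd
  have hε : ∀ N : ℕ, (0 : ℝ≥0∞) < ((N : ℝ≥0∞) + 1)⁻¹ := by
    intro N
    rw [ENNReal.inv_pos]
    exact ENNReal.add_ne_top.2 ⟨ENNReal.natCast_ne_top N, ENNReal.one_ne_top⟩
  have hex := fun N : ℕ => exists_intervals hs h (hε N)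
  choose a b hab hsum using hex
  have htend : Tendsto (fun N : ℕ => ((N : ℝ≥0∞) + 1)⁻¹) atTop (𝓝 0) := by
    have h1 := (ENNReal.tendsto_inv_nat_nhds_zero).comp (tendsto_add_atTop_nat 1)
    refine h1.congr fun N => ?_
    simp
  have hr : Tendsto (fun N : ℕ => (((N : ℝ≥0∞) + 1)⁻¹) ^ (1 / s)) atTop (𝓝 0) := by
    have h1 := (ENNReal.continuous_rpow_const (y := 1 / s)).tendsto (0 : ℝ≥0∞)
    rw [ENNReal.zero_rpow_of_pos (by positivity)] at h1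
    exact h1.comp htend
  have key := hausdorffMeasure_le_liminf_tsum (X := ℝ) (β := ℕ) (ι := fun _ => ℕ × ℕ × ℕ) d
    (Kinf q₂ \ {E : ℝ | ∃ n : ℕ, 1 ≤ n ∧ |X n E q₂| = 1}) (l := atTop)
    (fun N : ℕ => (((N : ℝ≥0∞) + 1)⁻¹) ^ (1 / s)) hr (fun N p => cov q₁ q₂ (a N) (b N) p)
    (Eventually.of_forall fun N p => ?_) (Eventually.of_forall fun N => ?_)
  · refine le_antisymm (key.trans ?_) bot_le
    have hlim : Tendsto (fun N : ℕ => C * ((N : ℝ≥0∞) + 1)⁻¹) atTop (𝓝 0) := by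
      have := ENNReal.Tendsto.const_mul (a := C) htend (Or.inr hCt)
      rwa [mul_zero] at this
    rw [← hlim.liminf_eq]
    refine liminf_le_liminf (Eventually.of_forall fun N => ?_)
    exact (hC' (a N) (b N)).trans (mul_le_mul' le_rfl (hsum N))
  · have h1 := ediam_cov_left hBL hS hq hqq (a N) (b N) p
    refine h1.trans ?_
    have h2 : (ENNReal.ofReal (b N p.1 - a N p.1)) ^ s ≤ ((N : ℝ≥0∞) + 1)⁻¹ :=
      (ENNReal.le_tsum p.1).trans (hsum N)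
    have h3 := ENNReal.rpow_le_rpow h2 (show (0 : ℝ) ≤ 1 / s by positivity)
    rwa [← ENNReal.rpow_mul, mul_one_div_cancel hs.ne', ENNReal.rpow_one] at h3
  · rintro E ⟨hE, hE2⟩
    have hE3 : ∀ n : ℕ, 1 ≤ n → |X n E q₂| < 1 ∨ |X (n + 1) E q₂| < 1 := by
      intro n hn
      rcases hE n hn with h | h
      · exact Or.inl (lt_of_le_of_ne h fun h' => hE2 ⟨n, hn, h'⟩)
      · exact Or.inr (lt_of_le_of_ne h fun h' => hE2 ⟨n + 1, by omega, h'⟩)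
    obtain ⟨i, n, j, h1, h2, h3, h4⟩ :=
      exists_cover hC hBL hS hB0 hN hP hq hqq (hab N) hE3
    exact Set.mem_iUnion.2 ⟨(i, n, j), h1, h2, h3, h4⟩

theorem cover_proof (hC : Stmt_Count) (hBL : Stmt_BandLam) (hS : Stmt_Shrink)
    (hB0 : Stmt_Band0) (hN : Stmt_Nest) (hP : Stmt_Poly) : Stmt_Cover := by
  intro q₁ q₂ hq hqq
  by_contra hcon
  obtain ⟨d, hd1, hd2⟩ := ENNReal.lt_iff_exists_nnreal_btwn.1 (not_le.1 hcon)
  obtain ⟨s, hs1, hs2⟩ := ENNReal.lt_iff_exists_nnreal_btwn.1 hd1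
  have hs0 : (0 : ℝ) < s := by
    have h0 : (0 : ℝ≥0∞) < s := lt_of_le_of_lt bot_le hs1
    exact_mod_cast h0
  have hsd : (s : ℝ) < d := by exact_mod_cast hs2
  have h1 : μH[(s : ℝ)] (Kinf q₁) = 0 := hausdorffMeasure_of_dimH_lt hs1
  have h2 := measure_zero hC hBL hS hB0 hN hP hq hqq hs0 hsd h1
  have h3 : dimH (Kinf q₂ \ {E : ℝ | ∃ n : ℕ, 1 ≤ n ∧ |X n E q₂| = 1}) ≤ d :=
    dimH_le_of_hausdorffMeasure_ne_top (by rw [h2]; exact ENNReal.zero_ne_top)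
  have h4 : dimH {E : ℝ | ∃ n : ℕ, 1 ≤ n ∧ |X n E q₂| = 1} = 0 :=
    dimH_countable (exc_countable hP q₂)
  have h5 : Kinf q₂ ⊆ (Kinf q₂ \ {E : ℝ | ∃ n : ℕ, 1 ≤ n ∧ |X n E q₂| = 1}) ∪
      {E : ℝ | ∃ n : ℕ, 1 ≤ n ∧ |X n E q₂| = 1} := by
    intro x hx
    by_cases h : x ∈ {E : ℝ | ∃ n : ℕ, 1 ≤ n ∧ |X n E q₂| = 1}
    · exact Or.inr h
    · exact Or.inl ⟨hx, h⟩
  have h6 := dimH_mono h5
  rw [dimH_union, h4] at h6
  have h7 : dimH (Kinf q₂) ≤ d := h6.trans (max_le h3 bot_le)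
  exact absurd hd2 (not_lt.2 h7)

end Pool.Agent.FH
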