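import Pool.Agent.FH.Piv

/-! The sign of `U` at the critical points. -/

set_option autoImplicit false

namespace Pool.Agent.FH

theorem sign_of_q1 {c a Z h : ℝ} (hc : c ^ 2 < 1) (hh : 0 < h)
    (hq : (1 - c ^ 2) * a ^ 2 + (Z + h * a) ^ 2 ≤ 1) (hZ : 1 ≤ |Z|) : a * Z ≤ 0 := by
  have h1 : (Z + h * a) ^ 2 ≤ 1 := by
    have : 0 ≤ (1 - c ^ 2) * a ^ 2 := mul_nonneg (by linarith) (sq_nonneg _)
    linarith
  have h2 : |Z + h * a| ≤ 1 := abs_le_of_sq_le_sq (by linarith) (by norm_num)
  rw [abs_le] at h2
  rcases le_or_gt 0 Z with h3 | h3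
  · rw [abs_of_nonneg h3] at hZ
    have h4 : h * a ≤ 0 := by linarith [h2.2]
    have h5 : a ≤ 0 := nonpos_of_mul_nonpos_right h4 hh
    exact mul_nonpos_of_nonpos_of_nonneg h5 h3
  · rw [abs_of_neg h3] at hZ
    have h4 : 0 ≤ h * a := by linarith [h2.1]
    have h5 : 0 ≤ a := nonneg_of_mul_nonneg_right h4 hh
    exact mul_nonpos_of_nonneg_of_nonpos h5 h3.le

theorem Crit_proof : Stmt_Crit := by
  intro n hn E q hq hE1 hE2 hWn
  -- the last pivot
  by_cases hex : ∃ k, k < n ∧ |X (k + 1) E q| < 1 ∧ ∀ j, k + 1 < j → j ≤ n → 1 ≤ |X j E q|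
  · obtain ⟨k, hk, hk0, hk1⟩ := hex
    obtain ⟨hW, p, h0, h1, -, -⟩ := PInv_all k E q hq.le hk0
    rcases Nat.eq_or_lt_of_le (Nat.succ_le_of_lt hk) with hkn | hkn
    · exfalso; apply hW; rw [show k + 1 = n from hkn]; exact hWn
    · have hc2 := sq_lt_of_abs hk0
      have inv := X_inv k E q
      have hB := A_B k E q hW
      have hQ := Q_le hc2 h0 h1
      set ρ := U (k + 1) E q / W (k + 1) E q with hρ
      have hρ' : ρ * W (k + 1) E q = U (k + 1) E q := by rw [hρ]; field_simp
      set b : ℕ → ℝ := fun j => U j E q - ρ * W j E q with hb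
      have hrec : ∀ m, b (m + 3)
          = 2 * (b (m + 2) * X (m + 1) E q + X (m + 2) E q * b (m + 1)) - b m := by
        intro m
        simp only [hb]
        rw [W_rec, U_rec]; ring
      have hb0 : b (k + 1) = 0 := by simp only [hb]; rw [hρ']; ring
      have hA : ∀ j, A k j E q = -2 * b j := by intro j; rfl
      have hX2 : 1 ≤ |X (k + 2) E q| := hk1 (k + 2) (by omega) (by omega)
      have q11 := q1 hc2 (by linear_combination inv) hB hQ
      have s1 := sign_of_q1 hc2 (by linarith : 0 < q / 2) q11 hX2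
      rw [hA] at s1
      have hb1 : 0 ≤ b (k + 2) * X (k + 2) E q := by nlinarith
      have hbn : b n = U n E q := by simp only [hb]; rw [hWn]; ring
      rw [← hbn]
      rcases Nat.eq_or_lt_of_le (Nat.succ_le_of_lt hkn) with hkn2 | hkn2
      · rw [← show k + 2 = n from hkn2]; exact hb1
      · have hX3 : 1 ≤ |X (k + 3) E q| := hk1 (k + 3) (by omega) (by omega)
        have eA3 : A k (k + 3) E q = 2 * X (k + 1) E q * A k (k + 2) E q - A k k E q := by
          simp only [A]
          rw [W_rec, U_rec, ← hρ]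
          linear_combination (4 * X (k + 2) E q) * hρ'
        have q12 := q1 (c := X (k + 1) E q) (Z0 := X (k + 2) E q) (Z1 := X (k + 3) E q)
          (a0 := A k (k + 2) E q) (a1 := A k (k + 3) E q) (h := q / 2) hc2
          (by rw [X_rec]; linear_combination inv)
          (by rw [X_rec, eA3]; linear_combination hB)
          (by rw [eA3]; linarith [hQ])
        have s2 := sign_of_q1 hc2 (by linarith : 0 < q / 2) q12 hX3
        rw [hA] at s2
        have hb2 : 0 ≤ b (k + 3) * X (k + 3) E q := by nlinarith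
        have := grow_all b E q (k + 1) hrec hk0.le hX2 hX3 hb0 hb1 hb2 (n - (k + 2))
        have h4 := this.2.2.2.1
        rw [show k + 1 + (n - (k + 2)) + 1 = n by omega] at h4
        exact h4
  · -- no pivot
    have hall : ∀ j, 1 ≤ j → j ≤ n → 1 ≤ |X j E q| := by
      by_contra hcon
      push Not at hcon
      obtain ⟨j, hj1, hj2, hj3⟩ := hcon
      -- take the last such index
      have hne : ((Finset.range n).filter (fun k => |X (k + 1) E q| < 1)).Nonempty := by
        refine ⟨j - 1, ?_⟩
        rw [Finset.mem_filter, Finset.mem_range]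
        refine ⟨by omega, ?_⟩
        rw [show j - 1 + 1 = j by omega]; exact hj3
      set k := ((Finset.range n).filter (fun k => |X (k + 1) E q| < 1)).max' hne with hk
      have hkm := Finset.max'_mem _ hne
      rw [← hk, Finset.mem_filter, Finset.mem_range] at hkm
      apply hex
      refine ⟨k, hkm.1, hkm.2, ?_⟩
      intro i hi1 hi2
      by_contra hcon2
      push Not at hcon2
      have hmem : i - 1 ∈ (Finset.range n).filter (fun k => |X (k + 1) E q| < 1) := by
        rw [Finset.mem_filter, Finset.mem_range]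
        refine ⟨by omega, ?_⟩
        rw [show i - 1 + 1 = i by omega]; exact hcon2
      have := Finset.le_max' _ _ hmem
      rw [← hk] at this
      omega
    have hrec : ∀ m, U (m + 3) E q
        = 2 * (U (m + 2) E q * X (m + 1) E q + X (m + 2) E q * U (m + 1) E q) - U m E q :=
      fun m => U_rec m E q
    rcases Nat.lt_or_ge n 2 with h2 | h2
    · have : n = 1 := by omega
      subst this
      simp [U]
    · have hx1 := hall 1 le_rfl hn
      have hx2 := hall 2 (by norm_num) h2
      have e1 : X 1 E q = E / 2 := rfl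
      have e2 : X 2 E q = (E - q) / 2 := rfl
      have u1 : U 1 E q = 0 := rfl
      have u2 : U 2 E q = -(1 / 2) := rfl
      have hE3 : 2 ≤ E := by
        rw [e1] at hx1
        rcases le_abs.1 hx1 with h | h <;> linarith
      have hE4 : X 2 E q ≤ -1 := by
        rw [e2] at hx2 ⊢
        rcases le_abs.1 hx2 with h | h <;> linarith
      have hb2 : 0 ≤ U 2 E q * X 2 E q := by rw [u2]; nlinarith
      rcases Nat.eq_or_lt_of_le h2 with h3 | h3
      · rw [← h3]; exact hb2
      · have := grow_all (fun j => U j E q) E q 0 hrec (by simp [X]) hx1 hx2 rfl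
          (by simp [U]) hb2 (n - 1)
        have h4 := this.2.2.2.1
        rw [show 0 + (n - 1) + 1 = n by omega] at h4
        exact h4

end Pool.Agent.FH
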