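import Mathlib

/-!
Fibonacci Hamiltonian: definitions for MP_7b2354_mp.
`X n` is the half trace of the transfer matrix over the Fibonacci word of length `fib n`
(index shifted by one: `X n = x_{n-1}`), `W = dX/dE`, `U = dX/dq`.
-/

set_option autoImplicit false

namespace Pool.Agent.FH

/-- half traces -/
noncomputable def X : ℕ → ℝ → ℝ → ℝ
  | 0, _, _ => 1
  | 1, E, _ => E / 2
  | 2, E, q => (E - q) / 2
  | (n + 3), E, q => 2 * X (n + 2) E q * X (n + 1) E q - X n E q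

/-- derivative of `X n` in `E` -/
noncomputable def W : ℕ → ℝ → ℝ → ℝ
  | 0, _, _ => 0
  | 1, _, _ => 1 / 2
  | 2, _, _ => 1 / 2
  | (n + 3), E, q =>
      2 * (W (n + 2) E q * X (n + 1) E q + X (n + 2) E q * W (n + 1) E q) - W n E q

/-- derivative of `X n` in `q` -/
noncomputable def U : ℕ → ℝ → ℝ → ℝ
  | 0, _, _ => 0
  | 1, _, _ => 0
  | 2, _, _ => -(1 / 2)
  | (n + 3), E, q =>
      2 * (U (n + 2) E q * X (n + 1) E q + X (n + 2) E q * U (n + 1) E q) - U n E q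

/-- the potential of the Fibonacci Hamiltonian -/
noncomputable def pot (q : ℝ) (n : ℤ) : ℝ :=
  if 1 - (Real.sqrt 5 - 1) / 2 ≤ Int.fract ((n : ℝ) * ((Real.sqrt 5 - 1) / 2)) then q else 0

/-- the spectrum, as in the frozen statement -/
def Spec (q : ℝ) : Set ℝ :=
  {E : ℝ | ∀ ε : ℝ, ε > 0 → ∃ N : ℕ, ∃ ψ : ℤ → ℝ,
    (∀ n : ℤ, n ∉ Finset.Icc (-(N : ℤ)) (N : ℤ) → ψ n = 0) ∧
    (∑ n ∈ Finset.Icc (-(N : ℤ) - 1) ((N : ℤ) + 1),
        (ψ (n + 1) + ψ (n - 1)
          + (if 1 - (Real.sqrt 5 - 1) / 2 ≤ Int.fract ((n : ℝ) * ((Real.sqrt 5 - 1) / 2))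
              then q else 0) * ψ n
          - E * ψ n) ^ 2
      < ε ^ 2 * ∑ n ∈ Finset.Icc (-(N : ℤ)) (N : ℤ), ψ n ^ 2)}

/-- the energies that are in all the covers `σ_n ∪ σ_{n+1}` -/
def Kinf (q : ℝ) : Set ℝ :=
  {E : ℝ | ∀ n : ℕ, 1 ≤ n → |X n E q| ≤ 1 ∨ |X (n + 1) E q| ≤ 1}

/-- number of solutions of `X n = cos κ` below `E` -/
noncomputable def cnt (n : ℕ) (κ q E : ℝ) : ℕ :=
  {E' : ℝ | X n E' q = Real.cos κ ∧ E' < E}.ncard

/-- number of zeros of `X n` below `E` -/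
noncomputable def Z (n : ℕ) (q E : ℝ) : ℕ :=
  {E' : ℝ | X n E' q = 0 ∧ E' < E}.ncard

/-- the `j`-th open band of `X n` (numbering from `0`): `|X n| < 1` and exactly `j` lower points
have the same value of `X n` -/
def Band (n j : ℕ) (q : ℝ) : Set ℝ :=
  {E : ℝ | |X n E q| < 1 ∧ {E' : ℝ | X n E' q = X n E q ∧ E' < E}.ncard = j}

open Classical in
/-- the `j`-th solution of `X n = cos κ` (numbering from `0`) -/
noncomputable def lam (n j : ℕ) (κ q : ℝ) : ℝ :=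
  if h : ∃ E : ℝ, X n E q = Real.cos κ ∧ cnt n κ q E = j then h.choose else 0

/-- one-step transfer matrix -/
def T (E v : ℝ) : Matrix (Fin 2) (Fin 2) ℝ := !![E - v, -1; 1, 0]

/-- transfer matrix over a word of potentials (the first letter acts first) -/
def TM (E : ℝ) : List ℝ → Matrix (Fin 2) (Fin 2) ℝ
  | [] => 1
  | (v :: l) => TM E l * T E v

/-- Fibonacci words: `word n` has length `fib n`; `word 1 = [0]`, `word 2 = [q]`,
`word (n+3) = word (n+2) ++ word (n+1)` -/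
def word (q : ℝ) : ℕ → List ℝ
  | 0 => []
  | 1 => [0]
  | 2 => [q]
  | (n + 3) => word q (n + 2) ++ word q (n + 1)

/-- number of solutions of `tr TM = 2 cos κ` below `E` -/
noncomputable def cntW (w : List ℝ) (κ E : ℝ) : ℕ :=
  {E' : ℝ | (TM E' w).trace = 2 * Real.cos κ ∧ E' < E}.ncard

end Pool.Agent.FH
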