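import Pool.Agent.FH.Stmts

/-! FIBW: the Fibonacci potential, its periodicity and its recurrence. -/

set_option autoImplicit false

namespace Pool.Agent.FH

/-- the rotation number -/
noncomputable def al : ℝ := (Real.sqrt 5 - 1) / 2

theorem al_sq : al ^ 2 = 1 - al := by
  have h : Real.sqrt 5 ^ 2 = 5 := Real.sq_sqrt (by norm_num)
  unfold al
  nlinarith

theorem al_pos : 0 < al := by
  have h : (1 : ℝ) < Real.sqrt 5 := by
    rw [show (1 : ℝ) = Real.sqrt 1 by simp]
    exact Real.sqrt_lt_sqrt (by norm_num) (by norm_num)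
  unfold al
  linarith

theorem al_lt : al < 1 := by
  have h1 := al_sq
  have h2 := al_pos
  nlinarith

theorem al_gt : 1 / 2 < al := by
  have h1 := al_sq
  have h2 := al_pos
  nlinarith

theorem fib_al (n : ℕ) : (Nat.fib (n + 1) : ℝ) * al = Nat.fib n - (-al) ^ (n + 1) := by
  induction n using Nat.strong_induction_on with
  | _ n ih =>
    match n, ih with
    | 0, _ => simp
    | 1, _ =>
      have := al_sq
      simp [Nat.fib]
      linarith
    | (k + 2), ih =>
      have h1 := ih k (by omega)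
      have h2 := ih (k + 1) (by omega)
      have h3 := al_sq
      have e1 : Nat.fib (k + 2 + 1) = Nat.fib (k + 1) + Nat.fib (k + 2) := Nat.fib_add_two
      have e2 : Nat.fib (k + 2) = Nat.fib k + Nat.fib (k + 1) := Nat.fib_add_two
      have e3 : (-al) ^ (k + 2 + 1) = (-al) ^ (k + 1) + (-al) ^ (k + 1 + 1) := by
        have : (-al) ^ (k + 2 + 1) = (-al) ^ (k + 1) * al ^ 2 := by ring
        rw [this, h3]
        ring
      rw [e1, e3]
      push_cast
      rw [add_mul, h1, show k + 2 = k + 1 + 1 from rfl, h2]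
      rw [show Nat.fib (k + 1 + 1) = Nat.fib k + Nat.fib (k + 1) from e2]
      push_cast
      ring

theorem floor_step (x : ℝ) :
    (1 - al ≤ Int.fract x) ↔ ⌊x + al⌋ = ⌊x⌋ + 1 := by
  have h1 := al_pos
  have h2 := al_lt
  have h3 := Int.fract_lt_one x
  have h4 : Int.fract x = x - ⌊x⌋ := rfl
  rw [Int.floor_eq_iff]
  push_cast
  constructor
  · intro h
    constructor <;> linarith
  · rintro ⟨h5, -⟩
    linarith

theorem pot_eq (q : ℝ) (n : ℤ) :
    pot q n = if ⌊((n + 1 : ℤ) : ℝ) * al⌋ = ⌊(n : ℝ) * al⌋ + 1 then q else 0 := by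
  have h := floor_step ((n : ℝ) * al)
  have e : ((n + 1 : ℤ) : ℝ) * al = (n : ℝ) * al + al := by push_cast; ring
  rw [e]
  unfold pot
  change (if 1 - al ≤ Int.fract ((n : ℝ) * al) then q else 0) = _
  simp only [h]

theorem pot_shift (q : ℝ) (i F G : ℤ)
    (h0 : ⌊((i + F : ℤ) : ℝ) * al⌋ = ⌊(i : ℝ) * al⌋ + G)
    (h1 : ⌊((i + 1 + F : ℤ) : ℝ) * al⌋ = ⌊((i + 1 : ℤ) : ℝ) * al⌋ + G) :
    pot q (i + F) = pot q i := by
  rw [pot_eq, pot_eq, h0, show i + F + 1 = i + 1 + F by ring, h1]
  by_cases hc : ⌊((i + 1 : ℤ) : ℝ) * al⌋ = ⌊(i : ℝ) * al⌋ + 1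
  · rw [if_pos hc, if_pos (by omega)]
  · rw [if_neg hc, if_neg (by omega)]

theorem lattice (n : ℕ) : ∀ m k : ℤ, ∃ a b : ℤ,
    m = a * Nat.fib (n + 1) + b * Nat.fib (n + 2) ∧ k = a * Nat.fib n + b * Nat.fib (n + 1) := by
  induction n with
  | zero =>
    intro m k
    exact ⟨m - k, k, by simp, by simp⟩
  | succ n ih =>
    intro m k
    obtain ⟨a, b, h1, h2⟩ := ih m k
    refine ⟨b - a, a, ?_, ?_⟩
    · have e : Nat.fib (n + 1 + 2) = Nat.fib (n + 1) + Nat.fib (n + 1 + 1) := Nat.fib_add_two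
      rw [h1, e]
      push_cast
      ring
    · have e : Nat.fib (n + 2) = Nat.fib n + Nat.fib (n + 1) := Nat.fib_add_two
      rw [h2, show n + 1 + 1 = n + 2 from rfl, e]
      push_cast
      ring

theorem key (n : ℕ) (m k : ℤ) (hm : 1 ≤ m) (hm' : m < Nat.fib (n + 2)) :
    ∃ t : ℝ, (m : ℝ) * al - k = (-(-al) ^ (n + 1)) * t ∧ (t ≤ 0 → t < -1) := by
  obtain ⟨a, b, h1, h2⟩ := lattice n m k
  refine ⟨a - b * al, ?_, ?_⟩
  · have e1 := fib_al n
    have e2 := fib_al (n + 1)
    rw [h1, h2]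
    push_cast
    rw [show n + 2 = n + 1 + 1 from rfl]
    have : ((a : ℝ) * (Nat.fib (n + 1) : ℝ) + b * (Nat.fib (n + 1 + 1) : ℝ)) * al
        = a * ((Nat.fib (n + 1) : ℝ) * al) + b * ((Nat.fib (n + 1 + 1) : ℝ) * al) := by ring
    rw [this, e1, e2]
    ring
  · intro ht
    by_contra hcon
    push Not at hcon
    have hp := al_pos
    have hl := al_lt
    have hF1 : (0 : ℤ) < Nat.fib (n + 1) := by exact_mod_cast Nat.fib_pos.mpr (by omega)
    have hF2 : (0 : ℤ) < Nat.fib (n + 2) := by exact_mod_cast Nat.fib_pos.mpr (by omega)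
    rcases le_or_gt b 0 with hb | hb
    · have hbr : (b : ℝ) ≤ 0 := by exact_mod_cast hb
      have ha : (a : ℝ) ≤ 0 := by nlinarith
      have ha' : a ≤ 0 := by exact_mod_cast ha
      nlinarith
    · have hbr : (1 : ℝ) ≤ b := by exact_mod_cast hb
      have ha : (-1 : ℝ) < a := by nlinarith
      have ha' : (-1 : ℤ) < a := by exact_mod_cast ha
      have ha'' : 0 ≤ a := by omega
      nlinarith

theorem floor_shift (n : ℕ) (m : ℤ) (hm : 1 ≤ m) (hm' : m < Nat.fib (n + 2)) :
    ⌊((m + (Nat.fib (n + 1) : ℤ) : ℤ) : ℝ) * al⌋ = ⌊(m : ℝ) * al⌋ + Nat.fib n := by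
  have e := fib_al n
  have hp := al_pos
  have hl := al_lt
  have hd : 0 < al ^ (n + 1) := by positivity
  have hd1 : al ^ (n + 1) ≤ 1 := pow_le_one₀ hp.le hl.le
  have hfl := Int.floor_le ((m : ℝ) * al)
  have hfl' := Int.lt_floor_add_one ((m : ℝ) * al)
  rw [Int.floor_eq_iff]
  push_cast
  rw [add_mul, e]
  rcases Nat.even_or_odd (n + 1) with hev | hod
  · rw [hev.neg_pow]
    obtain ⟨t, h1, h2⟩ := key n m ⌊(m : ℝ) * al⌋ hm hm'
    rw [hev.neg_pow] at h1
    have ht : t ≤ 0 := by
      by_contra hc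
      push Not at hc
      have : 0 < al ^ (n + 1) * t := mul_pos hd hc
      nlinarith
    have ht' := h2 ht
    have : al ^ (n + 1) < -(al ^ (n + 1)) * t := by nlinarith
    constructor
    · linarith
    · linarith
  · rw [hod.neg_pow]
    obtain ⟨t, h1, h2⟩ := key n m (⌊(m : ℝ) * al⌋ + 1) hm hm'
    rw [hod.neg_pow] at h1
    push_cast at h1
    rw [neg_neg] at h1
    have ht : t ≤ 0 := by
      by_contra hc
      push Not at hc
      have : 0 < al ^ (n + 1) * t := mul_pos hd hc
      linarith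
    have ht' := h2 ht
    have : al ^ (n + 1) * t < -(al ^ (n + 1)) := by nlinarith
    constructor
    · linarith
    · linarith

theorem fibPer_proof : Stmt_FibPer := by
  intro n hn q i hi hi'
  obtain ⟨k, rfl⟩ : ∃ k, n = k + 1 := ⟨n - 1, by omega⟩
  apply pot_shift q (i : ℤ) (Nat.fib (k + 1)) (Nat.fib k)
  · exact floor_shift k i (by exact_mod_cast hi)
      (by rw [show k + 2 = k + 1 + 1 from rfl]; omega)
  · exact floor_shift k ((i : ℤ) + 1) (by omega)
      (by rw [show k + 2 = k + 1 + 1 from rfl]; omega)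

theorem fibWord' : ∀ n : ℕ, 2 ≤ n → ∀ q : ℝ,
    word q n = (List.range (Nat.fib n)).map (fun i : ℕ => pot q ((i : ℤ) + 1)) := by
  have hp := al_pos
  have hl := al_lt
  have hg := al_gt
  have hsq := al_sq
  have f0 : ⌊((0 : ℤ) : ℝ) * al⌋ = 0 := by simp
  have f1 : ⌊((1 : ℤ) : ℝ) * al⌋ = 0 := by
    rw [Int.floor_eq_iff]; push_cast; constructor <;> linarith
  have f2 : ⌊((2 : ℤ) : ℝ) * al⌋ = 1 := by
    rw [Int.floor_eq_iff]; push_cast; constructor <;> linarith
  have f3 : ⌊((3 : ℤ) : ℝ) * al⌋ = 1 := by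
    rw [Int.floor_eq_iff]; push_cast; constructor
    · linarith
    · nlinarith
  have p1 : ∀ q : ℝ, pot q 1 = q := by
    intro q
    rw [pot_eq, show (1 : ℤ) + 1 = 2 from rfl, f2, f1]
    simp
  have p2 : ∀ q : ℝ, pot q 2 = 0 := by
    intro q
    rw [pot_eq, show (2 : ℤ) + 1 = 3 from rfl, f3, f2]
    simp
  intro n
  induction n using Nat.strong_induction_on with
  | _ n ih =>
    intro hn q
    match n, hn, ih with
    | 2, _, _ =>
      simp [word, p1]
    | 3, _, _ =>
      have : Nat.fib 3 = 2 := by decide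
      rw [this]
      simp [word, List.range_succ, p1, p2]
    | (k + 4), _, ih =>
      have h1 := ih (k + 3) (by omega) (by omega) q
      have h2 := ih (k + 2) (by omega) (by omega) q
      have e : Nat.fib (k + 4) = Nat.fib (k + 3) + Nat.fib (k + 2) := by
        have h : Nat.fib (k + 4) = Nat.fib (k + 2) + Nat.fib (k + 3) := Nat.fib_add_two
        omega
      rw [show word q (k + 4) = word q (k + 3) ++ word q (k + 2) from rfl, h1, h2, e,
        List.range_add, List.map_append, List.map_map]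
      congr 1
      apply List.map_congr_left
      intro i hi
      rw [List.mem_range] at hi
      have h3 := fibPer_proof (k + 3) (by omega) q (i + 1) (by omega) (by
        have : 2 ≤ Nat.fib (k + 3) := by
          calc 2 = Nat.fib 3 := by decide
            _ ≤ Nat.fib (k + 3) := Nat.fib_mono (by omega)
        rw [show k + 3 + 1 = k + 4 from rfl, e]
        omega)
      simp only [Function.comp]
      push_cast at h3 ⊢
      rw [← h3]
      congr 1
      ring

theorem fibWord_proof : Stmt_FibWord := by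
  intro n hn q
  rw [fibWord' n hn q]
  have h : ∀ l : List ℕ, (do let a ← l; pure ((a : ℕ) : ℤ)) = l.map (fun i : ℕ => (i : ℤ)) := by
    intro l
    induction l with
    | nil => rfl
    | cons a l ih =>
      simp only [List.pure_def, List.bind_eq_flatMap] at ih ⊢
      rw [List.flatMap_cons, ih]
      rfl
  rw [h, List.map_map]
  rfl

theorem fibRec_proof : Stmt_FibRec := by
  intro N m
  have hp := al_pos
  have hl := al_lt
  -- choose n large
  have htend : Filter.Tendsto (fun n : ℕ => al ^ n) Filter.atTop (nhds 0) :=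
    tendsto_pow_atTop_nhds_zero_of_lt_one hp.le hl
  have hev1 : ∀ᶠ n : ℕ in Filter.atTop, ∀ x ∈ Finset.Icc (-(N : ℤ)) (N + 1),
      al ^ n < ⌊(x : ℝ) * al⌋ + 1 - (x : ℝ) * al := by
    rw [Filter.eventually_all_finset]
    intro x _
    have hpos : 0 < (⌊(x : ℝ) * al⌋ : ℝ) + 1 - (x : ℝ) * al := by
      have := Int.lt_floor_add_one ((x : ℝ) * al)
      linarith
    exact htend.eventually (gt_mem_nhds hpos)
  rw [Filter.eventually_atTop] at hev1
  obtain ⟨n₀, hn₀⟩ := hev1
  -- the index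
  set n : ℕ := 2 * (n₀ + m + N + 5) + 1 with hn
  refine ⟨n, by omega, ?_, ?_⟩
  · have h5 : ∀ k : ℕ, 5 ≤ k → k ≤ Nat.fib k := fun k hk => Nat.le_fib_self hk
    have := h5 n (by omega)
    omega
  · intro q i hi
    rw [abs_le] at hi
    have hodd : Odd n := ⟨_, hn⟩
    have hfs : ∀ x ∈ Finset.Icc (-(N : ℤ)) (N + 1),
        ⌊((x + (Nat.fib n : ℤ) : ℤ) : ℝ) * al⌋ = ⌊(x : ℝ) * al⌋ + Nat.fib (n - 1) := by
      intro x hx
      have h1 := hn₀ n (by omega) x hx
      obtain ⟨k, hk⟩ : ∃ k, n = k + 1 := ⟨n - 1, by omega⟩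
      have e := fib_al k
      rw [← hk, hodd.neg_pow] at e
      rw [Int.floor_eq_iff]
      push_cast
      rw [add_mul, e, show n - 1 = k by omega]
      have hd : 0 < al ^ n := by positivity
      have hfl := Int.floor_le ((x : ℝ) * al)
      constructor
      · linarith
      · linarith
    apply pot_shift q i (Nat.fib n) (Nat.fib (n - 1))
    · exact hfs i (Finset.mem_Icc.mpr ⟨hi.1, by omega⟩)
    · exact hfs (i + 1) (Finset.mem_Icc.mpr ⟨by omega, by omega⟩)

end Pool.Agent.FH
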