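import Pool.Agent.FH.HermB

/-!
FH, module HERM: comparison of the counting functions.
-/

set_option autoImplicit false

namespace Pool.Agent.FH.Herm

open Matrix Complex

theorem neg_eq_countP {n : Type} [Fintype n] [DecidableEq n] {A : Matrix n n ℂ}
    (hA : A.IsHermitian) (E : ℝ) :
    neg hA E = Multiset.countP (fun z : ℂ => z.re < E) A.charpoly.roots := by
  rw [hA.roots_charpoly_eq_eigenvalues, Multiset.countP_map]
  unfold neg
  rw [Finset.card_def, Finset.filter_val]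
  congr 1

theorem neg_blocks {m n : Type} [Fintype m] [DecidableEq m] [Fintype n] [DecidableEq n]
    {A : Matrix m m ℂ} {B : Matrix n n ℂ} (hA : A.IsHermitian) (hB : B.IsHermitian)
    (hAB : (Matrix.fromBlocks A 0 0 B).IsHermitian) (E : ℝ) :
    neg hAB E = neg hA E + neg hB E := by
  rw [neg_eq_countP, neg_eq_countP, neg_eq_countP, Matrix.charpoly_fromBlocks_zero₁₂,
    Polynomial.roots_mul, Multiset.countP_add]
  exact mul_ne_zero (Matrix.charpoly_monic A).ne_zero (Matrix.charpoly_monic B).ne_zero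

theorem form_congr {ι κ : Type} [Fintype ι] [Fintype κ] (A : Matrix ι ι ℂ) (B : Matrix κ κ ℂ)
    (e : κ ≃ ι) (x : κ → ℂ)
    (h : ∀ a b, star (x a) * (A (e a) (e b) * x b) = star (x a) * (B a b * x b)) :
    star (x ∘ e.symm) ⬝ᵥ (A *ᵥ (x ∘ e.symm)) = star x ⬝ᵥ (B *ᵥ x) := by
  simp only [dotProduct, Matrix.mulVec, Finset.mul_sum]
  rw [← Equiv.sum_comp e]
  refine Finset.sum_congr rfl (fun a _ => ?_)
  rw [← Equiv.sum_comp e]
  refine Finset.sum_congr rfl (fun b _ => ?_)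
  have := h a b
  simp only [Pi.star_apply, Function.comp_apply, Equiv.symm_apply_apply]
  exact this

theorem norm_congr {ι κ : Type} [Fintype ι] [Fintype κ] (e : κ ≃ ι) (x : κ → ℂ) :
    star (x ∘ e.symm) ⬝ᵥ (x ∘ e.symm) = star x ⬝ᵥ x := by
  simp only [dotProduct]
  rw [← Equiv.sum_comp e]
  refine Finset.sum_congr rfl (fun a _ => ?_)
  simp

/-- entries, as a function of natural numbers -/
noncomputable def ent (n : ℕ) (v : ℕ → ℝ) (κ : ℝ) (i j : ℕ) : ℂ :=
  (if i = j then ((v i : ℝ) : ℂ) else 0)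
    + (if j = i + 1 then 1 else 0) + (if i = j + 1 then 1 else 0)
    + (if i + 1 = n ∧ j = 0 then Complex.exp (κ * I) else 0)
    + (if j + 1 = n ∧ i = 0 then Complex.exp (-(κ * I)) else 0)

theorem Hm_apply (n : ℕ) (v : ℕ → ℝ) (κ : ℝ) (i j : Fin n) :
    Hm n v κ i j = ent n v κ i j := rfl

theorem ent_ne (n : ℕ) (v : ℕ → ℝ) (κ : ℝ) (i j : ℕ) (hi : i ≠ 0) (hj : j ≠ 0) :
    ent n v κ i j = (if i = j then ((v i : ℝ) : ℂ) else 0)
    + (if j = i + 1 then 1 else 0) + (if i = j + 1 then 1 else 0) := by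
  unfold ent
  rw [if_neg (show ¬ (i + 1 = n ∧ j = 0) by tauto), if_neg (show ¬ (j + 1 = n ∧ i = 0) by tauto)]
  ring

/-- entries of the cyclic matrix of a concatenation -/
theorem entry_add (n1 n2 : ℕ) (v v1 v2 : ℕ → ℝ) (κ : ℝ) (hv1 : ∀ i < n1, v i = v1 i)
    (hv2 : ∀ i < n2, v (n1 + i) = v2 i) (h1 : 0 < n1) (h2 : 0 < n2)
    (x : Fin n1 ⊕ Fin n2 → ℂ) (x1 : x (Sum.inl ⟨0, h1⟩) = 0) (x2 : x (Sum.inr ⟨0, h2⟩) = 0)
    (a b : Fin n1 ⊕ Fin n2) :
    star (x a) * (Hm (n1 + n2) v κ (finSumFinEquiv a) (finSumFinEquiv b) * x b)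
      = star (x a) * (Matrix.fromBlocks (Hm n1 v1 κ) 0 0 (Hm n2 v2 κ) a b * x b) := by
  rcases a with i | i <;> rcases b with j | j
  · have hi := i.2
    have hj := j.2
    by_cases hi0 : (i : ℕ) = 0
    · have : x (Sum.inl i) = 0 := by rw [← x1]; congr 2; exact Fin.ext hi0
      simp [this]
    by_cases hj0 : (j : ℕ) = 0
    · have : x (Sum.inl j) = 0 := by rw [← x1]; congr 2; exact Fin.ext hj0
      simp [this]
    congr 2
    rw [Matrix.fromBlocks_apply₁₁, Hm_apply, Hm_apply, finSumFinEquiv_apply_left,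
      finSumFinEquiv_apply_left, Fin.val_castAdd, Fin.val_castAdd, ent_ne _ _ _ _ _ hi0 hj0,
      ent_ne _ _ _ _ _ hi0 hj0, hv1 _ hi]
  · have hi := i.2
    have hj := j.2
    by_cases hi0 : (i : ℕ) = 0
    · have : x (Sum.inl i) = 0 := by rw [← x1]; congr 2; exact Fin.ext hi0
      simp [this]
    by_cases hj0 : (j : ℕ) = 0
    · have : x (Sum.inr j) = 0 := by rw [← x2]; congr 2; exact Fin.ext hj0
      simp [this]
    congr 2
    rw [Matrix.fromBlocks_apply₁₂, Hm_apply, finSumFinEquiv_apply_left,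
      finSumFinEquiv_apply_right, Fin.val_castAdd, Fin.val_natAdd,
      ent_ne _ _ _ _ _ hi0 (by omega), if_neg (by omega), if_neg (by omega), if_neg (by omega)]
    simp
  · have hi := i.2
    have hj := j.2
    by_cases hi0 : (i : ℕ) = 0
    · have : x (Sum.inr i) = 0 := by rw [← x2]; congr 2; exact Fin.ext hi0
      simp [this]
    by_cases hj0 : (j : ℕ) = 0
    · have : x (Sum.inl j) = 0 := by rw [← x1]; congr 2; exact Fin.ext hj0
      simp [this]
    congr 2
    rw [Matrix.fromBlocks_apply₂₁, Hm_apply, finSumFinEquiv_apply_left,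
      finSumFinEquiv_apply_right, Fin.val_castAdd, Fin.val_natAdd,
      ent_ne _ _ _ _ _ (by omega) hj0, if_neg (by omega), if_neg (by omega), if_neg (by omega)]
    simp
  · have hi := i.2
    have hj := j.2
    by_cases hi0 : (i : ℕ) = 0
    · have : x (Sum.inr i) = 0 := by rw [← x2]; congr 2; exact Fin.ext hi0
      simp [this]
    by_cases hj0 : (j : ℕ) = 0
    · have : x (Sum.inr j) = 0 := by rw [← x2]; congr 2; exact Fin.ext hj0
      simp [this]
    congr 2
    rw [Matrix.fromBlocks_apply₂₂, Hm_apply, Hm_apply, finSumFinEquiv_apply_right,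
      finSumFinEquiv_apply_right, Fin.val_natAdd, Fin.val_natAdd,
      ent_ne _ _ _ _ _ hi0 hj0, ent_ne _ _ _ _ _ (by omega) (by omega), hv2 _ hi]
    congr 1
    · congr 1
      · exact if_congr (by omega) rfl rfl
      · exact if_congr (by omega) rfl rfl
    · exact if_congr (by omega) rfl rfl

/-- the kernel of a linear map to `ℂ^r` -/
theorem finrank_ker_le {ι : Type} [Fintype ι] {r : ℕ} (g : (ι → ℂ) →ₗ[ℂ] (Fin r → ℂ)) :
    Fintype.card ι ≤ Module.finrank ℂ (LinearMap.ker g) + r := by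
  have h1 := LinearMap.finrank_range_add_finrank_ker g
  have h2 : Module.finrank ℂ (LinearMap.range g) ≤ r := by
    have := Submodule.finrank_le (LinearMap.range g)
    simpa using this
  have h3 : Module.finrank ℂ (ι → ℂ) = Fintype.card ι := by simp
  omega

theorem hm_add (hAbs : Stmt_HermAbs) (n1 n2 : ℕ) (v v1 v2 : ℕ → ℝ) (κ E : ℝ)
    (hv1 : ∀ i < n1, v i = v1 i) (hv2 : ∀ i < n2, v (n1 + i) = v2 i)
    (h1 : 0 < n1) (h2 : 0 < n2) :
    neg (Hm_herm (n1 + n2) v κ) E ≤ neg (Hm_herm n1 v1 κ) E + neg (Hm_herm n2 v2 κ) E + 2 ∧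
    neg (Hm_herm n1 v1 κ) E + neg (Hm_herm n2 v2 κ) E ≤ neg (Hm_herm (n1 + n2) v κ) E + 2 := by
  have hAB : (Matrix.fromBlocks (Hm n1 v1 κ) 0 0 (Hm n2 v2 κ)).IsHermitian :=
    Matrix.IsHermitian.fromBlocks (Hm_herm n1 v1 κ) (by simp) (Hm_herm n2 v2 κ)
  rw [← neg_blocks (Hm_herm n1 v1 κ) (Hm_herm n2 v2 κ) hAB E]
  constructor
  · let g : (Fin (n1 + n2) → ℂ) →ₗ[ℂ] (Fin 2 → ℂ) :=
      LinearMap.pi ![LinearMap.proj (finSumFinEquiv (Sum.inl ⟨0, h1⟩)),
        LinearMap.proj (finSumFinEquiv (Sum.inr ⟨0, h2⟩))]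
    let f : LinearMap.ker g →ₗ[ℂ] (Fin n1 ⊕ Fin n2 → ℂ) :=
      (LinearMap.funLeft ℂ ℂ finSumFinEquiv) ∘ₗ (LinearMap.ker g).subtype
    refine hAbs (Fin (n1 + n2)) (Fin n1 ⊕ Fin n2) _ _ (Hm_herm (n1 + n2) v κ) hAB E E
      (LinearMap.ker g) f 2 (finrank_ker_le g) ?_ ?_
    · intro x y hxy
      apply Subtype.ext
      funext i
      have := congrFun hxy (finSumFinEquiv.symm i)
      simpa [f, LinearMap.funLeft_apply] using this
    · intro x
      have hx := LinearMap.mem_ker.1 x.2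
      have hx1 : f x (Sum.inl ⟨0, h1⟩) = 0 := congrFun hx 0
      have hx2 : f x (Sum.inr ⟨0, h2⟩) = 0 := congrFun hx 1
      have hxx : (x : Fin (n1 + n2) → ℂ) = f x ∘ finSumFinEquiv.symm := by
        funext i
        simp [f, LinearMap.funLeft_apply]
      have e1 := form_congr (Hm (n1 + n2) v κ) _ finSumFinEquiv (f x)
        (entry_add n1 n2 v v1 v2 κ hv1 hv2 h1 h2 (f x) hx1 hx2)
      have e2 := norm_congr finSumFinEquiv (f x)
      rw [← hxx] at e1 e2
      rw [e1, e2]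
  · let g : (Fin n1 ⊕ Fin n2 → ℂ) →ₗ[ℂ] (Fin 2 → ℂ) :=
      LinearMap.pi ![LinearMap.proj (Sum.inl ⟨0, h1⟩), LinearMap.proj (Sum.inr ⟨0, h2⟩)]
    let f : LinearMap.ker g →ₗ[ℂ] (Fin (n1 + n2) → ℂ) :=
      (LinearMap.funLeft ℂ ℂ finSumFinEquiv.symm) ∘ₗ (LinearMap.ker g).subtype
    refine hAbs (Fin n1 ⊕ Fin n2) (Fin (n1 + n2)) _ _ hAB (Hm_herm (n1 + n2) v κ) E E
      (LinearMap.ker g) f 2 (finrank_ker_le g) ?_ ?_
    · intro x y hxy
      apply Subtype.ext
      funext i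
      have := congrFun hxy (finSumFinEquiv i)
      simpa [f, LinearMap.funLeft_apply] using this
    · intro x
      have hx := LinearMap.mem_ker.1 x.2
      have hx1 : (x : Fin n1 ⊕ Fin n2 → ℂ) (Sum.inl ⟨0, h1⟩) = 0 := by simpa [g] using congrFun hx 0
      have hx2 : (x : Fin n1 ⊕ Fin n2 → ℂ) (Sum.inr ⟨0, h2⟩) = 0 := by simpa [g] using congrFun hx 1
      have hxx : f x = (x : Fin n1 ⊕ Fin n2 → ℂ) ∘ finSumFinEquiv.symm := rfl
      have e1 := form_congr (Hm (n1 + n2) v κ) _ finSumFinEquiv (x : Fin n1 ⊕ Fin n2 → ℂ)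
        (entry_add n1 n2 v v1 v2 κ hv1 hv2 h1 h2 x hx1 hx2)
      have e2 := norm_congr finSumFinEquiv (x : Fin n1 ⊕ Fin n2 → ℂ)
      rw [hxx, e1, e2]

theorem hm_phase (hAbs : Stmt_HermAbs) (n : ℕ) (v : ℕ → ℝ) (κ κ' E : ℝ) (hn : 0 < n) :
    neg (Hm_herm n v κ) E ≤ neg (Hm_herm n v κ') E + 2 := by
  let g : (Fin n → ℂ) →ₗ[ℂ] (Fin 1 → ℂ) := LinearMap.pi ![LinearMap.proj ⟨0, hn⟩]
  have key : neg (Hm_herm n v κ) E ≤ neg (Hm_herm n v κ') E + 1 := by
    refine hAbs (Fin n) (Fin n) _ _ (Hm_herm n v κ) (Hm_herm n v κ') E E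
      (LinearMap.ker g) (LinearMap.ker g).subtype 1 (finrank_ker_le g)
      (Submodule.injective_subtype _) ?_
    intro x
    have hx := LinearMap.mem_ker.1 x.2
    have hx1 : (x : Fin n → ℂ) ⟨0, hn⟩ = 0 := by simpa [g] using congrFun hx 0
    have e1 := form_congr (Hm n v κ) (Hm n v κ') (Equiv.refl _) (x : Fin n → ℂ) (by
      intro i j
      by_cases hi0 : (i : ℕ) = 0
      · have hi1 : i = ⟨0, hn⟩ := Fin.ext hi0
        rw [hi1, hx1]; simp
      by_cases hj0 : (j : ℕ) = 0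
      · have hj1 : j = ⟨0, hn⟩ := Fin.ext hj0
        rw [hj1, hx1]; simp
      rw [Equiv.refl_apply, Equiv.refl_apply, Hm_apply, Hm_apply, ent_ne _ _ _ _ _ hi0 hj0,
        ent_ne _ _ _ _ _ hi0 hj0])
    have hxx : (x : Fin n → ℂ) = (x : Fin n → ℂ) ∘ (Equiv.refl (Fin n)).symm := rfl
    rw [← hxx] at e1
    rw [Submodule.subtype_apply, e1]
  omega

theorem exp_lip (κ κ' : ℝ) : ‖Complex.exp (κ' * I) - Complex.exp (κ * I)‖ ≤ |κ - κ'| := by
  have h : Complex.exp (κ' * I) - Complex.exp (κ * I)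
      = Complex.exp (κ * I) * (Complex.exp (I * ((κ' - κ : ℝ) : ℂ)) - 1) := by
    rw [mul_sub, ← Complex.exp_add, mul_one]
    congr 2
    push_cast
    ring
  rw [h, norm_mul, Complex.norm_exp_ofReal_mul_I, one_mul, abs_sub_comm]
  exact Real.norm_exp_I_mul_ofReal_sub_one_le

theorem form_eq (n : ℕ) (v : ℕ → ℝ) (κ : ℝ) (hn : 0 < n) (x : Fin n → ℂ) :
    star x ⬝ᵥ (Hm n v κ *ᵥ x) = (∑ i : Fin n, star (x i) * ((v i : ℂ) * x i))
      + (∑ i : Fin n, ∑ j : Fin n, star (x i) * (((if (j : ℕ) = i + 1 then 1 else 0)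
        + (if (i : ℕ) = j + 1 then 1 else 0)) * x j))
      + (star (x ⟨n - 1, by omega⟩) * (Complex.exp (κ * I) * x ⟨0, hn⟩)
        + star (x ⟨0, hn⟩) * (Complex.exp (-(κ * I)) * x ⟨n - 1, by omega⟩)) := by
  have h1 : star x ⬝ᵥ (Hm n v κ *ᵥ x) = ∑ i : Fin n, ∑ j : Fin n,
      (star (x i) * ((if i = j then (v i : ℂ) else 0) * x j)
      + star (x i) * (((if (j : ℕ) = i + 1 then 1 else 0)
        + (if (i : ℕ) = j + 1 then 1 else 0)) * x j)
      + (star (x i) * ((if (i : ℕ) + 1 = n ∧ (j : ℕ) = 0 then Complex.exp (κ * I) else 0) * x j)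
      + star (x i) * ((if (j : ℕ) + 1 = n ∧ (i : ℕ) = 0 then Complex.exp (-(κ * I)) else 0)
        * x j))) := by
    simp only [dotProduct, Matrix.mulVec, Finset.mul_sum]
    refine Finset.sum_congr rfl (fun i _ => Finset.sum_congr rfl (fun j _ => ?_))
    have hij : ((i : ℕ) = j) = (i = j) := by
      apply propext; exact ⟨fun h => Fin.ext h, fun h => by rw [h]⟩
    simp only [Hm, Pi.star_apply, hij]
    ring
  rw [h1]
  simp only [Finset.sum_add_distrib]
  congr 1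
  · congr 1
    refine Finset.sum_congr rfl (fun i _ => ?_)
    rw [Finset.sum_eq_single i]
    · simp
    · intro j _ hj
      rw [if_neg (fun h => hj h.symm)]; simp
    · intro h; exact absurd (Finset.mem_univ i) h
  · congr 1
    · rw [Finset.sum_eq_single ⟨n - 1, by omega⟩]
      · rw [Finset.sum_eq_single ⟨0, hn⟩]
        · rw [if_pos ⟨by simp; omega, rfl⟩]
        · intro j _ hj
          rw [if_neg (fun h => hj (Fin.ext h.2))]; simp
        · intro h; exact absurd (Finset.mem_univ _) h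
      · intro i _ hi
        refine Finset.sum_eq_zero (fun j _ => ?_)
        rw [if_neg (fun h => hi (Fin.ext (by have := h.1; simp; omega)))]; simp
      · intro h; exact absurd (Finset.mem_univ _) h
    · rw [Finset.sum_eq_single ⟨0, hn⟩]
      · rw [Finset.sum_eq_single ⟨n - 1, by omega⟩]
        · rw [if_pos ⟨by simp; omega, rfl⟩]
        · intro j _ hj
          rw [if_neg (fun h => hj (Fin.ext (by have := h.1; simp; omega)))]; simp
        · intro h; exact absurd (Finset.mem_univ _) h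
      · intro i _ hi
        refine Finset.sum_eq_zero (fun j _ => ?_)
        rw [if_neg (fun h => hi (Fin.ext h.2))]; simp
      · intro h; exact absurd (Finset.mem_univ _) h

theorem re_star_mul (z : ℂ) (r : ℝ) : (star z * ((r : ℂ) * z)).re = r * ‖z‖ ^ 2 := by
  have : star z * ((r : ℂ) * z) = ((r * ‖z‖ ^ 2 : ℝ) : ℂ) := by
    have h := Complex.conj_mul' z
    simp only [RCLike.star_def]
    push_cast
    linear_combination (r : ℂ) * h
  rw [this, Complex.ofReal_re]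

theorem hm_lip (hAbs : Stmt_HermAbs) (n : ℕ) (v v' : ℕ → ℝ) (κ κ' E t : ℝ) (hn : 0 < n)
    (hv : ∀ i < n, |v i - v' i| ≤ t) :
    neg (Hm_herm n v κ) E ≤ neg (Hm_herm n v' κ') (E + t + 2 * |κ - κ'|) := by
  have key := hAbs (Fin n) (Fin n) _ _ (Hm_herm n v κ) (Hm_herm n v' κ') E
    (E + t + 2 * |κ - κ'|) ⊤ (Submodule.subtype ⊤) 0 (by simp)
      (Submodule.injective_subtype _) ?_
  · simpa [neg] using key
  intro xx
  rw [Submodule.subtype_apply]
  generalize (xx : Fin n → ℂ) = x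
  have hN : (star x ⬝ᵥ x).re = ∑ i, ‖x i‖ ^ 2 := by
    simp only [dotProduct, Complex.re_sum]
    refine Finset.sum_congr rfl (fun i _ => ?_)
    have := re_star_mul (x i) 1
    simpa using this
  set x0 := x ⟨0, hn⟩ with hx0
  set xl := x ⟨n - 1, by omega⟩ with hxl
  have hA := form_eq n v κ hn x
  have hB := form_eq n v' κ' hn x
  rw [← hx0, ← hxl] at hA hB
  set R := (∑ i : Fin n, ∑ j : Fin n, star (x i) * (((if (j : ℕ) = i + 1 then 1 else 0)
        + (if (i : ℕ) = j + 1 then 1 else 0)) * x j)) with hR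
  have hD1 : (∑ i : Fin n, star (x i) * ((v' i : ℂ) * x i)).re
      - (∑ i : Fin n, star (x i) * ((v i : ℂ) * x i)).re ≤ t * ∑ i, ‖x i‖ ^ 2 := by
    rw [Complex.re_sum, Complex.re_sum, ← Finset.sum_sub_distrib, Finset.mul_sum]
    refine Finset.sum_le_sum (fun i _ => ?_)
    rw [re_star_mul, re_star_mul, ← sub_mul]
    refine mul_le_mul_of_nonneg_right ?_ (by positivity)
    have := hv i i.2
    rw [abs_sub_comm] at this
    exact (le_abs_self _).trans this
  have hx0' : ‖x0‖ ^ 2 ≤ ∑ i, ‖x i‖ ^ 2 :=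
    Finset.single_le_sum (f := fun i => ‖x i‖ ^ 2) (fun i _ => by positivity)
      (Finset.mem_univ (⟨0, hn⟩ : Fin n))
  have hxl' : ‖xl‖ ^ 2 ≤ ∑ i, ‖x i‖ ^ 2 :=
    Finset.single_le_sum (f := fun i => ‖x i‖ ^ 2) (fun i _ => by positivity)
      (Finset.mem_univ (⟨n - 1, by omega⟩ : Fin n))
  have hcorner : ∀ k : ℝ, (star xl * (Complex.exp (k * I) * x0)
        + star x0 * (Complex.exp (-(k * I)) * xl)).re
        = 2 * (star xl * (Complex.exp (k * I) * x0)).re := by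
    intro k
    have : star x0 * (Complex.exp (-(k * I)) * xl)
        = (starRingEnd ℂ) (star xl * (Complex.exp (k * I) * x0)) := by
      simp only [RCLike.star_def, map_mul, Complex.conj_conj, conj_exp]
      ring
    rw [this, Complex.add_re, Complex.conj_re]
    ring
  have hD2 : (star xl * (Complex.exp (κ' * I) * x0)).re
      - (star xl * (Complex.exp (κ * I) * x0)).re ≤ |κ - κ'| * ∑ i, ‖x i‖ ^ 2 := by
    rw [← Complex.sub_re]
    have e : star xl * (Complex.exp (κ' * I) * x0) - star xl * (Complex.exp (κ * I) * x0)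
        = star xl * ((Complex.exp (κ' * I) - Complex.exp (κ * I)) * x0) := by ring
    rw [e]
    refine (Complex.re_le_norm _).trans ?_
    rw [norm_mul, norm_mul, norm_star]
    have h1 := exp_lip κ κ'
    have h2 : ‖xl‖ * ‖x0‖ ≤ ∑ i, ‖x i‖ ^ 2 := by nlinarith [sq_nonneg (‖xl‖ - ‖x0‖)]
    calc ‖xl‖ * (‖Complex.exp (κ' * I) - Complex.exp (κ * I)‖ * ‖x0‖)
        = ‖Complex.exp (κ' * I) - Complex.exp (κ * I)‖ * (‖xl‖ * ‖x0‖) := by ring
      _ ≤ |κ - κ'| * (∑ i, ‖x i‖ ^ 2) :=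
          mul_le_mul h1 h2 (by positivity) (abs_nonneg _)
  rw [hA, hB, hN]
  simp only [Complex.add_re (_ + _) _, Complex.add_re (∑ i : Fin n, star (x i) * (_ * x i)) R]
  have c1 := hcorner κ
  have c2 := hcorner κ'
  rw [c1, c2]
  nlinarith [hD1, hD2]

theorem getD_append_left (w1 w2 : List ℝ) (i : ℕ) (h : i < w1.length) :
    (w1 ++ w2).getD i 0 = w1.getD i 0 := by
  rw [List.getD_append _ _ _ _ h]

theorem getD_append_right (w1 w2 : List ℝ) (i : ℕ) :
    (w1 ++ w2).getD (w1.length + i) 0 = w2.getD i 0 := by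
  rw [List.getD_append_right _ _ _ _ (by omega)]
  congr 1
  omega

theorem neg_cast (n m : ℕ) (h : n = m) (v : ℕ → ℝ) (κ E : ℝ) :
    neg (Hm_herm n v κ) E = neg (Hm_herm m v κ) E := by
  subst h; rfl

theorem hermAdd_proof (hAbs : Stmt_HermAbs) : Stmt_HermAdd := by
  intro w1 w2 κ E hw1 hw2 h0 h1
  have l1 : 0 < w1.length := List.length_pos_iff.2 hw1
  have l2 : 0 < w2.length := List.length_pos_iff.2 hw2
  have l : 0 < (w1 ++ w2).length := by simp; omega
  rw [cntW_eq _ l κ E h0 h1, cntW_eq _ l1 κ E h0 h1, cntW_eq _ l2 κ E h0 h1]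
  have e : neg (Hw_herm (w1 ++ w2) κ) E
      = neg (Hm_herm (w1.length + w2.length) (fun i => (w1 ++ w2).getD i 0) κ) E :=
    neg_cast _ _ (by simp) _ κ E
  rw [e]
  exact hm_add hAbs w1.length w2.length (fun i => (w1 ++ w2).getD i 0) (fun i => w1.getD i 0)
    (fun i => w2.getD i 0) κ E (fun i hi => getD_append_left w1 w2 i hi)
    (fun i _ => getD_append_right w1 w2 i) l1 l2

theorem hermPhase_proof (hAbs : Stmt_HermAbs) : Stmt_HermPhase := by
  intro w κ κ' E hw h0 h1 h0' h1'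
  have l : 0 < w.length := List.length_pos_iff.2 hw
  rw [cntW_eq _ l κ E h0 h1, cntW_eq _ l κ' E h0' h1']
  exact hm_phase hAbs w.length (fun i => w.getD i 0) κ κ' E l

theorem hermLip_proof (hAbs : Stmt_HermAbs) : Stmt_HermLip := by
  intro w w' κ κ' E t hw h0 h1 h0' h1' hlen ht
  have l : 0 < w.length := List.length_pos_iff.2 hw
  have l' : 0 < w'.length := by omega
  rw [cntW_eq _ l κ E h0 h1, cntW_eq _ l' κ' _ h0' h1']
  have e : neg (Hw_herm w' κ') (E + t + 2 * |κ - κ'|)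
      = neg (Hm_herm w.length (fun i => w'.getD i 0) κ') (E + t + 2 * |κ - κ'|) :=
    neg_cast _ _ hlen.symm _ κ' _
  rw [e]
  refine hm_lip hAbs w.length (fun i => w.getD i 0) (fun i => w'.getD i 0) κ κ' E t l ?_
  intro i hi
  have hi' : i < w'.length := by omega
  have hz : i < (List.zip w w').length := by simp; omega
  have := ht _ (List.getElem_mem hz)
  rw [List.getElem_zip] at this
  rw [List.getD_eq_getElem _ _ hi, List.getD_eq_getElem _ _ hi']
  exact this

end Pool.Agent.FH.Herm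

namespace Pool.Agent.FH

theorem hermCard_proof : Stmt_HermCard := Herm.hermCard_proof

theorem hermAdd_proof (hAbs : Stmt_HermAbs) : Stmt_HermAdd := Herm.hermAdd_proof hAbs

theorem hermPhase_proof (hAbs : Stmt_HermAbs) : Stmt_HermPhase := Herm.hermPhase_proof hAbs

theorem hermLip_proof (hAbs : Stmt_HermAbs) : Stmt_HermLip := Herm.hermLip_proof hAbs

end Pool.Agent.FH
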