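import Pool.Agent.FH.Stmts

/-!
FH, module HERM, part A: the twisted cyclic Jacobi matrix and its eigenvalues.
-/

set_option autoImplicit false

namespace Pool.Agent.FH.Herm

open Matrix Complex

/-- cyclic Jacobi matrix with phase `κ` -/
noncomputable def Hm (n : ℕ) (v : ℕ → ℝ) (κ : ℝ) : Matrix (Fin n) (Fin n) ℂ :=
  fun i j => (if (i : ℕ) = j then ((v i : ℝ) : ℂ) else 0)
    + (if (j : ℕ) = i + 1 then 1 else 0) + (if (i : ℕ) = j + 1 then 1 else 0)
    + (if (i : ℕ) + 1 = n ∧ (j : ℕ) = 0 then Complex.exp (κ * I) else 0)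
    + (if (j : ℕ) + 1 = n ∧ (i : ℕ) = 0 then Complex.exp (-(κ * I)) else 0)

theorem conj_exp (κ : ℝ) : (starRingEnd ℂ) (Complex.exp (κ * I)) = Complex.exp (-(κ * I)) := by
  rw [← Complex.exp_conj]
  simp

theorem conj_exp' (κ : ℝ) : (starRingEnd ℂ) (Complex.exp (-(κ * I))) = Complex.exp (κ * I) := by
  rw [← conj_exp, Complex.conj_conj]

theorem Hm_herm (n : ℕ) (v : ℕ → ℝ) (κ : ℝ) : (Hm n v κ).IsHermitian := by
  ext i j
  simp only [Matrix.conjTranspose_apply, Hm, star_add, RCLike.star_def, apply_ite (starRingEnd ℂ),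
    conj_exp, conj_exp', map_one, map_zero, Complex.conj_ofReal]
  by_cases hij : (i : ℕ) = j
  · have : i = j := Fin.ext hij
    subst this
    simp
    ring
  · rw [if_neg hij, if_neg (fun h => hij h.symm)]
    ring

/-- the matrix acts on a sequence (shifted by one) as the difference operator -/
theorem Hm_mulVec (n : ℕ) (v : ℕ → ℝ) (κ : ℝ) (y : ℕ → ℂ)
    (h0 : y 0 = Complex.exp (-(κ * I)) * y n) (h1 : y (n + 1) = Complex.exp (κ * I) * y 1)
    (i : Fin n) :
    (Hm n v κ *ᵥ (fun j : Fin n => y (j + 1))) i = v i * y (i + 1) + y (i + 2) + y i := by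
  have hi := i.2
  have hn : 0 < n := by omega
  have e : ∀ F : ℕ → ℂ, ∑ j : Fin n, F j = ∑ j ∈ Finset.range n, F j := fun F =>
    Fin.sum_univ_eq_sum_range F n
  simp only [Matrix.mulVec, dotProduct, Hm, add_mul, Finset.sum_add_distrib]
  rw [e (fun j => (if (i : ℕ) = j then ((v i : ℝ) : ℂ) else 0) * y (j + 1)),
    e (fun j => (if (j : ℕ) = i + 1 then 1 else 0) * y (j + 1)),
    e (fun j => (if (i : ℕ) = j + 1 then 1 else 0) * y (j + 1)),
    e (fun j => (if (i : ℕ) + 1 = n ∧ (j : ℕ) = 0 then Complex.exp (κ * I) else 0) * y (j + 1)),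
    e (fun j => (if (j : ℕ) + 1 = n ∧ (i : ℕ) = 0 then Complex.exp (-(κ * I)) else 0) * y (j + 1))]
  have s1 : ∑ j ∈ Finset.range n, (if (i : ℕ) = j then ((v i : ℝ) : ℂ) else 0) * y (j + 1)
      = v i * y (i + 1) := by
    rw [Finset.sum_eq_single (i : ℕ)]
    · simp
    · intro j _ hj
      rw [if_neg (fun h => hj h.symm)]; simp
    · intro h; exact absurd (Finset.mem_range.2 hi) h
  have s2 : ∑ j ∈ Finset.range n, (if (j : ℕ) = i + 1 then (1 : ℂ) else 0) * y (j + 1)
      = if (i : ℕ) + 1 < n then y (i + 2) else 0 := by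
    by_cases h : (i : ℕ) + 1 < n
    · rw [if_pos h, Finset.sum_eq_single ((i : ℕ) + 1)]
      · simp
      · intro j _ hj
        rw [if_neg hj]; simp
      · intro h'; exact absurd (Finset.mem_range.2 h) h'
    · rw [if_neg h]
      refine Finset.sum_eq_zero (fun j hj => ?_)
      rw [if_neg (by have := Finset.mem_range.1 hj; omega)]; simp
  have s3 : ∑ j ∈ Finset.range n, (if (i : ℕ) = j + 1 then (1 : ℂ) else 0) * y (j + 1)
      = if (i : ℕ) = 0 then 0 else y i := by
    by_cases h : (i : ℕ) = 0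
    · rw [if_pos h]
      refine Finset.sum_eq_zero (fun j hj => ?_)
      rw [if_neg (by omega)]; simp
    · rw [if_neg h, Finset.sum_eq_single ((i : ℕ) - 1)]
      · have : (i : ℕ) - 1 + 1 = i := by omega
        simp [this]
      · intro j _ hj
        rw [if_neg (by omega)]; simp
      · intro h'; exact absurd (Finset.mem_range.2 (by omega)) h'
  have s4 : ∑ j ∈ Finset.range n,
      (if (i : ℕ) + 1 = n ∧ (j : ℕ) = 0 then Complex.exp (κ * I) else 0) * y (j + 1)
      = if (i : ℕ) + 1 = n then y (i + 2) else 0 := by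
    by_cases h : (i : ℕ) + 1 = n
    · rw [if_pos h, Finset.sum_eq_single 0]
      · simp only [h, and_self, if_true]
        rw [show (i : ℕ) + 2 = n + 1 by omega, h1, zero_add]
      · intro j _ hj
        rw [if_neg (by tauto)]; simp
      · intro h'; exact absurd (Finset.mem_range.2 hn) h'
    · rw [if_neg h]
      refine Finset.sum_eq_zero (fun j hj => ?_)
      rw [if_neg (by tauto)]; simp
  have s5 : ∑ j ∈ Finset.range n,
      (if (j : ℕ) + 1 = n ∧ (i : ℕ) = 0 then Complex.exp (-(κ * I)) else 0) * y (j + 1)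
      = if (i : ℕ) = 0 then y i else 0 := by
    by_cases h : (i : ℕ) = 0
    · rw [if_pos h, Finset.sum_eq_single (n - 1)]
      · have : n - 1 + 1 = n := by omega
        simp only [h, this, and_self, if_true, h0]
      · intro j hj hj'
        have := Finset.mem_range.1 hj
        rw [if_neg (by omega)]; simp
      · intro h'; exact absurd (Finset.mem_range.2 (by omega)) h'
    · rw [if_neg h]
      refine Finset.sum_eq_zero (fun j hj => ?_)
      rw [if_neg (by tauto)]; simp
  rw [s1, s2, s3, s4, s5]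
  by_cases hA : (i : ℕ) + 1 < n
  · have hA' : (i : ℕ) + 1 ≠ n := by omega
    by_cases hB : (i : ℕ) = 0
    · simp only [if_pos hA, if_neg hA', if_pos hB]; ring
    · simp only [if_pos hA, if_neg hA', if_neg hB]; ring
  · have hA' : (i : ℕ) + 1 = n := by omega
    by_cases hB : (i : ℕ) = 0
    · simp only [if_neg hA, if_pos hA', if_pos hB]; ring
    · simp only [if_neg hA, if_pos hA', if_neg hB]; ring

/-- complexified transfer matrix -/
noncomputable def CM (E : ℝ) (w : List ℝ) : Matrix (Fin 2) (Fin 2) ℂ :=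
  (TM E w).map (fun r : ℝ => (r : ℂ))

theorem TM_rec (E : ℝ) : ∀ (w : List ℝ) (y : ℕ → ℂ),
    (∀ i < w.length, y (i + 2) = (E - w.getD i 0) * y (i + 1) - y i) →
    CM E w *ᵥ ![y 1, y 0] = ![y (w.length + 1), y w.length] := by
  intro w
  induction w with
  | nil =>
    intro y _
    have : CM E [] = 1 := by
      ext i j
      fin_cases i <;> fin_cases j <;> simp [CM, TM]
    rw [this]
    simp
  | cons v0 w ih =>
    intro y hy
    have h1 := ih (fun i => y (i + 1)) (by
      intro i hi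
      have := hy (i + 1) (by simpa using hi)
      simpa using this)
    have h2 : CM E (v0 :: w) = CM E w * (T E v0).map (fun r : ℝ => (r : ℂ)) := by
      have : TM E (v0 :: w) = TM E w * T E v0 := rfl
      unfold CM
      rw [this]
      exact Matrix.map_mul (f := Complex.ofRealHom)
    have h3 : (T E v0).map (fun r : ℝ => (r : ℂ)) *ᵥ ![y 1, y 0] = ![y 2, y 1] := by
      have := hy 0 (by simp)
      ext i
      fin_cases i
      · simp [T, Matrix.mulVec, dotProduct, Fin.sum_univ_two] at this ⊢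
        rw [this]; ring
      · simp [T, Matrix.mulVec, dotProduct, Fin.sum_univ_two]
    rw [h2, ← Matrix.mulVec_mulVec, h3]
    simpa using h1

theorem TM_det (E : ℝ) : ∀ w : List ℝ, (TM E w).det = 1 := by
  intro w
  induction w with
  | nil => simp [TM]
  | cons v w ih =>
    have : TM E (v :: w) = TM E w * T E v := rfl
    rw [this, Matrix.det_mul, ih]
    simp [T, Matrix.det_fin_two]

theorem CM_det (E : ℝ) (w : List ℝ) : (CM E w).det = 1 := by
  have h := TM_det E w
  rw [Matrix.det_fin_two] at h ⊢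
  simp only [CM, Matrix.map_apply]
  exact_mod_cast h

theorem CM_trace (E : ℝ) (w : List ℝ) : (CM E w).trace = ((TM E w).trace : ℝ) := by
  simp [CM, Matrix.trace_fin_two]

theorem exp_ne (κ : ℝ) : Complex.exp (κ * I) ≠ 0 := Complex.exp_ne_zero _

theorem exp_mul_neg (κ : ℝ) : Complex.exp (κ * I) * Complex.exp (-(κ * I)) = 1 := by
  rw [← Complex.exp_add]; simp

theorem two_cos (κ : ℝ) : ((2 * Real.cos κ : ℝ) : ℂ)
    = Complex.exp (κ * I) + Complex.exp (-(κ * I)) := by
  have h := Complex.two_cos (κ : ℂ)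
  push_cast
  rw [h]
  congr 2
  ring

/-- the characteristic equation of the monodromy matrix -/
theorem char_iff (E κ : ℝ) (w : List ℝ) :
    (CM E w - Complex.exp (κ * I) • (1 : Matrix (Fin 2) (Fin 2) ℂ)).det = 0
      ↔ (TM E w).trace = 2 * Real.cos κ := by
  have hd := CM_det E w
  have ht := CM_trace E w
  rw [Matrix.det_fin_two] at hd ⊢
  rw [Matrix.trace_fin_two] at ht
  have he := exp_mul_neg κ
  have hc := two_cos κ
  have key : (CM E w - Complex.exp (κ * I) • (1 : Matrix (Fin 2) (Fin 2) ℂ)) 0 0 *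
      (CM E w - Complex.exp (κ * I) • (1 : Matrix (Fin 2) (Fin 2) ℂ)) 1 1 -
      (CM E w - Complex.exp (κ * I) • (1 : Matrix (Fin 2) (Fin 2) ℂ)) 0 1 *
      (CM E w - Complex.exp (κ * I) • (1 : Matrix (Fin 2) (Fin 2) ℂ)) 1 0
      = Complex.exp (κ * I) * (((2 * Real.cos κ : ℝ) : ℂ) - ((TM E w).trace : ℝ)) := by
    rw [← ht, hc]
    simp only [Matrix.sub_apply, Matrix.smul_apply, Matrix.one_apply_eq, smul_eq_mul, mul_one,
      Matrix.one_apply_ne (show (0 : Fin 2) ≠ 1 by decide),
      Matrix.one_apply_ne (show (1 : Fin 2) ≠ 0 by decide), mul_zero, sub_zero]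
    linear_combination hd - he
  rw [key]
  constructor
  · intro h
    rcases mul_eq_zero.1 h with h | h
    · exact absurd h (exp_ne κ)
    · have := sub_eq_zero.1 h
      exact_mod_cast this.symm
  · intro h
    rw [h, sub_self, mul_zero]

/-- sequence attached to a vector -/
noncomputable def ext (n : ℕ) (κ : ℝ) (x : Fin n → ℂ) : ℕ → ℂ := fun i =>
  if h : 0 < n then
    (if i = 0 then Complex.exp (-(κ * I)) * x ⟨n - 1, by omega⟩
     else if h' : i - 1 < n then x ⟨i - 1, h'⟩ else Complex.exp (κ * I) * x ⟨0, h⟩)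
  else 0

theorem ext_apply (n : ℕ) (κ : ℝ) (x : Fin n → ℂ) :
    (fun j : Fin n => ext n κ x (j + 1)) = x := by
  funext j
  have hj := j.2
  have h : 0 < n := by omega
  simp [ext, h, hj]

theorem ext_zero (n : ℕ) (hn : 0 < n) (κ : ℝ) (x : Fin n → ℂ) :
    ext n κ x 0 = Complex.exp (-(κ * I)) * ext n κ x n := by
  have h1 : n - 1 < n := by omega
  have h2 : n ≠ 0 := by omega
  simp [ext, hn, h1, h2]

theorem ext_succ (n : ℕ) (hn : 0 < n) (κ : ℝ) (x : Fin n → ℂ) :
    ext n κ x (n + 1) = Complex.exp (κ * I) * ext n κ x 1 := by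
  simp [ext, hn]

/-- an eigenvector of the cyclic matrix gives an eigenvector of the monodromy matrix -/
theorem eig_to (w : List ℝ) (hw : 0 < w.length) (κ E : ℝ) (x : Fin w.length → ℂ)
    (hx : Hm w.length (fun i => w.getD i 0) κ *ᵥ x = (E : ℂ) • x) :
    CM E w *ᵥ ![ext _ κ x 1, ext _ κ x 0]
      = Complex.exp (κ * I) • ![ext _ κ x 1, ext _ κ x 0] ∧
    ((ext _ κ x 1 = 0 ∧ ext _ κ x 0 = 0) → x = 0) := by
  set y := ext w.length κ x with hy
  have hrec : ∀ i < w.length, y (i + 2) = (E - w.getD i 0) * y (i + 1) - y i := by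
    intro i hi
    have h1 := Hm_mulVec w.length (fun i => w.getD i 0) κ y (ext_zero _ hw κ x)
      (ext_succ _ hw κ x) ⟨i, hi⟩
    rw [hy, ext_apply, hx] at h1
    have h2 : (x ⟨i, hi⟩) = y (i + 1) := (congrFun (ext_apply w.length κ x) ⟨i, hi⟩).symm
    simp only [Pi.smul_apply, smul_eq_mul] at h1
    rw [h2] at h1
    rw [← hy] at h1
    linear_combination -h1
  have h := TM_rec E w y hrec
  have e1 := ext_zero _ hw κ x
  have e2 := ext_succ _ hw κ x
  rw [← hy] at e1 e2
  refine ⟨?_, ?_⟩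
  · rw [h]
    have e3 : y w.length = Complex.exp (κ * I) * y 0 := by
      rw [e1, ← mul_assoc, exp_mul_neg, one_mul]
    ext i
    fin_cases i
    · simp [e2]
    · simp [e3]
  · rintro ⟨h1, h0⟩
    have hall : ∀ i, i ≤ w.length → y i = 0 ∧ y (i + 1) = 0 := by
      intro i
      induction i with
      | zero => intro _; exact ⟨h0, h1⟩
      | succ i ih =>
        intro hi
        obtain ⟨a, b⟩ := ih (by omega)
        refine ⟨b, ?_⟩
        rw [hrec i (by omega), a, b]; ring
    funext i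
    have h2 : x i = y (i + 1) := (congrFun (ext_apply w.length κ x) i).symm
    rw [h2]
    simpa using (hall i (by omega)).2

/-- an eigenvector of the monodromy matrix gives an eigenvector of the cyclic matrix -/
theorem eig_from (w : List ℝ) (hw : 0 < w.length) (κ E : ℝ) (z : Fin 2 → ℂ) (hz : z ≠ 0)
    (hx : CM E w *ᵥ z = Complex.exp (κ * I) • z) :
    ∃ x : Fin w.length → ℂ, x ≠ 0 ∧
      Hm w.length (fun i => w.getD i 0) κ *ᵥ x = (E : ℂ) • x := by
  -- the sequence
  let st : ℕ → ℂ × ℂ := fun i => Nat.rec (z 1, z 0)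
    (fun i p => (p.2, (E - w.getD i 0) * p.2 - p.1)) i
  let y : ℕ → ℂ := fun i => (st i).1
  have hy0 : y 0 = z 1 := rfl
  have hy1 : y 1 = z 0 := rfl
  have hy2 : ∀ i, y (i + 2) = (E - w.getD i 0) * y (i + 1) - y i := fun i => rfl
  have h := TM_rec E w y (fun i _ => hy2 i)
  have hzz : ![y 1, y 0] = z := by
    ext i
    fin_cases i <;> simp [hy0, hy1]
  rw [hzz, hx] at h
  have h1 : y (w.length + 1) = Complex.exp (κ * I) * y 1 := by
    have := congrFun h 0
    simp only [Pi.smul_apply, smul_eq_mul, Matrix.cons_val_zero] at this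
    rw [hy1]; exact this.symm
  have h0' : y w.length = Complex.exp (κ * I) * y 0 := by
    have := congrFun h 1
    simp only [Pi.smul_apply, smul_eq_mul, Matrix.cons_val_one] at this
    rw [hy0]; simpa using this.symm
  have h0 : y 0 = Complex.exp (-(κ * I)) * y w.length := by
    rw [h0', ← mul_assoc, mul_comm (Complex.exp (-(κ * I))), exp_mul_neg, one_mul]
  refine ⟨fun j => y (j + 1), ?_, ?_⟩
  · intro hx0
    apply hz
    have hn1 : w.length - 1 + 1 = w.length := by omega
    have a1 : y 1 = 0 := by simpa using congrFun hx0 ⟨0, hw⟩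
    have a0 : y w.length = 0 := by
      have := congrFun hx0 ⟨w.length - 1, by omega⟩
      simpa [hn1] using this
    rw [a0, mul_zero] at h0
    ext i
    fin_cases i
    · simpa [hy1] using a1
    · simpa [hy0] using h0
  · funext i
    rw [Hm_mulVec w.length (fun i => w.getD i 0) κ y h0 h1 i, hy2]
    simp only [Pi.smul_apply, smul_eq_mul]
    ring

theorem exp_not_real (κ : ℝ) (h0 : 0 < κ) (h1 : κ < Real.pi) (r : ℝ) :
    Complex.exp (κ * I) ≠ (r : ℂ) := by
  intro h
  have h2 := congrArg Complex.im h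
  rw [Complex.exp_ofReal_mul_I_im] at h2
  simp only [Complex.ofReal_im] at h2
  exact absurd h2 (Real.sin_pos_of_pos_of_lt_pi h0 h1).ne'

/-- an eigenvector cannot vanish at the first site -/
theorem eig_first (w : List ℝ) (hw : 0 < w.length) (κ E : ℝ) (h0 : 0 < κ) (h1 : κ < Real.pi)
    (x : Fin w.length → ℂ)
    (hx : Hm w.length (fun i => w.getD i 0) κ *ᵥ x = (E : ℂ) • x) (hx0 : x ⟨0, hw⟩ = 0) :
    x = 0 := by
  obtain ⟨ha, hb⟩ := eig_to w hw κ E x hx
  have e1 : ext _ κ x 1 = 0 := by
    have := congrFun (ext_apply w.length κ x) ⟨0, hw⟩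
    simp only [zero_add] at this
    rw [this, hx0]
  apply hb
  refine ⟨e1, ?_⟩
  by_contra hne
  rw [e1] at ha
  have := congrFun ha 1
  simp only [Matrix.mulVec, dotProduct, Fin.sum_univ_two, Pi.smul_apply, smul_eq_mul,
    Matrix.cons_val_zero, Matrix.cons_val_one, mul_zero, zero_add] at this
  have h3 := mul_right_cancel₀ hne this
  exact exp_not_real κ h0 h1 _ h3.symm

end Pool.Agent.FH.Herm
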