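import Pool.Agent.FH.Stmts

/-! HERMABS: abstract Hermitian counting. -/

set_option autoImplicit false

namespace Pool.Agent.FH

open Matrix

theorem herm_form {ι : Type} [Fintype ι] [DecidableEq ι] (A : Matrix ι ι ℂ) (hA : A.IsHermitian)
    (x : ι → ℂ) :
    (star x ⬝ᵥ (A.mulVec x)).re =
      ∑ i, hA.eigenvalues i *
        Complex.normSq (((star (hA.eigenvectorUnitary : Matrix ι ι ℂ)).mulVec x) i) ∧
    (star x ⬝ᵥ x).re =
      ∑ i, Complex.normSq (((star (hA.eigenvectorUnitary : Matrix ι ι ℂ)).mulVec x) i) := by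
  set U : Matrix ι ι ℂ := (hA.eigenvectorUnitary : Matrix ι ι ℂ) with hU
  have hUU : U * star U = 1 := Unitary.mul_star_self_of_mem hA.eigenvectorUnitary.2
  have hsp : A = U * diagonal (fun i => ((hA.eigenvalues i : ℝ) : ℂ)) * star U := by
    have h := hA.spectral_theorem
    rw [Unitary.conjStarAlgAut_apply] at h
    exact h
  set c : ι → ℂ := (star U).mulVec x with hc
  have hx : x = U.mulVec c := by
    rw [hc, mulVec_mulVec, hUU, one_mulVec]
  have hform : ∀ d : ι → ℂ, star x ⬝ᵥ (U.mulVec d) = star c ⬝ᵥ d := by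
    intro d
    rw [dotProduct_mulVec]
    congr 1
    rw [hc, star_mulVec]
    congr 1
    rw [star_eq_conjTranspose, conjTranspose_conjTranspose]
  have hre : ∀ (z : ℂ) (t : ℝ), (star z * ((t : ℂ) * z)).re = t * Complex.normSq z := by
    intro z t
    simp [Complex.normSq_apply]
    ring
  constructor
  · have h1 : A.mulVec x = U.mulVec ((diagonal (fun i => ((hA.eigenvalues i : ℝ) : ℂ))).mulVec c) := by
      conv_lhs => rw [hsp]
      rw [← mulVec_mulVec, ← mulVec_mulVec]
    rw [h1, hform]
    simp only [dotProduct, mulVec_diagonal, Complex.re_sum]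
    apply Finset.sum_congr rfl
    intro i _
    rw [← hre]
    rfl
  · have h1 : star x ⬝ᵥ x = star c ⬝ᵥ c := by
      have h2 := hform c
      rwa [← hx] at h2
    rw [h1]
    simp only [dotProduct, Complex.re_sum]
    apply Finset.sum_congr rfl
    intro i _
    have := hre (c i) 1
    simp only [Complex.ofReal_one, one_mul] at this
    rw [← this]
    rfl

theorem hermAbs_proof : Stmt_HermAbs := by
  intro ι κ _ _ _ _ A B hA hB a b V f r hcard hf hform
  classical
  set UA : Matrix ι ι ℂ := (hA.eigenvectorUnitary : Matrix ι ι ℂ) with hUA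
  set UB : Matrix κ κ ℂ := (hB.eigenvectorUnitary : Matrix κ κ ℂ) with hUB
  -- the coordinate map
  let LA : V →ₗ[ℂ] ({i : ι // ¬ hA.eigenvalues i < a} → ℂ) :=
    (LinearMap.funLeft ℂ ℂ (fun i : {i : ι // ¬ hA.eigenvalues i < a} => (i : ι))).comp
      ((star UA).mulVecLin.comp V.subtype)
  let LB : V →ₗ[ℂ] ({i : κ // hB.eigenvalues i < b} → ℂ) :=
    (LinearMap.funLeft ℂ ℂ (fun i : {i : κ // hB.eigenvalues i < b} => (i : κ))).comp
      ((star UB).mulVecLin.comp f)
  have hinj : Function.Injective (LA.prod LB) := by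
    rw [← LinearMap.ker_eq_bot, LinearMap.ker_eq_bot']
    intro x hx
    have hx1 : LA x = 0 := by
      have := congrArg Prod.fst hx
      simpa using this
    have hx2 : LB x = 0 := by
      have := congrArg Prod.snd hx
      simpa using this
    have hcA : ∀ i, ¬ hA.eigenvalues i < a → ((star UA).mulVec (x : ι → ℂ)) i = 0 := by
      intro i hi
      exact congrFun hx1 ⟨i, hi⟩
    have hcB : ∀ i, hB.eigenvalues i < b → ((star UB).mulVec (f x)) i = 0 := by
      intro i hi
      exact congrFun hx2 ⟨i, hi⟩
    obtain ⟨hA1, hA2⟩ := herm_form A hA (x : ι → ℂ)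
    obtain ⟨hB1, hB2⟩ := herm_form B hB (f x)
    have hF := hform x
    rw [hA1, hA2, hB1, hB2, Finset.mul_sum, Finset.mul_sum, ← Finset.sum_sub_distrib,
      ← Finset.sum_sub_distrib] at hF
    have hpos : 0 ≤ ∑ i, (hB.eigenvalues i * Complex.normSq ((star UB).mulVec (f x) i)
        - b * Complex.normSq ((star UB).mulVec (f x) i)) := by
      apply Finset.sum_nonneg
      intro i _
      by_cases hi : hB.eigenvalues i < b
      · rw [hcB i hi]; simp
      · have := Complex.normSq_nonneg ((star UB).mulVec (f x) i)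
        push Not at hi
        nlinarith
    have hneg : ∀ i ∈ Finset.univ, (hA.eigenvalues i * Complex.normSq ((star UA).mulVec (x : ι → ℂ) i)
        - a * Complex.normSq ((star UA).mulVec (x : ι → ℂ) i)) ≤ 0 := by
      intro i _
      by_cases hi : hA.eigenvalues i < a
      · have := Complex.normSq_nonneg ((star UA).mulVec (x : ι → ℂ) i)
        nlinarith
      · rw [hcA i hi]; simp
    have hsum : ∑ i, (hA.eigenvalues i * Complex.normSq ((star UA).mulVec (x : ι → ℂ) i)
        - a * Complex.normSq ((star UA).mulVec (x : ι → ℂ) i)) = 0 :=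
      le_antisymm (Finset.sum_nonpos hneg) (hpos.trans hF)
    have hz := (Finset.sum_eq_zero_iff_of_nonpos hneg).mp hsum
    have hc0 : (star UA).mulVec (x : ι → ℂ) = 0 := by
      funext i
      by_cases hi : hA.eigenvalues i < a
      · have h1 := hz i (Finset.mem_univ i)
        have h2 : (hA.eigenvalues i - a) * Complex.normSq ((star UA).mulVec (x : ι → ℂ) i) = 0 := by
          linarith [h1, sub_mul (hA.eigenvalues i) a
            (Complex.normSq ((star UA).mulVec (x : ι → ℂ) i))]
        rcases mul_eq_zero.mp h2 with h3 | h3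
        · exact absurd h3 (by linarith [hi] : hA.eigenvalues i - a < 0).ne
        · exact Complex.normSq_eq_zero.mp h3
      · exact hcA i hi
    have hUU : UA * star UA = 1 := Unitary.mul_star_self_of_mem hA.eigenvectorUnitary.2
    have hx0 : (x : ι → ℂ) = 0 := by
      have : (x : ι → ℂ) = UA.mulVec ((star UA).mulVec (x : ι → ℂ)) := by
        rw [mulVec_mulVec, hUU, one_mulVec]
      rw [this, hc0, mulVec_zero]
    exact Subtype.ext hx0
  have hfin := LinearMap.finrank_le_finrank_of_injective hinj
  rw [Module.finrank_prod, Module.finrank_fintype_fun_eq_card, Module.finrank_fintype_fun_eq_card,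
    Fintype.card_subtype, Fintype.card_subtype] at hfin
  have hsplit := Finset.card_filter_add_card_filter_not (s := (Finset.univ : Finset ι))
    (fun i => hA.eigenvalues i < a)
  rw [Finset.card_univ] at hsplit
  omega

end Pool.Agent.FH
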