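import Pool.Agent.FH.HermA

/-!
FH, module HERM, part B: counting eigenvalues.
-/

set_option autoImplicit false

namespace Pool.Agent.FH.Herm

open Matrix Complex

/-- the cyclic matrix of a word -/
noncomputable def Hw (w : List ℝ) (κ : ℝ) : Matrix (Fin w.length) (Fin w.length) ℂ :=
  Hm w.length (fun i => w.getD i 0) κ

theorem Hw_herm (w : List ℝ) (κ : ℝ) : (Hw w κ).IsHermitian := Hm_herm _ _ _

theorem eig_mem {n : Type} [Fintype n] [DecidableEq n] {A : Matrix n n ℂ} (hA : A.IsHermitian)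
    (E : ℝ) : (∃ x : n → ℂ, x ≠ 0 ∧ A *ᵥ x = (E : ℂ) • x) ↔ ∃ i, hA.eigenvalues i = E := by
  constructor
  · rintro ⟨x, hx0, hx⟩
    by_contra hne
    push Not at hne
    have h1 : ((E : ℂ) • (1 : Matrix n n ℂ) - A).det = 0 := by
      rw [← Matrix.exists_mulVec_eq_zero_iff]
      refine ⟨x, hx0, ?_⟩
      rw [Matrix.sub_mulVec, hx, Matrix.smul_mulVec, Matrix.one_mulVec, sub_self]
    have h2 : A.charpoly.eval (E : ℂ) = 0 := by
      rw [Matrix.eval_charpoly]
      rw [← h1]
      congr 1
      ext i j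
      simp [Matrix.scalar_apply, Matrix.diagonal_apply, Matrix.one_apply]
    rw [hA.charpoly_eq, Polynomial.eval_prod, Finset.prod_eq_zero_iff] at h2
    obtain ⟨i, _, hi⟩ := h2
    rw [Polynomial.eval_sub, Polynomial.eval_X, Polynomial.eval_C, sub_eq_zero] at hi
    apply hne i
    have : ((E : ℝ) : ℂ) = ((hA.eigenvalues i : ℝ) : ℂ) := hi
    exact_mod_cast this.symm
  · rintro ⟨i, hi⟩
    refine ⟨⇑(hA.eigenvectorBasis i), ?_, ?_⟩
    · intro h
      have h1 := (hA.eigenvectorBasis).orthonormal.ne_zero i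
      apply h1
      ext j
      exact congrFun h j
    · rw [hA.mulVec_eigenvectorBasis i, hi]
      ext j
      simp

theorem trace_iff (w : List ℝ) (hw : 0 < w.length) (κ E : ℝ) :
    (TM E w).trace = 2 * Real.cos κ ↔ ∃ i, (Hw_herm w κ).eigenvalues i = E := by
  rw [← char_iff E κ w, ← eig_mem (Hw_herm w κ) E, ← Matrix.exists_mulVec_eq_zero_iff]
  constructor
  · rintro ⟨z, hz, h⟩
    apply eig_from w hw κ E z hz
    rw [Matrix.sub_mulVec, sub_eq_zero, Matrix.smul_mulVec, Matrix.one_mulVec] at h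
    exact h
  · rintro ⟨x, hx0, hx⟩
    obtain ⟨h1, h2⟩ := eig_to w hw κ E x hx
    refine ⟨![ext _ κ x 1, ext _ κ x 0], ?_, ?_⟩
    · intro h
      apply hx0
      apply h2
      exact ⟨by simpa using congrFun h 0, by simpa using congrFun h 1⟩
    · rw [Matrix.sub_mulVec, sub_eq_zero, Matrix.smul_mulVec, Matrix.one_mulVec]
      exact h1

theorem eig_inj (w : List ℝ) (hw : 0 < w.length) (κ : ℝ) (h0 : 0 < κ) (h1 : κ < Real.pi) :
    Function.Injective (Hw_herm w κ).eigenvalues := by
  intro i j hij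
  by_contra hne
  set hA := Hw_herm w κ
  have hi := hA.mulVec_eigenvectorBasis i
  have hj := hA.mulVec_eigenvectorBasis j
  rw [← hij] at hj
  set E := hA.eigenvalues i
  set x : Fin w.length → ℂ := ⇑(hA.eigenvectorBasis i) with hx
  set y : Fin w.length → ℂ := ⇑(hA.eigenvectorBasis j) with hy
  have hi' : Hw w κ *ᵥ x = (E : ℂ) • x := by
    rw [hi]; ext k; simp
  have hj' : Hw w κ *ᵥ y = (E : ℂ) • y := by
    rw [hj]; ext k; simp
  have hz : y ⟨0, hw⟩ • x - x ⟨0, hw⟩ • y = 0 := by
    apply eig_first w hw κ E h0 h1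
    · change Hw w κ *ᵥ _ = _
      rw [Matrix.mulVec_sub, Matrix.mulVec_smul, Matrix.mulVec_smul, hi', hj', smul_sub,
        smul_comm, smul_comm (x ⟨0, hw⟩)]
    · simp only [Pi.sub_apply, Pi.smul_apply, smul_eq_mul]
      ring
  have hx0 : x ⟨0, hw⟩ ≠ 0 := by
    intro h
    have := eig_first w hw κ E h0 h1 x hi' h
    apply (hA.eigenvectorBasis).orthonormal.ne_zero i
    ext k
    exact congrFun this k
  have hy0 : y ⟨0, hw⟩ ≠ 0 := by
    intro h
    have := eig_first w hw κ E h0 h1 y hj' h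
    apply (hA.eigenvectorBasis).orthonormal.ne_zero j
    ext k
    exact congrFun this k
  have hlin := (hA.eigenvectorBasis).orthonormal.linearIndependent
  have hpair := (LinearIndependent.pair_iff).1 (hlin.comp ![i, j] (by
    intro a b hab
    fin_cases a <;> fin_cases b <;> simp at hab ⊢
    · exact hne hab
    · exact hne hab.symm) |> fun h => by
      have e : (⇑(hA.eigenvectorBasis) ∘ ![i, j]) = ![hA.eigenvectorBasis i, hA.eigenvectorBasis j] := by
        ext a; fin_cases a <;> rfl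
      rw [e] at h
      exact h)
  have := hpair (y ⟨0, hw⟩) (-(x ⟨0, hw⟩)) (by
    ext k
    have := congrFun hz k
    simp only [Pi.sub_apply, Pi.smul_apply, smul_eq_mul, Pi.zero_apply] at this
    simp only [PiLp.add_apply, PiLp.smul_apply, smul_eq_mul, PiLp.zero_apply]
    linear_combination this)
  exact hy0 this.1

/-- number of eigenvalues below `E` -/
noncomputable def neg {n : Type} [Fintype n] [DecidableEq n] {A : Matrix n n ℂ}
    (hA : A.IsHermitian) (E : ℝ) : ℕ :=
  (Finset.univ.filter (fun i => hA.eigenvalues i < E)).card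

theorem cntW_eq (w : List ℝ) (hw : 0 < w.length) (κ E : ℝ) (h0 : 0 < κ) (h1 : κ < Real.pi) :
    cntW w κ E = neg (Hw_herm w κ) E := by
  unfold cntW neg
  have : {E' : ℝ | (TM E' w).trace = 2 * Real.cos κ ∧ E' < E}
      = (((Finset.univ.filter (fun i => (Hw_herm w κ).eigenvalues i < E)).image
          (Hw_herm w κ).eigenvalues : Finset ℝ) : Set ℝ) := by
    ext E'
    simp only [Set.mem_setOf_eq, Finset.coe_image, Finset.coe_filter, Finset.mem_univ, true_and,
      Set.mem_image, trace_iff w hw κ E']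
    constructor
    · rintro ⟨⟨i, hi⟩, h⟩
      exact ⟨i, by rw [hi]; exact h, hi⟩
    · rintro ⟨i, h, hi⟩
      exact ⟨⟨i, hi⟩, by rw [← hi]; exact h⟩
  rw [this, Set.ncard_coe_finset, Finset.card_image_of_injective _ (eig_inj w hw κ h0 h1)]

theorem hermCard_proof : Stmt_HermCard := by
  intro w κ hw0 h0 h1
  have hw : 0 < w.length := List.length_pos_iff.2 hw0
  have : {E : ℝ | (TM E w).trace = 2 * Real.cos κ}
      = (((Finset.univ : Finset (Fin w.length)).image
          (Hw_herm w κ).eigenvalues : Finset ℝ) : Set ℝ) := by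
    ext E'
    simp only [Set.mem_setOf_eq, Finset.coe_image, Finset.coe_univ, Set.image_univ,
      Set.mem_range, trace_iff w hw κ E']
  rw [this, Set.ncard_coe_finset, Finset.card_image_of_injective _ (eig_inj w hw κ h0 h1)]
  simp

end Pool.Agent.FH.Herm
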