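import Pool.Agent.FH.Stmts

/-!
Module LAM: the root functions `lam n j κ q`, from the counting results for words.
-/

set_option autoImplicit false

namespace Pool.Agent.FH

/-! ### words -/

theorem lam_word_length (q : ℝ) : ∀ n : ℕ, (word q n).length = Nat.fib n
  | 0 => by simp [word]
  | 1 => by simp [word]
  | 2 => by simp [word]
  | (n + 3) => by
      have h : Nat.fib (n + 3) = Nat.fib (n + 1) + Nat.fib (n + 2) := Nat.fib_add_two
      rw [word, List.length_append, lam_word_length q (n + 2), lam_word_length q (n + 1), h]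
      omega

theorem lam_word_ne (q : ℝ) (n : ℕ) (hn : 1 ≤ n) : word q n ≠ [] := by
  intro h
  have h1 := lam_word_length q n
  rw [h] at h1
  have h2 : 0 < Nat.fib n := Nat.fib_pos.2 hn
  simp at h1
  omega

theorem lam_word_zip (q q' : ℝ) : ∀ n : ℕ, ∀ p ∈ List.zip (word q n) (word q' n),
    |p.1 - p.2| ≤ |q - q'|
  | 0 => by simp [word]
  | 1 => by
      intro p hp
      simp [word] at hp
      subst hp
      simp
  | 2 => by
      intro p hp
      simp [word] at hp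
      subst hp
      simp
  | (n + 3) => by
      intro p hp
      have hl : (word q (n + 2)).length = (word q' (n + 2)).length := by
        rw [lam_word_length, lam_word_length]
      rw [word, word, List.zip_append hl, List.mem_append] at hp
      rcases hp with hp | hp
      · exact lam_word_zip q q' (n + 2) p hp
      · exact lam_word_zip q q' (n + 1) p hp

theorem lam_word_split (q : ℝ) (n : ℕ) (hn : 1 ≤ n) :
    word q (n + 2) = word q (n + 1) ++ word q n := by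
  obtain ⟨m, rfl⟩ : ∃ m, n = m + 1 := ⟨n - 1, by omega⟩
  rfl

/-! ### counting -/

theorem lam_set_eq (hT : Stmt_WordTr) (n : ℕ) (κ q : ℝ) :
    {E : ℝ | (TM E (word q n)).trace = 2 * Real.cos κ} = {E : ℝ | X n E q = Real.cos κ} := by
  ext E
  simp only [Set.mem_setOf_eq]
  rw [hT n E q]
  constructor
  · intro h; linarith
  · intro h; linarith

theorem lam_cntW_eq (hT : Stmt_WordTr) (n : ℕ) (κ q E : ℝ) :
    cntW (word q n) κ E = cnt n κ q E := by
  unfold cntW cnt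
  congr 1
  ext E'
  simp only [Set.mem_setOf_eq]
  rw [hT n E' q]
  constructor
  · rintro ⟨h, h'⟩; exact ⟨by linarith, h'⟩
  · rintro ⟨h, h'⟩; exact ⟨by linarith, h'⟩

theorem lam_Z_eq (n : ℕ) (q E : ℝ) : Z n q E = cnt n (Real.pi / 2) q E := by
  unfold Z cnt
  rw [Real.cos_pi_div_two]

theorem RootCard_proof (hC : Stmt_HermCard) (hT : Stmt_WordTr) : Stmt_RootCard := by
  intro n hn κ hκ q
  have h1 := hC (word q n) κ (lam_word_ne q n hn) hκ.1 hκ.2
  rw [lam_set_eq hT, lam_word_length] at h1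
  refine ⟨?_, h1⟩
  apply Set.finite_of_ncard_pos
  rw [h1]
  exact Nat.fib_pos.2 hn

/-- a finite set of reals has an element with exactly `j` smaller ones -/
theorem lam_exists_rank (S : Set ℝ) (hS : S.Finite) (j : ℕ) (hj : j < S.ncard) :
    ∃ E ∈ S, {E' : ℝ | E' ∈ S ∧ E' < E}.ncard = j := by
  classical
  set s : Finset ℝ := hS.toFinset with hs
  have hcard : s.card = S.ncard := (Set.ncard_eq_toFinset_card S hS).symm
  let e := s.orderEmbOfFin hcard
  refine ⟨e ⟨j, hj⟩, ?_, ?_⟩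
  · have := s.orderEmbOfFin_mem hcard ⟨j, hj⟩
    exact hS.mem_toFinset.1 this
  · have h1 : {E' : ℝ | E' ∈ S ∧ E' < e ⟨j, hj⟩}
        = ((Finset.univ.filter (fun i : Fin S.ncard => i < ⟨j, hj⟩)).image e : Finset ℝ) := by
      ext x
      simp only [Set.mem_setOf_eq, Finset.coe_image, Set.mem_image, Finset.coe_filter,
        Finset.mem_univ, true_and]
      constructor
      · rintro ⟨hx, hlt⟩
        have hx' : x ∈ s := hS.mem_toFinset.2 hx
        have hr : x ∈ Set.range e := by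
          rw [Finset.range_orderEmbOfFin]
          exact hx'
        obtain ⟨i, rfl⟩ := hr
        exact ⟨i, e.lt_iff_lt.1 hlt, rfl⟩
      · rintro ⟨i, hi, rfl⟩
        refine ⟨?_, e.lt_iff_lt.2 hi⟩
        exact hS.mem_toFinset.1 (s.orderEmbOfFin_mem hcard i)
    rw [h1, Set.ncard_coe_finset, Finset.card_image_of_injective _ e.injective]
    have h2 : (Finset.univ.filter (fun i : Fin S.ncard => i < ⟨j, hj⟩))
        = Finset.Iio (⟨j, hj⟩ : Fin S.ncard) := by
      ext i; simp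
    rw [h2, Fin.card_Iio]

/-- uniqueness -/
theorem lam_unique_rank (S : Set ℝ) (hS : S.Finite) (E₁ E₂ : ℝ) (h₁ : E₁ ∈ S) (h₂ : E₂ ∈ S)
    (h : {E' : ℝ | E' ∈ S ∧ E' < E₁}.ncard = {E' : ℝ | E' ∈ S ∧ E' < E₂}.ncard) : E₁ = E₂ := by
  have key : ∀ a b : ℝ, a ∈ S → a < b →
      {E' : ℝ | E' ∈ S ∧ E' < a}.ncard < {E' : ℝ | E' ∈ S ∧ E' < b}.ncard := by
    intro a b ha hab
    apply Set.ncard_lt_ncard
    · rw [Set.ssubset_iff_of_subset]
      · exact ⟨a, ⟨ha, hab⟩, fun h => lt_irrefl _ h.2⟩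
      · intro x hx
        exact ⟨hx.1, hx.2.trans hab⟩
    · exact hS.subset (fun x hx => hx.1)
  rcases lt_trichotomy E₁ E₂ with h' | h' | h'
  · exact absurd h (key _ _ h₁ h').ne
  · exact h'
  · exact absurd h (key _ _ h₂ h').ne'

theorem lam_cnt_mono (hR : Stmt_RootCard) (n : ℕ) (hn : 1 ≤ n) (κ : ℝ)
    (hκ : κ ∈ Set.Ioo 0 Real.pi) (q E E' : ℝ) (h : E ≤ E') : cnt n κ q E ≤ cnt n κ q E' := by
  unfold cnt
  apply Set.ncard_le_ncard
  · intro x hx
    exact ⟨hx.1, lt_of_lt_of_le hx.2 h⟩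
  · exact (hR n hn κ hκ q).1.subset (fun x hx => hx.1)

theorem lam_spec (hR : Stmt_RootCard) (n : ℕ) (hn : 1 ≤ n) (j : ℕ) (hj : j < Nat.fib n) (κ : ℝ)
    (hκ : κ ∈ Set.Ioo 0 Real.pi) (q : ℝ) :
    X n (lam n j κ q) q = Real.cos κ ∧ cnt n κ q (lam n j κ q) = j := by
  have hex : ∃ E : ℝ, X n E q = Real.cos κ ∧ cnt n κ q E = j := by
    obtain ⟨hf, hc⟩ := hR n hn κ hκ q
    obtain ⟨E, hE, hE'⟩ := lam_exists_rank _ hf j (by rw [hc]; exact hj)
    exact ⟨E, hE, hE'⟩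
  unfold lam
  rw [dif_pos hex]
  exact hex.choose_spec

theorem lam_eq_of (hR : Stmt_RootCard) (n : ℕ) (hn : 1 ≤ n) (j : ℕ) (hj : j < Nat.fib n) (κ : ℝ)
    (hκ : κ ∈ Set.Ioo 0 Real.pi) (q E : ℝ) (h1 : X n E q = Real.cos κ)
    (h2 : cnt n κ q E = j) : lam n j κ q = E := by
  obtain ⟨h3, h4⟩ := lam_spec hR n hn j hj κ hκ q
  obtain ⟨hf, -⟩ := hR n hn κ hκ q
  exact lam_unique_rank _ hf _ _ h3 h1 (h4.trans h2.symm)

/-- just above the `j`-th root the count is at least `j+1` -/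
theorem lam_cnt_gt (hR : Stmt_RootCard) (n : ℕ) (hn : 1 ≤ n) (κ : ℝ)
    (hκ : κ ∈ Set.Ioo 0 Real.pi) (q a E : ℝ) (h1 : X n a q = Real.cos κ) (h : a < E) :
    cnt n κ q a < cnt n κ q E := by
  unfold cnt
  apply Set.ncard_lt_ncard
  · rw [Set.ssubset_iff_of_subset]
    · exact ⟨a, ⟨h1, h⟩, fun h => lt_irrefl _ h.2⟩
    · intro x hx
      exact ⟨hx.1, hx.2.trans h⟩
  · exact (hR n hn κ hκ q).1.subset (fun x hx => hx.1)

theorem Lam_proof (hR : Stmt_RootCard) (hL : Stmt_HermLip) (hT : Stmt_WordTr) : Stmt_Lam := by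
  intro n hn j hj
  refine ⟨fun κ hκ q => lam_spec hR n hn j hj κ hκ q, ?_⟩
  have key : ∀ κ ∈ Set.Ioo 0 Real.pi, ∀ κ' ∈ Set.Ioo 0 Real.pi, ∀ q q' : ℝ,
      lam n j κ q ≤ lam n j κ' q' + (|q' - q| + 2 * |κ' - κ|) := by
    intro κ hκ κ' hκ' q q'
    set a := lam n j κ q with ha
    set b := lam n j κ' q' with hb
    set s := |q' - q| + 2 * |κ' - κ| with hs
    obtain ⟨ha1, ha2⟩ := lam_spec hR n hn j hj κ hκ q
    obtain ⟨hb1, hb2⟩ := lam_spec hR n hn j hj κ' hκ' q'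
    by_contra hcon
    push_neg at hcon
    have hlip := hL (word q' n) (word q n) κ' κ ((b + a - s) / 2) |q' - q|
      (lam_word_ne q' n hn) hκ'.1 hκ'.2 hκ.1 hκ.2
      (by rw [lam_word_length, lam_word_length]) (lam_word_zip q' q n)
    rw [lam_cntW_eq hT, lam_cntW_eq hT] at hlip
    have h1 : j < cnt n κ' q' ((b + a - s) / 2) := by
      have := lam_cnt_gt hR n hn κ' hκ' q' b ((b + a - s) / 2) hb1 (by linarith)
      rw [hb2] at this
      exact this
    have h2 : cnt n κ q ((b + a - s) / 2 + |q' - q| + 2 * |κ' - κ|) ≤ j := by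
      have h3 : (b + a - s) / 2 + |q' - q| + 2 * |κ' - κ| ≤ a := by
        have : (b + a - s) / 2 + |q' - q| + 2 * |κ' - κ| = (b + a + s) / 2 := by
          rw [hs]; ring
        rw [this]; linarith
      have := lam_cnt_mono hR n hn κ hκ q _ _ h3
      rw [ha2] at this
      exact this
    omega
  intro κ hκ κ' hκ' q q'
  have h1 := key κ hκ κ' hκ' q q'
  have h2 := key κ' hκ' κ hκ q' q
  rw [abs_sub_comm q' q, abs_sub_comm κ' κ] at h1
  rw [abs_le]
  constructor <;> linarith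

theorem lam_arccos_mem (x : ℝ) (hx : |x| < 1) :
    Real.arccos x ∈ Set.Ioo 0 Real.pi ∧ Real.cos (Real.arccos x) = x := by
  obtain ⟨h1, h2⟩ := abs_lt.1 hx
  refine ⟨⟨Real.arccos_pos.2 h2, ?_⟩, Real.cos_arccos h1.le h2.le⟩
  rw [Real.arccos_lt_pi]
  exact h1

theorem lam_cos_abs_lt (κ : ℝ) (hκ : κ ∈ Set.Ioo 0 Real.pi) : |Real.cos κ| < 1 := by
  have h1 : 0 < Real.sin κ := Real.sin_pos_of_pos_of_lt_pi hκ.1 hκ.2
  have h2 := Real.sin_sq_add_cos_sq κ
  rw [← sq_lt_one_iff_abs_lt_one]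
  nlinarith

theorem lam_band_cnt (n : ℕ) (j : ℕ) (q E : ℝ) (hE : E ∈ Band n j q) :
    cnt n (Real.arccos (X n E q)) q E = j := by
  obtain ⟨h1, h2⟩ := hE
  obtain ⟨-, h4⟩ := lam_arccos_mem _ h1
  unfold cnt
  rw [h4]
  exact h2

theorem BandLam_proof (hR : Stmt_RootCard) : Stmt_BandLam := by
  intro n hn j q E
  constructor
  · intro hE
    have h1 := hE.1
    obtain ⟨h3, h4⟩ := lam_arccos_mem _ h1
    have h5 := lam_band_cnt n j q E hE
    have hj : j < Nat.fib n := by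
      obtain ⟨hf, hc⟩ := hR n hn _ h3 q
      rw [← hc, ← h5]
      unfold cnt
      apply Set.ncard_lt_ncard _ hf
      rw [Set.ssubset_iff_of_subset]
      · exact ⟨E, h4.symm, fun h => lt_irrefl _ h.2⟩
      · intro x hx; exact hx.1
    exact ⟨hj, _, h3, lam_eq_of hR n hn j hj _ h3 q E h4.symm h5⟩
  · rintro ⟨hj, κ, hκ, rfl⟩
    obtain ⟨h1, h2⟩ := lam_spec hR n hn j hj κ hκ q
    refine ⟨?_, ?_⟩
    · rw [h1]; exact lam_cos_abs_lt κ hκ
    · rw [h1]; exact h2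

theorem Count_proof (hR : Stmt_RootCard) (hA : Stmt_HermAdd) (hP : Stmt_HermPhase)
    (hT : Stmt_WordTr) : Stmt_Count := by
  have hpi : Real.pi / 2 ∈ Set.Ioo 0 Real.pi :=
    ⟨by positivity, by linarith [Real.pi_pos]⟩
  refine ⟨?_, ?_, ?_⟩
  · intro n hn q E
    have h1 := hA (word q (n + 1)) (word q n) (Real.pi / 2) E
      (lam_word_ne q (n + 1) (by omega)) (lam_word_ne q n hn) hpi.1 hpi.2
    rw [← lam_word_split q n hn, lam_cntW_eq hT, lam_cntW_eq hT, lam_cntW_eq hT,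
      ← lam_Z_eq, ← lam_Z_eq, ← lam_Z_eq] at h1
    exact h1
  · intro n hn j q E hE
    obtain ⟨h3, h4⟩ := lam_arccos_mem _ hE.1
    have h5 := lam_band_cnt n j q E hE
    have h6 := hP (word q n) (Real.pi / 2) (Real.arccos (X n E q)) E (lam_word_ne q n hn)
      hpi.1 hpi.2 h3.1 h3.2
    have h7 := hP (word q n) (Real.arccos (X n E q)) (Real.pi / 2) E (lam_word_ne q n hn)
      h3.1 h3.2 hpi.1 hpi.2
    rw [lam_cntW_eq hT, lam_cntW_eq hT, ← lam_Z_eq, h5] at h6 h7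
    exact ⟨h6, h7⟩
  · intro n hn q E E' h
    rw [lam_Z_eq, lam_Z_eq]
    exact lam_cnt_mono hR n hn _ hpi q E E' h

end Pool.Agent.FH
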