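import Pool.Agent.FH.Band0

/-!
FH, module SHRINK.
-/

set_option autoImplicit false

namespace Pool.Agent.FH

open Filter Topology Asymptotics

/-- derivative of the root curves -/
theorem lam_hasDerivAt (hD : Stmt_Deriv) (hW : Stmt_WNe) (hL : Stmt_Lam) {n : ℕ} (hn : 1 ≤ n)
    {j : ℕ} (hj : j < Nat.fib n) {κ : ℝ} (hκ : κ ∈ Set.Ioo 0 Real.pi) {q : ℝ} (hq : 0 ≤ q) :
    HasDerivAt (fun t => lam n j κ t) (-(U n (lam n j κ q) q / W n (lam n j κ q) q)) q := by
  obtain ⟨h1, h2⟩ := hL n hn j hj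
  set E := lam n j κ q with hE
  have hw : W n E q ≠ 0 := by
    refine hW n hn E q hq ?_
    rw [hE, (h1 κ hκ q).1]
    exact abs_cos_lt_one hκ
  have hlip : ∀ t, |lam n j κ t - E| ≤ |t - q| := by
    intro t
    have := h2 κ hκ κ hκ t q
    simpa using this
  have hcont : Tendsto (fun t => lam n j κ t) (𝓝 q) (𝓝 E) := by
    rw [tendsto_iff_dist_tendsto_zero]
    refine squeeze_zero (fun t => dist_nonneg) (fun t => ?_)
      (tendsto_iff_dist_tendsto_zero.1 (tendsto_id (α := ℝ) (x := 𝓝 q)))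
    rw [Real.dist_eq, Real.dist_eq]
    exact hlip t
  have hpair : Tendsto (fun t => ((lam n j κ t, t) : ℝ × ℝ)) (𝓝 q) (𝓝 (E, q)) := by
    rw [nhds_prod_eq]
    exact hcont.prodMk tendsto_id
  have hF := (hD n E q).isLittleO
  have hF2 := hF.comp_tendsto hpair
  have hO : (fun t => ((lam n j κ t, t) : ℝ × ℝ) - (E, q)) =O[𝓝 q] fun t => t - q := by
    refine IsBigO.of_bound 1 (Eventually.of_forall fun t => ?_)
    rw [one_mul, Prod.norm_def]
    refine max_le ?_ ?_
    · simpa [Real.norm_eq_abs] using hlip t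
    · simp
  have hF3 := hF2.trans_isBigO (f := _) hO
  rw [hasDerivAt_iff_isLittleO]
  have hF4 := hF3.const_mul_left (-(W n E q)⁻¹)
  refine hF4.congr_left (fun t => ?_)
  have e1 : X n (lam n j κ t) t = Real.cos κ := (h1 κ hκ t).1
  have e2 : X n E q = Real.cos κ := (h1 κ hκ q).1
  simp only [Function.comp_apply, e1, e2, add_apply,
    smul_apply, ContinuousLinearMap.coe_fst', ContinuousLinearMap.coe_snd',
    smul_eq_mul, Prod.fst_sub, Prod.snd_sub]
  rw [← hE]
  field_simp
  ring

theorem shrink_proof (hD : Stmt_Deriv) (hW : Stmt_WNe) (hL : Stmt_Lam) (hV : Stmt_VMono) :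
    Stmt_Shrink := by
  intro n hn j hj κ hκ κ' hκ' q₁ q₂ hq₁ hq
  set g : ℝ → ℝ := fun t => (lam n j κ t - lam n j κ' t) ^ 2 with hg
  have hder : ∀ t : ℝ, 0 ≤ t → HasDerivAt g
      (2 * (lam n j κ t - lam n j κ' t) *
        (-(U n (lam n j κ t) t / W n (lam n j κ t) t)
          - -(U n (lam n j κ' t) t / W n (lam n j κ' t) t))) t := by
    intro t ht
    have h := ((lam_hasDerivAt hD hW hL hn hj hκ ht).sub
      (lam_hasDerivAt hD hW hL hn hj hκ' ht)).pow 2
    refine HasDerivAt.congr_deriv (f := g) h ?_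
    simp
  have hanti : AntitoneOn g (Set.Ici 0) := by
    refine antitoneOn_of_deriv_nonpos (convex_Ici 0)
      (fun t ht => (hder t ht).continuousAt.continuousWithinAt)
      (fun t ht => ?_) (fun t ht => ?_)
    · rw [interior_Ici] at ht
      exact (hder t ht.le).differentiableAt.differentiableWithinAt
    · rw [interior_Ici] at ht
      have ht' : (0 : ℝ) < t := ht
      rw [(hder t ht'.le).deriv]
      rcases le_total (lam n j κ t) (lam n j κ' t) with h | h
      · have hv := hV n hn (lam n j κ t) (lam n j κ' t) t ht' h (fun E hE =>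
          seg hL hn hj hκ hκ' t (by rw [Set.uIcc_of_le h]; exact hE))
        nlinarith
      · have hv := hV n hn (lam n j κ' t) (lam n j κ t) t ht' h (fun E hE =>
          seg hL hn hj hκ' hκ t (by rw [Set.uIcc_of_le h]; exact hE))
        nlinarith
  have h := hanti (Set.mem_Ici.2 hq₁) (Set.mem_Ici.2 (hq₁.trans hq)) hq
  exact sq_le_sq.1 h

end Pool.Agent.FH
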