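import Pool.Agent.FH.SpecAux

/-!
SPEC1: Bloch waves cut off by a tent.
-/

set_option autoImplicit false

namespace Pool.Agent.FH

open Finset

/-- the tent -/
def tent (L k : ℕ) : ℕ := min k (2 * L - k)

lemma tent_step (L k : ℕ) : |((tent L (k + 1) : ℕ) : ℝ) - (tent L k : ℕ)| ≤ 1 := by
  have h1 : tent L (k + 1) ≤ tent L k + 1 := by unfold tent; omega
  have h2 : tent L k ≤ tent L (k + 1) + 1 := by unfold tent; omega
  have h1' : ((tent L (k + 1) : ℕ) : ℝ) ≤ (tent L k : ℕ) + 1 := by exact_mod_cast h1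
  have h2' : ((tent L k : ℕ) : ℝ) ≤ (tent L (k + 1) : ℕ) + 1 := by exact_mod_cast h2
  rw [abs_le]
  constructor <;> linarith

/-- a cut off solution -/
noncomputable def cut (L : ℕ) (w : ℕ → ℝ) (i : ℤ) : ℝ := (tent L i.toNat : ℕ) * w i.toNat

lemma cut_nonpos (L : ℕ) (w : ℕ → ℝ) (i : ℤ) (hi : i ≤ 0) : cut L w i = 0 := by
  have : i.toNat = 0 := Int.toNat_of_nonpos hi
  simp [cut, this, tent]

lemma cut_large (L : ℕ) (w : ℕ → ℝ) (i : ℤ) (hi : 2 * (L : ℤ) ≤ i) : cut L w i = 0 := by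
  have : tent L i.toNat = 0 := by unfold tent; omega
  simp [cut, this]

lemma cut_nat (L : ℕ) (w : ℕ → ℝ) (k : ℕ) : cut L w (k : ℤ) = (tent L k : ℕ) * w k := by
  simp [cut]

/-- the image of `ψ` under `H - E` -/
noncomputable def HE (q E : ℝ) (ψ : ℤ → ℝ) (n : ℤ) : ℝ :=
  ψ (n + 1) + ψ (n - 1) + pot q n * ψ n - E * ψ n

lemma HE_cut_sq (q E : ℝ) (L : ℕ) (w : ℕ → ℝ)
    (hw : ∀ k : ℕ, w (k + 2) = (E - pot q ((k : ℤ) + 1)) * w (k + 1) - w k) (k : ℕ) :
    (HE q E (cut L w) ((k : ℤ) + 1)) ^ 2 ≤ 2 * (w (k + 2) ^ 2 + w k ^ 2) := by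
  have e1 : cut L w ((k : ℤ) + 1 + 1) = (tent L (k + 2) : ℕ) * w (k + 2) := by
    rw [← cut_nat]; norm_num [add_assoc]
  have e2 : cut L w ((k : ℤ) + 1 - 1) = (tent L k : ℕ) * w k := by
    rw [← cut_nat]; norm_num
  have e3 : cut L w ((k : ℤ) + 1) = (tent L (k + 1) : ℕ) * w (k + 1) := by
    rw [← cut_nat]; norm_num
  have key : HE q E (cut L w) ((k : ℤ) + 1)
      = ((tent L (k + 2) : ℕ) - (tent L (k + 1) : ℕ) : ℝ) * w (k + 2)
        - ((tent L (k + 1) : ℕ) - (tent L k : ℕ) : ℝ) * w k := by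
    unfold HE
    rw [e1, e2, e3]
    have := hw k
    linear_combination ((tent L (k + 1) : ℕ) : ℝ) * this
  rw [key]
  set a : ℝ := ((tent L (k + 2) : ℕ) - (tent L (k + 1) : ℕ) : ℝ) with ha
  set b : ℝ := ((tent L (k + 1) : ℕ) - (tent L k : ℕ) : ℝ) with hb
  have ha1 : |a| ≤ 1 := tent_step L (k + 1)
  have hb1 : |b| ≤ 1 := tent_step L k
  have ha2 : a ^ 2 ≤ 1 := by
    rw [← sq_abs]; nlinarith [abs_nonneg a]
  have hb2 : b ^ 2 ≤ 1 := by
    rw [← sq_abs]; nlinarith [abs_nonneg b]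
  have h1 : a ^ 2 * w (k + 2) ^ 2 ≤ w (k + 2) ^ 2 := by
    nlinarith [sq_nonneg (w (k + 2))]
  have h2 : b ^ 2 * w k ^ 2 ≤ w k ^ 2 := by
    nlinarith [sq_nonneg (w k)]
  nlinarith [sq_nonneg (a * w (k + 2) + b * w k)]

lemma key_upper (q E : ℝ) (L : ℕ) (hL : 1 ≤ L) (w : ℕ → ℝ)
    (hw : ∀ k : ℕ, w (k + 2) = (E - pot q ((k : ℤ) + 1)) * w (k + 1) - w k) :
    ∑ n ∈ Finset.Icc (-((2 * L : ℕ) : ℤ) - 1) (((2 * L : ℕ) : ℤ) + 1), (HE q E (cut L w) n) ^ 2
      ≤ 2 * w 1 ^ 2 + ∑ k ∈ Finset.range (2 * L), 2 * (w (k + 2) ^ 2 + w k ^ 2) := by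
  have hsub : ∑ n ∈ (Finset.range (2 * L + 1)).map ⟨fun k : ℕ => (k : ℤ), Nat.cast_injective⟩,
      (HE q E (cut L w) n) ^ 2
      = ∑ n ∈ Finset.Icc (-((2 * L : ℕ) : ℤ) - 1) (((2 * L : ℕ) : ℤ) + 1),
        (HE q E (cut L w) n) ^ 2 := by
    apply Finset.sum_subset
    · intro n hn
      simp only [Finset.mem_map, Finset.mem_range, Function.Embedding.coeFn_mk] at hn
      obtain ⟨k, hk, rfl⟩ := hn
      rw [Finset.mem_Icc]
      constructor <;> omega
    · intro n hn hn'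
      rw [Finset.mem_Icc] at hn
      simp only [Finset.mem_map, Finset.mem_range, Function.Embedding.coeFn_mk, not_exists,
        not_and] at hn'
      by_cases h0 : n < 0
      · unfold HE
        rw [cut_nonpos L w (n + 1) (by omega), cut_nonpos L w (n - 1) (by omega),
          cut_nonpos L w n (by omega)]
        ring
      · have hn2 : 2 * (L : ℤ) + 1 ≤ n := by
          by_contra hlt
          exact hn' n.toNat (by omega) (by omega)
        unfold HE
        rw [cut_large L w (n + 1) (by omega), cut_large L w (n - 1) (by omega),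
          cut_large L w n (by omega)]
        ring
  rw [← hsub, Finset.sum_map]
  simp only [Function.Embedding.coeFn_mk]
  rw [Finset.sum_range_succ']
  rw [add_comm]
  apply add_le_add
  · have : HE q E (cut L w) ((0 : ℕ) : ℤ) = w 1 := by
      unfold HE
      rw [cut_nonpos L w (((0 : ℕ) : ℤ) - 1) (by simp), cut_nonpos L w ((0 : ℕ) : ℤ) (by simp)]
      have : cut L w (((0 : ℕ) : ℤ) + 1) = (tent L 1 : ℕ) * w 1 := by
        rw [← cut_nat]; norm_num
      rw [this]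
      have : tent L 1 = 1 := by unfold tent; omega
      rw [this]; simp
    rw [this]
    nlinarith [sq_nonneg (w 1)]
  · apply Finset.sum_le_sum
    intro k _
    have := HE_cut_sq q E L w hw k
    push_cast
    exact this

lemma key_lower (L : ℕ) (w : ℕ → ℝ) :
    ∑ k ∈ Finset.range (2 * L), ((tent L k : ℕ) : ℝ) ^ 2 * w k ^ 2
      ≤ ∑ n ∈ Finset.Icc (-((2 * L : ℕ) : ℤ)) ((2 * L : ℕ) : ℤ), cut L w n ^ 2 := by
  have : ∑ k ∈ Finset.range (2 * L), ((tent L k : ℕ) : ℝ) ^ 2 * w k ^ 2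
      = ∑ n ∈ (Finset.range (2 * L)).map ⟨fun k : ℕ => (k : ℤ), Nat.cast_injective⟩,
        cut L w n ^ 2 := by
    rw [Finset.sum_map]
    simp only [Function.Embedding.coeFn_mk, cut_nat, mul_pow]
  rw [this]
  apply Finset.sum_le_sum_of_subset_of_nonneg
  · intro n hn
    simp only [Finset.mem_map, Finset.mem_range, Function.Embedding.coeFn_mk] at hn
    obtain ⟨k, hk, rfl⟩ := hn
    rw [Finset.mem_Icc]
    constructor <;> omega
  · intro n _ _
    positivity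

/-- sums of a sequence with `g (k + L) = g k` over nearly two periods -/
lemma sum_two (L : ℕ) (g : ℕ → ℝ) (hg : ∀ k, k ≤ L + 1 → g (k + L) = g k) :
    ∑ k ∈ Finset.range (2 * L), g k = 2 * ∑ k ∈ Finset.range L, g k ∧
    ∑ k ∈ Finset.range (2 * L), g (k + 2) = 2 * ∑ k ∈ Finset.range L, g k := by
  have h1 : ∑ k ∈ Finset.range (2 * L), g k = 2 * ∑ k ∈ Finset.range L, g k := by
    rw [two_mul L, Finset.sum_range_add]
    have e : ∑ x ∈ Finset.range L, g (L + x) = ∑ x ∈ Finset.range L, g x :=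
      Finset.sum_congr rfl (fun k hk => by
        rw [add_comm L k]; exact hg k (by have := Finset.mem_range.mp hk; omega))
    rw [e]
    ring
  refine ⟨h1, ?_⟩
  have h2 : ∑ k ∈ Finset.range (2 * L + 2), g k
      = ∑ k ∈ Finset.range (2 * L), g (k + 2) + g 1 + g 0 := by
    rw [Finset.sum_range_succ', Finset.sum_range_succ']
  have h3 : ∑ k ∈ Finset.range (2 * L + 2), g k
      = ∑ k ∈ Finset.range (2 * L), g k + g (2 * L) + g (2 * L + 1) := by
    rw [Finset.sum_range_succ, Finset.sum_range_succ]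
  have h4 : g (2 * L) = g 0 := by
    have a := hg L (by omega)
    have b := hg 0 (by omega)
    rw [← two_mul] at a
    rw [a, ← b]; simp
  have h5 : g (2 * L + 1) = g 1 := by
    have a := hg (L + 1) (by omega)
    have b := hg 1 (by omega)
    rw [show 2 * L + 1 = L + 1 + L by ring, a, ← b, add_comm]
  linarith

lemma sum_tent (L : ℕ) (g : ℕ → ℝ) (hg0 : ∀ k, 0 ≤ g k)
    (hg : ∀ k, k ≤ L + 1 → g (k + L) = g k) :
    (L : ℝ) ^ 2 / 2 * ∑ k ∈ Finset.range L, g k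
      ≤ ∑ k ∈ Finset.range (2 * L), ((tent L k : ℕ) : ℝ) ^ 2 * g k := by
  rw [two_mul L, Finset.sum_range_add, Finset.mul_sum, ← Finset.sum_add_distrib]
  apply Finset.sum_le_sum
  intro k hk
  have hk' := Finset.mem_range.mp hk
  have e1 : tent L k = k := by unfold tent; omega
  have e2 : tent L (L + k) = L - k := by unfold tent; omega
  rw [e1, e2, Nat.cast_sub hk'.le, add_comm L k, hg k (by omega)]
  have := hg0 k
  nlinarith [mul_nonneg this (sq_nonneg ((L : ℝ) - 2 * k))]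

/-- solution of the difference equation with complex initial values -/
noncomputable def sol (q E : ℝ) (a b : ℂ) : ℕ → ℂ
  | 0 => b
  | 1 => a
  | (k + 2) => ((E - pot q ((k : ℤ) + 1) : ℝ) : ℂ) * sol q E a b (k + 1) - sol q E a b k

lemma eig_exists (M : Matrix (Fin 2) (Fin 2) ℝ) (c : ℝ) (hdet : M.det = 1) (htr : M.trace = 2 * c)
    (hc : |c| ≤ 1) : ∃ μ a b : ℂ, Complex.normSq μ = 1 ∧ (a ≠ 0 ∨ b ≠ 0) ∧
      (M 0 0 : ℂ) * a + (M 0 1 : ℂ) * b = μ * a ∧ (M 1 0 : ℂ) * a + (M 1 1 : ℂ) * b = μ * b := by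
  have hc2 : 0 ≤ 1 - c ^ 2 := by
    have := (sq_le_one_iff_abs_le_one c).mpr hc
    linarith
  set s := Real.sqrt (1 - c ^ 2) with hs
  have hs2 : s ^ 2 = 1 - c ^ 2 := Real.sq_sqrt hc2
  set μ : ℂ := ⟨c, s⟩ with hμ
  have hμ1 : Complex.normSq μ = 1 := by
    rw [Complex.normSq_mk]; nlinarith
  have hμ2 : μ ^ 2 - 2 * (c : ℂ) * μ + 1 = 0 := by
    apply Complex.ext
    · simp [pow_two, hμ]; nlinarith
    · simp [pow_two, hμ]; ring
  set N : Matrix (Fin 2) (Fin 2) ℂ := !![(M 0 0 : ℂ) - μ, (M 0 1 : ℂ); (M 1 0 : ℂ), (M 1 1 : ℂ) - μ]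
    with hN
  have hNdet : N.det = 0 := by
    rw [hN, Matrix.det_fin_two_of]
    rw [Matrix.det_fin_two] at hdet
    rw [Matrix.trace_fin_two] at htr
    have hdet' : (M 0 0 : ℂ) * (M 1 1 : ℂ) - (M 0 1 : ℂ) * (M 1 0 : ℂ) = 1 := by
      exact_mod_cast hdet
    have htr' : (M 0 0 : ℂ) + (M 1 1 : ℂ) = 2 * (c : ℂ) := by exact_mod_cast htr
    linear_combination hdet' + hμ2 - μ * htr'
  obtain ⟨v, hv0, hv⟩ := Matrix.exists_mulVec_eq_zero_iff.mpr hNdet
  refine ⟨μ, v 0, v 1, hμ1, ?_, ?_, ?_⟩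
  · by_contra hcon
    push Not at hcon
    apply hv0
    ext i
    fin_cases i
    · simpa using hcon.1
    · simpa using hcon.2
  · have := congrFun hv 0
    simp [hN, Matrix.mulVec, dotProduct, Fin.sum_univ_two] at this
    linear_combination this
  · have := congrFun hv 1
    simp [hN, Matrix.mulVec, dotProduct, Fin.sum_univ_two] at this
    linear_combination this

theorem Spec1_proof (hW : Stmt_WordTr) (hF : Stmt_FibWord) (hP : Stmt_FibPer) : Stmt_Spec1 := by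
  intro q _ E hE ε hε
  -- choice of n
  obtain ⟨n, hn5, hnε, hXn⟩ : ∃ n : ℕ, 5 ≤ n ∧ 5 / ε < n ∧ |X n E q| ≤ 1 := by
    obtain ⟨m, hm⟩ := exists_nat_gt (5 / ε)
    rcases hE (max m 5) (by omega) with h | h
    · exact ⟨max m 5, by omega, lt_of_lt_of_le hm (by exact_mod_cast le_max_left m 5), h⟩
    · exact ⟨max m 5 + 1, by omega, lt_of_lt_of_le hm
        (by exact_mod_cast (le_max_left m 5).trans (Nat.le_succ _)), h⟩
  set L := Nat.fib n with hL
  have hLn : n ≤ L := Nat.le_fib_self hn5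
  have hL2 : L + 2 ≤ Nat.fib (n + 1) := by
    obtain ⟨k, rfl⟩ : ∃ k, n = k + 1 := ⟨n - 1, by omega⟩
    rw [Nat.fib_add_two (n := k)]
    have : Nat.fib 4 ≤ Nat.fib k := Nat.fib_mono (by omega)
    have h4 : Nat.fib 4 = 3 := by decide
    omega
  have hword : word q n = (List.range L).map (fun i : ℕ => pot q ((i : ℤ) + 1))  :=
    fibWord_nat hF n (by omega) q
  obtain ⟨μ, a, b, hμ, hab, h0, h1⟩ := eig_exists (TM E (word q n)) (X n E q) (TM_det _ _)
    (hW n E q) hXn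
  set u : ℕ → ℂ := sol q E a b with hu
  have hu0 : u 0 = b := rfl
  have hu1 : u 1 = a := rfl
  have hus : ∀ k : ℕ, u (k + 2) = ((E - pot q ((k : ℤ) + 1) : ℝ) : ℂ) * u (k + 1) - u k :=
    fun k => rfl
  obtain ⟨hs1, hs2⟩ := TM_sol (K := ℂ) E (fun i : ℕ => pot q ((i : ℤ) + 1)) u L (fun k _ => by
    rw [hus k]; rfl)
  rw [← hword] at hs1 hs2
  have hper : ∀ k : ℕ, k ≤ L + 1 → u (k + L) = μ * u k ∧
      (k + 1 ≤ L + 1 → u (k + 1 + L) = μ * u (k + 1)) := by
    intro k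
    induction k with
    | zero =>
      intro _
      constructor
      · rw [Nat.zero_add, hs2, hu0, hu1]
        exact h1
      · intro _
        rw [Nat.zero_add, add_comm 1 L, hs1, hu0, hu1]
        exact h0
    | succ k ih =>
      intro hk
      obtain ⟨i1, i2⟩ := ih (by omega)
      refine ⟨i2 hk, fun hk2 => ?_⟩
      rw [show k + 1 + 1 + L = (k + L) + 2 by ring, hus (k + L), show k + L + 1 = k + 1 + L by ring,
        i1, i2 hk, show k + 1 + 1 = k + 2 by ring, hus k]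
      have hpot : pot q (((k + L : ℕ) : ℤ) + 1) = pot q ((k : ℤ) + 1) := by
        have := hP n (by omega) q (k + 1) (by omega) (by omega)
        push_cast at this ⊢
        rw [← this]
        congr 1
        ring
      rw [hpot]
      ring
  -- the squares
  set g : ℕ → ℝ := fun k => Complex.normSq (u k) with hg
  have hg0 : ∀ k, 0 ≤ g k := fun k => Complex.normSq_nonneg _
  have hgper : ∀ k, k ≤ L + 1 → g (k + L) = g k := by
    intro k hk
    simp only [hg, (hper k hk).1, Complex.normSq_mul, hμ, one_mul]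
  set S := ∑ k ∈ Finset.range L, g k with hS
  have hSpos : 0 < S := by
    have h01 : g 0 + g 1 ≤ S := by
      have : ∑ k ∈ Finset.range 2, g k ≤ S :=
        Finset.sum_le_sum_of_subset_of_nonneg
          (Finset.range_subset_range.mpr (by omega)) (fun k _ _ => hg0 k)
      simpa [Finset.sum_range_succ] using this
    have ha : 0 < g 0 + g 1 := by
      rcases hab with h | h
      · have : 0 < g 1 := by
          simp only [hg, hu1]; exact Complex.normSq_pos.mpr h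
        have := hg0 0
        linarith
      · have : 0 < g 0 := by
          simp only [hg, hu0]; exact Complex.normSq_pos.mpr h
        have := hg0 1
        linarith
    linarith
  obtain ⟨t1, t2⟩ := sum_two L g hgper
  have t3 := sum_tent L g hg0 hgper
  -- real and imaginary parts
  set wr : ℕ → ℝ := fun k => (u k).re with hwr
  set wi : ℕ → ℝ := fun k => (u k).im with hwi
  have hgk : ∀ k, g k = wr k ^ 2 + wi k ^ 2 := by
    intro k; simp only [hg, hwr, hwi, Complex.normSq_apply]; ring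
  have hwr2 : ∀ k : ℕ, wr (k + 2) = (E - pot q ((k : ℤ) + 1)) * wr (k + 1) - wr k := by
    intro k
    simp only [hwr, hus k, Complex.sub_re, Complex.re_ofReal_mul]
  have hwi2 : ∀ k : ℕ, wi (k + 2) = (E - pot q ((k : ℤ) + 1)) * wi (k + 1) - wi k := by
    intro k
    simp only [hwi, hus k, Complex.sub_im, Complex.im_ofReal_mul]
  have ur := key_upper q E L (by omega) wr hwr2
  have ui := key_upper q E L (by omega) wi hwi2
  have lr := key_lower L wr
  have li := key_lower L wi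
  set Ar := ∑ n ∈ Finset.Icc (-((2 * L : ℕ) : ℤ) - 1) (((2 * L : ℕ) : ℤ) + 1),
    (HE q E (cut L wr) n) ^ 2 with hAr
  set Ai := ∑ n ∈ Finset.Icc (-((2 * L : ℕ) : ℤ) - 1) (((2 * L : ℕ) : ℤ) + 1),
    (HE q E (cut L wi) n) ^ 2 with hAi
  set Br := ∑ n ∈ Finset.Icc (-((2 * L : ℕ) : ℤ)) ((2 * L : ℕ) : ℤ), cut L wr n ^ 2 with hBr
  set Bi := ∑ n ∈ Finset.Icc (-((2 * L : ℕ) : ℤ)) ((2 * L : ℕ) : ℤ), cut L wi n ^ 2 with hBi
  have hA : Ar + Ai ≤ 10 * S := by
    have e1 : ∑ k ∈ Finset.range (2 * L), 2 * (wr (k + 2) ^ 2 + wr k ^ 2)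
        + ∑ k ∈ Finset.range (2 * L), 2 * (wi (k + 2) ^ 2 + wi k ^ 2)
        = 2 * (∑ k ∈ Finset.range (2 * L), g (k + 2)) + 2 * ∑ k ∈ Finset.range (2 * L), g k := by
      rw [Finset.mul_sum, Finset.mul_sum, ← Finset.sum_add_distrib, ← Finset.sum_add_distrib]
      apply Finset.sum_congr rfl
      intro k _
      rw [hgk (k + 2), hgk k]
      ring
    have e2 : g 1 ≤ S :=
      Finset.single_le_sum (f := g) (fun k _ => hg0 k) (Finset.mem_range.mpr (by omega))
    have e3 := hgk 1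
    rw [t1, t2] at e1
    linarith
  have hB : (L : ℝ) ^ 2 / 2 * S ≤ Br + Bi := by
    have e1 : ∑ k ∈ Finset.range (2 * L), ((tent L k : ℕ) : ℝ) ^ 2 * g k
        = ∑ k ∈ Finset.range (2 * L), ((tent L k : ℕ) : ℝ) ^ 2 * wr k ^ 2
          + ∑ k ∈ Finset.range (2 * L), ((tent L k : ℕ) : ℝ) ^ 2 * wi k ^ 2 := by
      rw [← Finset.sum_add_distrib]
      apply Finset.sum_congr rfl
      intro k _
      rw [hgk k]; ring
    linarith
  have hεL : 5 < ε * L := by
    have : 5 / ε < L := lt_of_lt_of_le hnε (by exact_mod_cast hLn)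
    rw [div_lt_iff₀ hε] at this
    linarith
  have hεL2 : 25 < ε ^ 2 * (L : ℝ) ^ 2 := by nlinarith
  have hlt : Ar + Ai < ε ^ 2 * Br + ε ^ 2 * Bi := by
    have h1 : ε ^ 2 * ((L : ℝ) ^ 2 / 2 * S) ≤ ε ^ 2 * (Br + Bi) :=
      mul_le_mul_of_nonneg_left hB (by positivity)
    nlinarith
  have hfin : ∀ w : ℕ → ℝ,
      ∑ n ∈ Finset.Icc (-((2 * L : ℕ) : ℤ) - 1) (((2 * L : ℕ) : ℤ) + 1),
        (HE q E (cut L w) n) ^ 2
        < ε ^ 2 * ∑ n ∈ Finset.Icc (-((2 * L : ℕ) : ℤ)) ((2 * L : ℕ) : ℤ), cut L w n ^ 2 →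
      ∃ N : ℕ, ∃ ψ : ℤ → ℝ,
    (∀ n : ℤ, n ∉ Finset.Icc (-(N : ℤ)) (N : ℤ) → ψ n = 0) ∧
    (∑ n ∈ Finset.Icc (-(N : ℤ) - 1) ((N : ℤ) + 1),
        (ψ (n + 1) + ψ (n - 1)
          + (if 1 - (Real.sqrt 5 - 1) / 2 ≤ Int.fract ((n : ℝ) * ((Real.sqrt 5 - 1) / 2))
              then q else 0) * ψ n
          - E * ψ n) ^ 2
      < ε ^ 2 * ∑ n ∈ Finset.Icc (-(N : ℤ)) (N : ℤ), ψ n ^ 2) := by
    intro w hw
    refine ⟨2 * L, cut L w, ?_, hw⟩
    intro n hn
    rw [Finset.mem_Icc, not_and_or] at hn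
    rcases hn with hn | hn
    · exact cut_nonpos L w n (by omega)
    · exact cut_large L w n (by omega)
  by_cases hr : Ar < ε ^ 2 * Br
  · exact hfin wr hr
  · exact hfin wi (by
      show Ai < ε ^ 2 * Bi
      linarith)

end Pool.Agent.FH
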