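import Pool.Agent.FH.Stmts

/-!
Module VMONO: `U / W` increases inside the bands (Rolle, Lagrange partial fractions).
-/

set_option autoImplicit false

namespace Pool.Agent.FH

open Polynomial Finset

/-- logarithmic derivatives of a product of linear factors -/
theorem vm_nodal (s : Finset ℝ) : ∀ E : ℝ, E ∉ s →
    (derivative (Lagrange.nodal s (id : ℝ → ℝ))).eval E
        = (Lagrange.nodal s (id : ℝ → ℝ)).eval E * ∑ x ∈ s, (E - x)⁻¹ ∧
    (derivative (derivative (Lagrange.nodal s (id : ℝ → ℝ)))).eval E
        * (Lagrange.nodal s (id : ℝ → ℝ)).eval E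
      = ((derivative (Lagrange.nodal s (id : ℝ → ℝ))).eval E) ^ 2
        - ((Lagrange.nodal s (id : ℝ → ℝ)).eval E) ^ 2 * ∑ x ∈ s, ((E - x)⁻¹) ^ 2 := by
  classical
  induction s using Finset.induction_on with
  | empty => intro E _; simp [Lagrange.nodal]
  | insert a s ha ih =>
    intro E hE
    rw [Finset.mem_insert, not_or] at hE
    obtain ⟨hEa, hEs⟩ := hE
    obtain ⟨ih1, ih2⟩ := ih E hEs
    have hne : E - a ≠ 0 := sub_ne_zero.2 hEa
    have hn : Lagrange.nodal (insert a s) (id : ℝ → ℝ) = (Polynomial.X - C a) * Lagrange.nodal s id := by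
      unfold Lagrange.nodal
      rw [Finset.prod_insert ha]
      rfl
    rw [hn, Finset.sum_insert ha, Finset.sum_insert ha]
    simp only [derivative_mul, derivative_sub, derivative_X, derivative_C, sub_zero, one_mul,
      eval_add, eval_mul, eval_sub, eval_X, eval_C, derivative_add]
    generalize (Lagrange.nodal s (id : ℝ → ℝ)).eval E = Q at *
    generalize (derivative (Lagrange.nodal s (id : ℝ → ℝ))).eval E = Q' at *
    generalize (derivative (derivative (Lagrange.nodal s (id : ℝ → ℝ)))).eval E = Q'' at *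
    generalize ∑ x ∈ s, (E - x)⁻¹ = S1 at *
    generalize ∑ x ∈ s, ((E - x)⁻¹) ^ 2 = S2 at *
    constructor
    · rw [ih1]
      field_simp
    · have h1 : (Q' + (Q' + (E - a) * Q'')) * ((E - a) * Q)
          = 2 * (E - a) * Q * Q' + (E - a) ^ 2 * (Q'' * Q) := by ring
      rw [h1, ih2]
      field_simp
      ring

/-- a polynomial with as many distinct real zeros as its degree -/
theorem vm_form (P : ℝ[X]) (N : ℕ) (hN : 1 ≤ N) (hP : P.natDegree = N) (s : Finset ℝ)
    (hs : ∀ x ∈ s, P.eval x = 0) (hcard : s.card = N) :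
    P = C P.leadingCoeff * Lagrange.nodal s (id : ℝ → ℝ) ∧ P.leadingCoeff ≠ 0 := by
  have hP0 : P ≠ 0 := by
    rintro rfl
    simp at hP
    omega
  have h1 : P.roots = s.val :=
    roots_eq_of_natDegree_le_card_of_ne_zero hs (by omega) hP0
  have h2 : Multiset.card P.roots = P.natDegree := by
    rw [h1, hP]
    exact hcard
  refine ⟨?_, leadingCoeff_ne_zero.2 hP0⟩
  have h3 := C_leadingCoeff_mul_prod_multiset_X_sub_C h2
  rw [h1] at h3
  exact h3.symm

/-- the abstract monotonicity statement -/
theorem vm_abstract (P R : ℝ[X]) (N : ℕ) (hN : 1 ≤ N) (hP : P.natDegree = N)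
    (hR : R.natDegree < N) (s : Finset ℝ) (hs : ∀ x ∈ s, P.eval x = 0) (hcard : s.card = N)
    (lo hi : ℝ) (hlo : ∀ x ∈ s, lo ≤ x) (hhi : ∀ x ∈ s, x ≤ hi)
    (hsign : ∀ c : ℝ, lo < c → c < hi → (derivative P).eval c = 0 → 0 ≤ R.eval c * P.eval c)
    (E₁ E₂ : ℝ) (hE : E₁ ≤ E₂) (hne : ∀ E ∈ Set.Icc E₁ E₂, (derivative P).eval E ≠ 0) :
    R.eval E₁ / (derivative P).eval E₁ ≤ R.eval E₂ / (derivative P).eval E₂ := by
  classical
  obtain ⟨hform, ha⟩ := vm_form P N hN hP s hs hcard
  set a := P.leadingCoeff with hadef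
  set Q := Lagrange.nodal s (id : ℝ → ℝ) with hQ
  have hsne : s.Nonempty := by
    rw [← Finset.card_pos, hcard]; exact hN
  have hP0 : P ≠ 0 := by
    intro h
    rw [hadef, h] at ha
    simp at ha
  have hPeval : ∀ E, P.eval E = a * Q.eval E := by
    intro E
    conv_lhs => rw [hform]
    simp
  have hP'eval : ∀ E, (derivative P).eval E = a * (derivative Q).eval E := by
    intro E
    conv_lhs => rw [hform]
    simp
  have hP''eval : ∀ E, (derivative (derivative P)).eval E
      = a * (derivative (derivative Q)).eval E := by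
    intro E
    conv_lhs => rw [hform]
    simp
  have hQne : ∀ E, E ∉ s → Q.eval E ≠ 0 := by
    intro E hE
    apply Lagrange.eval_nodal_not_at_node
    intro i hi h
    exact hE (by rw [h]; exact hi)
  -- critical points
  have hcrit : ∀ c : ℝ, (derivative P).eval c = 0 →
      c ∉ s ∧ lo < c ∧ c < hi ∧ (derivative (derivative P)).eval c * P.eval c < 0 := by
    intro c hc
    rw [hP'eval] at hc
    have hc' : (derivative Q).eval c = 0 := by
      rcases mul_eq_zero.1 hc with h | h
      · exact absurd h ha
      · exact h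
    have hcs : c ∉ s := by
      intro hcs
      have h1 : eval c (derivative Q) = eval c (Lagrange.nodal (s.erase c) id) :=
        Lagrange.eval_nodal_derivative_eval_node_eq (v := (id : ℝ → ℝ)) hcs
      rw [h1] at hc'
      have h2 : eval c (Lagrange.nodal (s.erase c) (id : ℝ → ℝ)) ≠ 0 := by
        apply Lagrange.eval_nodal_not_at_node
        intro i hi h
        exact (Finset.mem_erase.1 hi).1 h.symm
      exact h2 hc'
    obtain ⟨h1, h2⟩ := vm_nodal s c hcs
    rw [← hQ] at h1 h2
    have hsum : ∑ x ∈ s, (c - x)⁻¹ = 0 := by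
      rw [hc'] at h1
      rcases mul_eq_zero.1 h1.symm with h | h
      · exact absurd h (hQne c hcs)
      · exact h
    have hcx : ∀ x ∈ s, c - x ≠ 0 := by
      intro x hx h
      exact hcs (by rw [sub_eq_zero.1 h]; exact hx)
    refine ⟨hcs, ?_, ?_, ?_⟩
    · by_contra hcon
      push Not at hcon
      have : ∑ x ∈ s, (c - x)⁻¹ < 0 := by
        apply Finset.sum_neg _ hsne
        intro x hx
        apply inv_lt_zero.2
        have := hlo x hx
        have h3 := hcx x hx
        rcases lt_or_eq_of_le (by linarith : c - x ≤ 0) with h | h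
        · exact h
        · exact absurd h h3
      linarith
    · by_contra hcon
      push Not at hcon
      have : 0 < ∑ x ∈ s, (c - x)⁻¹ := by
        apply Finset.sum_pos _ hsne
        intro x hx
        apply inv_pos.2
        have := hhi x hx
        have h3 := hcx x hx
        rcases lt_or_eq_of_le (by linarith : 0 ≤ c - x) with h | h
        · exact h
        · exact absurd h.symm h3
      linarith
    · rw [hP''eval, hPeval]
      have h3 : a * eval c (derivative (derivative Q)) * (a * eval c Q)
          = a ^ 2 * (eval c (derivative (derivative Q)) * eval c Q) := by ring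
      rw [h3, h2, hc']
      have h4 : 0 < ∑ x ∈ s, ((c - x)⁻¹) ^ 2 := by
        apply Finset.sum_pos _ hsne
        intro x hx
        have := inv_ne_zero (hcx x hx)
        positivity
      have h5 : 0 < (eval c Q) ^ 2 := by
        have := hQne c hcs
        positivity
      have h6 : 0 < a ^ 2 := by positivity
      have h7 : 0 < a ^ 2 * ((eval c Q) ^ 2 * ∑ x ∈ s, ((c - x)⁻¹) ^ 2) := by positivity
      nlinarith
  -- the derivative splits
  set t := (derivative P).roots.toFinset with ht
  have hP'0 : derivative P ≠ 0 := by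
    intro h
    have := hne E₁ ⟨le_refl _, hE⟩
    rw [h] at this
    simp at this
  have hdegP' : (derivative P).natDegree ≤ N - 1 := by
    have := natDegree_derivative_le P
    omega
  have htmem : ∀ c, c ∈ t ↔ (derivative P).eval c = 0 := by
    intro c
    rw [ht, Multiset.mem_toFinset, mem_roots hP'0]
    rfl
  have htcard : t.card = N - 1 := by
    apply le_antisymm
    · calc t.card ≤ Multiset.card (derivative P).roots := Multiset.toFinset_card_le _
        _ ≤ (derivative P).natDegree := card_roots' _
        _ ≤ N - 1 := hdegP'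
    · have h1 := card_roots_toFinset_le_derivative P
      rw [← ht] at h1
      have h2 : s ⊆ P.roots.toFinset := by
        intro x hx
        rw [Multiset.mem_toFinset, mem_roots hP0]
        exact hs x hx
      have h3 := Finset.card_le_card h2
      omega
  have hdegP'eq : (derivative P).natDegree = N - 1 := by
    apply le_antisymm hdegP'
    rw [← htcard]
    calc t.card ≤ Multiset.card (derivative P).roots := Multiset.toFinset_card_le _
      _ ≤ (derivative P).natDegree := card_roots' _
  have hform' : derivative P = C (derivative P).leadingCoeff * Lagrange.nodal t (id : ℝ → ℝ) := by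
    have h1 : (derivative P).roots = t.val :=
      roots_eq_of_natDegree_le_card_of_ne_zero (fun x hx => (htmem x).1 hx) (by omega) hP'0
    have h2 : Multiset.card (derivative P).roots = (derivative P).natDegree := by
      rw [h1, hdegP'eq]
      exact htcard
    have h3 := C_leadingCoeff_mul_prod_multiset_X_sub_C h2
    rw [h1] at h3
    exact h3.symm
  set b := (derivative P).leadingCoeff with hb
  have hb0 : b ≠ 0 := leadingCoeff_ne_zero.2 hP'0
  -- subtract a multiple of the derivative
  set l : ℝ := R.coeff (N - 1) / b with hl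
  set R₁ := R - C l * derivative P with hR₁
  have hdegR₁ : R₁.degree < (t.card : ℕ) := by
    rw [htcard]
    rw [degree_lt_iff_coeff_zero]
    intro m hm
    rw [hR₁, coeff_sub, coeff_C_mul]
    rcases Nat.lt_or_ge (N - 1) m with h | h
    · have h1 : R.coeff m = 0 := coeff_eq_zero_of_natDegree_lt (by omega)
      have h2 : (derivative P).coeff m = 0 := coeff_eq_zero_of_natDegree_lt (by omega)
      rw [h1, h2]; ring
    · have hm' : m = N - 1 := by omega
      rw [hm']
      have h3 : (derivative P).coeff (N - 1) = b := by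
        rw [hb, leadingCoeff, hdegP'eq]
      rw [h3, hl]
      field_simp
      ring
  have hinj : Set.InjOn (id : ℝ → ℝ) t := Function.injective_id.injOn
  have hinterp := Lagrange.eq_interpolate (v := (id : ℝ → ℝ)) hinj hdegR₁
  have hfrac : ∀ E, (derivative P).eval E ≠ 0 →
      R.eval E / (derivative P).eval E
        = l + ∑ c ∈ t, (R.eval c / (derivative (derivative P)).eval c) * (E - c)⁻¹ := by
    intro E hE
    have hx : ∀ i ∈ t, E ≠ id i := by
      intro i hi h
      apply hE
      rw [h]
      exact (htmem i).1 hi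
    have h1 : R₁.eval E = eval E (Lagrange.nodal t (id : ℝ → ℝ)) *
        ∑ i ∈ t, Lagrange.nodalWeight t (id : ℝ → ℝ) i * (E - id i)⁻¹ * R₁.eval i := by
      conv_lhs => rw [hinterp]
      rw [Lagrange.eval_interpolate_not_at_node _ hx]
      rfl
    have h2 : (derivative P).eval E = b * eval E (Lagrange.nodal t (id : ℝ → ℝ)) := by
      conv_lhs => rw [hform']
      simp
    have h3 : R.eval E = l * (derivative P).eval E + R₁.eval E := by
      rw [hR₁]; simp
    have h4 : eval E (Lagrange.nodal t (id : ℝ → ℝ)) ≠ 0 := by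
      intro h
      rw [h] at h2
      apply hE
      rw [h2]; ring
    rw [h3, add_div, mul_div_assoc, div_self hE, mul_one, h1, h2]
    congr 1
    rw [mul_comm b, mul_div_mul_left _ _ h4, Finset.sum_div]
    apply Finset.sum_congr rfl
    intro c hc
    have h5 : R₁.eval c = R.eval c := by
      rw [hR₁]
      simp [(htmem c).1 hc]
    have h6 : (derivative (derivative P)).eval c
        = b * eval c (derivative (Lagrange.nodal t (id : ℝ → ℝ))) := by
      conv_lhs => rw [hform']
      simp
    have h7 : Lagrange.nodalWeight t (id : ℝ → ℝ) c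
        = (eval c (derivative (Lagrange.nodal t (id : ℝ → ℝ))))⁻¹ :=
      Lagrange.nodalWeight_eq_eval_derivative_nodal hc
    rw [h5, h6, h7]
    simp only [id]
    rw [div_eq_mul_inv, div_eq_mul_inv, mul_inv]
    ring
  rw [hfrac E₁ (hne E₁ ⟨le_refl _, hE⟩), hfrac E₂ (hne E₂ ⟨hE, le_refl _⟩)]
  apply add_le_add (le_refl _)
  apply Finset.sum_le_sum
  intro c hc
  have hc' := (htmem c).1 hc
  obtain ⟨hcs, hclo, hchi, hneg⟩ := hcrit c hc'
  have hr : R.eval c / (derivative (derivative P)).eval c ≤ 0 := by
    have h1 := hsign c hclo hchi hc'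
    have h2 : P.eval c ≠ 0 := by
      intro h
      rw [h] at hneg
      simp at hneg
    have h3 : (derivative (derivative P)).eval c ≠ 0 := by
      intro h
      rw [h] at hneg
      simp at hneg
    rcases lt_or_gt_of_ne h2 with h | h
    · have h4 : R.eval c ≤ 0 := by nlinarith
      have h5 : 0 < (derivative (derivative P)).eval c := by nlinarith
      exact div_nonpos_of_nonpos_of_nonneg h4 h5.le
    · have h4 : 0 ≤ R.eval c := by nlinarith
      have h5 : (derivative (derivative P)).eval c < 0 := by nlinarith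
      exact div_nonpos_of_nonneg_of_nonpos h4 h5.le
  apply mul_le_mul_of_nonpos_left _ hr
  -- c is not in [E₁, E₂]
  have hcout : c < E₁ ∨ E₂ < c := by
    by_contra hcon
    push Not at hcon
    exact hne c ⟨hcon.1, hcon.2⟩ hc'
  rcases hcout with h | h
  · apply inv_anti₀ (by linarith) (by linarith)
  · have h1 : (c - E₁)⁻¹ ≤ (c - E₂)⁻¹ := inv_anti₀ (by linarith) (by linarith)
    have e1 : (E₁ - c)⁻¹ = -(c - E₁)⁻¹ := by rw [← inv_neg]; congr 1; ring
    have e2 : (E₂ - c)⁻¹ = -(c - E₂)⁻¹ := by rw [← inv_neg]; congr 1; ring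
    rw [e1, e2]
    linarith

/-- the zeros of `X n` are in `[-2, 2 + q]` -/
theorem vm_zero_mem (hNest : Stmt_Nest) (n : ℕ) (hn : 1 ≤ n) (q : ℝ) (hq : 0 < q) (x : ℝ)
    (hx : Pool.Agent.FH.X n x q = 0) : -2 ≤ x ∧ x ≤ 2 + q := by
  rcases Nat.lt_or_ge 1 n with h | h
  · have h1 := hNest n x q (by rw [hx]; simp) 1 (le_refl _) h
    rcases h1 with h1 | h1
    · simp only [Pool.Agent.FH.X] at h1
      rw [abs_le] at h1
      constructor <;> linarith
    · simp only [Pool.Agent.FH.X] at h1
      rw [abs_le] at h1
      constructor <;> linarith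
  · have : n = 1 := by omega
    subst this
    simp only [Pool.Agent.FH.X] at hx
    constructor <;> linarith

theorem VMono_proof (hPoly : Stmt_Poly) (hNest : Stmt_Nest) (hCrit : Stmt_Crit) (hWNe : Stmt_WNe)
    (hRoot : Stmt_RootCard) : Stmt_VMono := by
  classical
  intro n hn E₁ E₂ q hq hE hband
  obtain ⟨P, R, hP, hR, hPX, hPW, hRU⟩ := hPoly n hn q
  have hpi : Real.pi / 2 ∈ Set.Ioo 0 Real.pi :=
    ⟨by positivity, by linarith [Real.pi_pos]⟩
  obtain ⟨hfin, hcard⟩ := hRoot n hn _ hpi q
  rw [Real.cos_pi_div_two] at hfin hcard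
  set s : Finset ℝ := hfin.toFinset with hs
  have hmem : ∀ x, x ∈ s ↔ Pool.Agent.FH.X n x q = 0 := by
    intro x
    rw [hs, Set.Finite.mem_toFinset]
    rfl
  have hscard : s.card = Nat.fib n := by
    rw [← hcard, Set.ncard_eq_toFinset_card _ hfin]
  rw [← hRU E₁, ← hPW E₁, ← hRU E₂, ← hPW E₂]
  apply vm_abstract P R (Nat.fib n) (Nat.fib_pos.2 hn) hP hR s
    (fun x hx => by rw [hPX]; exact (hmem x).1 hx) hscard (-2) (2 + q)
    (fun x hx => (vm_zero_mem hNest n hn q hq x ((hmem x).1 hx)).1)
    (fun x hx => (vm_zero_mem hNest n hn q hq x ((hmem x).1 hx)).2)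
  · intro c h1 h2 h3
    rw [hPW] at h3
    rw [hRU, hPX]
    exact hCrit n hn c q hq h1 h2 h3
  · exact hE
  · intro E hE'
    rw [hPW]
    exact hWNe n hn E q hq.le (hband E hE')

end Pool.Agent.FH
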