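import Pool.Agent.FH.Crit
import Pool.Agent.FH.Shrink
import Pool.Agent.FH.Cover
import Pool.Agent.FH.VMono
import Pool.Agent.FH.Lam
import Pool.Agent.FH.Herm
import Pool.Agent.FH.HermAbs
import Pool.Agent.FH.FibW
import Pool.Agent.FH.Spec1

/-! Assembly. -/

set_option autoImplicit false

namespace Pool.Agent.FH

theorem rootCard_final : Stmt_RootCard := RootCard_proof hermCard_proof wordTr_proof

theorem lam_final : Stmt_Lam := Lam_proof rootCard_final (hermLip_proof hermAbs_proof) wordTr_proof

theorem count_final : Stmt_Count :=
  Count_proof rootCard_final (hermAdd_proof hermAbs_proof) (hermPhase_proof hermAbs_proof)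
    wordTr_proof

theorem vmono_final : Stmt_VMono :=
  VMono_proof poly_proof nest_proof Crit_proof WNe_proof rootCard_final

theorem shrink_final : Stmt_Shrink := shrink_proof deriv_proof WNe_proof lam_final vmono_final

theorem cover_final : Stmt_Cover :=
  cover_proof count_final (BandLam_proof rootCard_final) shrink_final (band0_proof lam_final)
    nest_proof poly_proof

theorem spec1_final : Stmt_Spec1 := Spec1_proof wordTr_proof fibWord_proof fibPer_proof

theorem final_mod (h2 : Stmt_Spec2) : Stmt_Final := final_of cover_final spec1_final h2

end Pool.Agent.FH
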