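import Pool.Agent.FH.Stmts

/-! The pivot invariant. -/

set_option autoImplicit false

namespace Pool.Agent.FH

/-- key identity and inequality at a pivot -/
theorem q1 {c Z0 Z1 a0 a1 h : ℝ} (hc : c ^ 2 < 1)
    (inv : Z0 ^ 2 + Z1 ^ 2 + c ^ 2 - 2 * c * Z0 * Z1 - 1 = h ^ 2)
    (hB : a1 * (c * Z0 - Z1) - a0 * (Z0 - c * Z1) = h)
    (hQ : a0 ^ 2 + a1 ^ 2 - 2 * c * a0 * a1 ≤ 1) :
    (1 - c ^ 2) * a1 ^ 2 + (Z1 + h * a1) ^ 2 ≤ 1 := by
  have hY1 : (Z0 - c * Z1) ^ 2 = (1 - c ^ 2) * (1 - Z1 ^ 2) + h ^ 2 := by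
    linear_combination inv
  have hYY : (c * Z0 - Z1) ^ 2 + (Z0 - c * Z1) ^ 2 - 2 * c * (c * Z0 - Z1) * (Z0 - c * Z1)
      = (1 - c ^ 2) * ((1 - c ^ 2) + h ^ 2) := by
    linear_combination (1 - c ^ 2) * inv
  have e1 : a0 * (Z0 - c * Z1) = a1 * (c * Z0 - Z1) - h := by linear_combination -hB
  have e2 : a0 ^ 2 * (Z0 - c * Z1) ^ 2 = (a1 * (c * Z0 - Z1) - h) ^ 2 := by
    rw [← e1]; ring
  have e3 : a0 * a1 * (Z0 - c * Z1) ^ 2
      = a1 * (Z0 - c * Z1) * (a1 * (c * Z0 - Z1) - h) := by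
    rw [← e1]; ring
  have key : (1 - c ^ 2) * (1 - ((1 - c ^ 2) * a1 ^ 2 + (Z1 + h * a1) ^ 2))
      = (1 - (a0 ^ 2 + a1 ^ 2 - 2 * c * a0 * a1)) * (Z0 - c * Z1) ^ 2 := by
    linear_combination e2 - 2 * c * e3 + a1 ^ 2 * hYY - hY1
  have h1 : 0 ≤ (1 - c ^ 2) * (1 - ((1 - c ^ 2) * a1 ^ 2 + (Z1 + h * a1) ^ 2)) := by
    rw [key]; exact mul_nonneg (by linarith) (sq_nonneg _)
  have h2 : 0 < 1 - c ^ 2 := by linarith
  have := nonneg_of_mul_nonneg_right h1 h2
  linarith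

/-- the common core of the two steps -/
theorem pivCore {h c Z0 Z1 a0 a1 ω0 ω1 p : ℝ} (hh : 0 ≤ h) (hc : c ^ 2 < 1)
    (inv : Z0 ^ 2 + Z1 ^ 2 + c ^ 2 - 2 * c * Z0 * Z1 - 1 = h ^ 2)
    (hB : a1 * (c * Z0 - Z1) - a0 * (Z0 - c * Z1) = h)
    (hQ : a0 ^ 2 + a1 ^ 2 - 2 * c * a0 * a1 ≤ 1)
    (ha0 : |a0| ≤ p)
    (hω0 : (1 - c ^ 2) * ω0 = p * (c * Z0 - Z1) - h * c * a0)
    (hω1 : (1 - c ^ 2) * ω1 = (1 + p) * (Z0 - c * Z1) - h * c * a1)
    (hZ1 : Z1 ^ 2 < 1) :
    ω1 ≠ 0 ∧ ∃ μ : ℝ, |a1 / ω1| ≤ μ ∧ |(a0 * ω1 - a1 * ω0) / ω1| ≤ 1 - μ ∧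
      (1 - Z1 ^ 2) = μ * (Z0 - c * Z1) * ω1 + h * Z1 * a1 ∧
      (1 - Z1 ^ 2) * ω0 = -(1 - μ) * (Z1 * Z0 - c) * ω1 - h * Z1 * (a0 * ω1 - a1 * ω0) := by
  have s2 : 0 < 1 - c ^ 2 := by linarith
  have s2' : 0 < 1 - Z1 ^ 2 := by linarith
  have hp : 0 ≤ p := le_trans (abs_nonneg _) ha0
  have hq1 := q1 hc inv hB hQ
  set Y := Z0 - c * Z1 with hY
  have hYsq : Y ^ 2 = (1 - c ^ 2) * (1 - Z1 ^ 2) + h ^ 2 := by
    rw [hY]; linear_combination inv
  have hYpos : 0 < Y ^ 2 := by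
    rw [hYsq]; have := mul_pos s2 s2'; positivity
  have hYne : Y ≠ 0 := by
    intro h0; rw [h0] at hYpos; simp at hYpos
  have hYh : h ≤ |Y| := by
    apply abs_le_of_sq_le_sq' _ (abs_nonneg _) |>.2
    rw [sq_abs, hYsq]; have := mul_pos s2 s2'; linarith
  set T1 := (1 - Z1 ^ 2) - h * Z1 * a1 with hT1
  have hTpos : 0 < T1 := by
    have : 0 ≤ (1 - c ^ 2) * a1 ^ 2 := mul_nonneg s2.le (sq_nonneg _)
    have h3 : (Z1 + h * a1) ^ 2 ≤ 1 := by linarith
    nlinarith [sq_nonneg (h * a1)]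
  have hT1' : |Y * a1| ≤ T1 := by
    apply abs_le_of_sq_le_sq _ hTpos.le
    have : T1 ^ 2 - (Y * a1) ^ 2
        = (1 - Z1 ^ 2) * (1 - ((1 - c ^ 2) * a1 ^ 2 + (Z1 + h * a1) ^ 2)) := by
      rw [mul_pow, hYsq, hT1]; ring
    have h4 : 0 ≤ (1 - Z1 ^ 2) * (1 - ((1 - c ^ 2) * a1 ^ 2 + (Z1 + h * a1) ^ 2)) :=
      mul_nonneg s2'.le (by linarith)
    linarith
  -- the decomposition
  have hdec : (1 - c ^ 2) * (Y * ω1) = (1 - c ^ 2) * T1 + Y * (p * Y - h * a0) := by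
    have e : (1 - c ^ 2) * (Y * ω1) = (1 + p) * Y ^ 2 - h * c * a1 * Y := by
      linear_combination Y * hω1
    have e' : h * (a1 * (c * Z0 - Z1) - a0 * Y) = h * h := by rw [hB]
    rw [e, hT1]
    linear_combination hYsq - e' + (a1 * h) * (c * hY)
  have hterm : 0 ≤ Y * (p * Y - h * a0) := by
    have h5 : h * a0 * Y ≤ p * Y ^ 2 := by
      have h6 : h * a0 * Y ≤ h * |a0| * |Y| := by
        calc h * a0 * Y ≤ |h * a0 * Y| := le_abs_self _
          _ = h * |a0| * |Y| := by rw [abs_mul, abs_mul, abs_of_nonneg hh]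
      have h7 : h * |a0| * |Y| ≤ |Y| * p * |Y| := by
        apply mul_le_mul_of_nonneg_right _ (abs_nonneg _)
        exact mul_le_mul hYh ha0 (abs_nonneg _) (abs_nonneg _)
      have h8 : |Y| * p * |Y| = p * Y ^ 2 := by rw [← sq_abs Y]; ring
      linarith
    nlinarith
  have hYω : 0 < Y * ω1 := by
    have h9 : 0 < (1 - c ^ 2) * (Y * ω1) := by
      rw [hdec]; have := mul_pos s2 hTpos; linarith
    exact (pos_iff_pos_of_mul_pos h9).1 s2
  have hω1ne : ω1 ≠ 0 := by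
    intro h0; rw [h0] at hYω; simp at hYω
  refine ⟨hω1ne, T1 / (Y * ω1), ?_, ?_, ?_, ?_⟩
  · -- |a1/ω1| ≤ μ
    rw [le_div_iff₀ hYω, abs_div]
    have : |a1| / |ω1| * (Y * ω1) = |Y * a1| := by
      have h10 : Y * ω1 = |Y| * |ω1| := by rw [← abs_mul, abs_of_pos hYω]
      rw [h10, abs_mul]
      have : |ω1| ≠ 0 := abs_ne_zero.2 hω1ne
      field_simp
    rw [this]; exact hT1'
  · -- second
    have hc1 : 1 - T1 / (Y * ω1) = (Y * (p * Y - h * a0)) / ((1 - c ^ 2) * (Y * ω1)) := by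
      have h11 : (1 - c ^ 2) * (Y * ω1) ≠ 0 := (mul_pos s2 hYω).ne'
      rw [eq_div_iff h11, sub_mul, one_mul]
      have : T1 / (Y * ω1) * ((1 - c ^ 2) * (Y * ω1)) = (1 - c ^ 2) * T1 := by
        field_simp
      rw [this, hdec]; ring
    have hc2 : (a0 * ω1 - a1 * ω0) / ω1
        = (Y * (Y * a0 - p * h)) / ((1 - c ^ 2) * (Y * ω1)) := by
      have h11 : (1 - c ^ 2) * (Y * ω1) ≠ 0 := (mul_pos s2 hYω).ne'
      rw [div_eq_div_iff hω1ne h11]
      have : (1 - c ^ 2) * (a0 * ω1 - a1 * ω0) = Y * a0 - p * h := by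
        linear_combination a0 * hω1 - a1 * hω0 - p * hB
      linear_combination (Y * ω1) * this
    rw [hc1, hc2, abs_div, abs_of_pos (mul_pos s2 hYω)]
    apply div_le_div_of_nonneg_right _ (mul_pos s2 hYω).le
    apply abs_le_of_sq_le_sq _ hterm
    have hpa : 0 ≤ p ^ 2 - a0 ^ 2 := by
      have := sq_le_sq' (by linarith [neg_abs_le a0]) (le_trans (le_abs_self a0) ha0)
      linarith
    have hyh : 0 ≤ Y ^ 2 - h ^ 2 := by
      rw [hYsq]; have := mul_pos s2 s2'; linarith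
    have : (Y * (p * Y - h * a0)) ^ 2 - (Y * (Y * a0 - p * h)) ^ 2
        = Y ^ 2 * ((p ^ 2 - a0 ^ 2) * (Y ^ 2 - h ^ 2)) := by ring
    have h12 : 0 ≤ Y ^ 2 * ((p ^ 2 - a0 ^ 2) * (Y ^ 2 - h ^ 2)) :=
      mul_nonneg (sq_nonneg _) (mul_nonneg hpa hyh)
    linarith
  · have : T1 / (Y * ω1) * Y * ω1 = T1 := by field_simp
    rw [this, hT1]; ring
  · -- R2
    have hμ : (1 - T1 / (Y * ω1)) * ω1 * (1 - c ^ 2) = p * Y - h * a0 := by
      have : (1 - T1 / (Y * ω1)) * ω1 * (1 - c ^ 2) * Y = (p * Y - h * a0) * Y := by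
        have h13 : T1 / (Y * ω1) * ω1 * Y = T1 := by field_simp
        linear_combination hdec - (1 - c ^ 2) * h13
      exact mul_right_cancel₀ hYne this
    have hYY : (c * Z0 - Z1) * Y = h ^ 2 * c + (1 - c ^ 2) * (c - Z0 * Z1) := by
      rw [hY]; linear_combination c * inv
    have hm : Z1 * Z0 - c = Z1 * Y - c * (1 - Z1 ^ 2) := by rw [hY]; ring
    have hn : (1 - Z1 ^ 2) * (c * Z0 - Z1) = - Y * (Z1 * Z0 - c) + h ^ 2 * Z1 := by
      rw [hY]; linear_combination Z1 * inv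
    have hcr : (1 - c ^ 2) * (a0 * ω1 - a1 * ω0) = Y * a0 - p * h := by
      linear_combination a0 * hω1 - a1 * hω0 - p * hB
    have : (1 - c ^ 2) * ((1 - Z1 ^ 2) * ω0) = (1 - c ^ 2) *
        (-(1 - T1 / (Y * ω1)) * (Z1 * Z0 - c) * ω1 - h * Z1 * (a0 * ω1 - a1 * ω0)) := by
      linear_combination (1 - Z1 ^ 2) * hω0 + (Z1 * Z0 - c) * hμ + h * Z1 * hcr + p * hn
        - h * a0 * hm
    exact mul_left_cancel₀ s2.ne' this

theorem X_rec (n : ℕ) (E q : ℝ) : X (n + 3) E q = 2 * X (n + 2) E q * X (n + 1) E q - X n E q := rfl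
theorem W_rec (n : ℕ) (E q : ℝ) : W (n + 3) E q =
    2 * (W (n + 2) E q * X (n + 1) E q + X (n + 2) E q * W (n + 1) E q) - W n E q := rfl
theorem U_rec (n : ℕ) (E q : ℝ) : U (n + 3) E q =
    2 * (U (n + 2) E q * X (n + 1) E q + X (n + 2) E q * U (n + 1) E q) - U n E q := rfl

/-- the invariant of the trace map -/
theorem X_inv (n : ℕ) (E q : ℝ) :
    X n E q ^ 2 + X (n + 1) E q ^ 2 + X (n + 2) E q ^ 2
      - 2 * X n E q * X (n + 1) E q * X (n + 2) E q - 1 = (q / 2) ^ 2 := by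
  induction n with
  | zero => simp only [X]; ring
  | succ n ih => rw [show n + 1 + 2 = n + 3 from rfl, show n + 1 + 1 = n + 2 from rfl, X_rec]
                 linear_combination ih

theorem W_inv (n : ℕ) (E q : ℝ) :
    X n E q * W n E q + X (n + 1) E q * W (n + 1) E q + X (n + 2) E q * W (n + 2) E q
      - (W n E q * X (n + 1) E q * X (n + 2) E q + X n E q * W (n + 1) E q * X (n + 2) E q
        + X n E q * X (n + 1) E q * W (n + 2) E q) = 0 := by
  induction n with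
  | zero => simp only [X, W]; ring
  | succ n ih =>
    rw [show n + 1 + 2 = n + 3 from rfl, show n + 1 + 1 = n + 2 from rfl, X_rec, W_rec]
    linear_combination ih

theorem U_inv (n : ℕ) (E q : ℝ) :
    X n E q * U n E q + X (n + 1) E q * U (n + 1) E q + X (n + 2) E q * U (n + 2) E q
      - (U n E q * X (n + 1) E q * X (n + 2) E q + X n E q * U (n + 1) E q * X (n + 2) E q
        + X n E q * X (n + 1) E q * U (n + 2) E q) = q / 4 := by
  induction n with
  | zero => simp only [X, U]; ring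
  | succ n ih =>
    rw [show n + 1 + 2 = n + 3 from rfl, show n + 1 + 1 = n + 2 from rfl, X_rec, U_rec]
    linear_combination ih

/-- `A n j = -2 (U j + v W j)` with `v = - U (n+1) / W (n+1)` -/
noncomputable def A (n j : ℕ) (E q : ℝ) : ℝ :=
  (-2) * (U j E q - U (n + 1) E q / W (n + 1) E q * W j E q)

/-- the full pivot invariant at index `n + 1` -/
def PInv (n : ℕ) (E q : ℝ) : Prop :=
  W (n + 1) E q ≠ 0 ∧ ∃ p : ℝ, |A n n E q| ≤ p ∧
    |2 * X (n + 1) E q * A n n E q - A n (n + 2) E q| ≤ 1 - p ∧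
    (1 - X (n + 1) E q ^ 2) * (W n E q / W (n + 1) E q)
      = p * (X (n + 1) E q * X n E q - X (n + 2) E q) - q / 2 * X (n + 1) E q * A n n E q ∧
    (1 - X (n + 1) E q ^ 2) * (W (n + 2) E q / W (n + 1) E q)
      = (1 + p) * (X n E q - X (n + 1) E q * X (n + 2) E q)
        - q / 2 * X (n + 1) E q * A n (n + 2) E q

theorem A_B (n : ℕ) (E q : ℝ) (hW : W (n + 1) E q ≠ 0) :
    A n (n + 2) E q * (X (n + 1) E q * X n E q - X (n + 2) E q)
      - A n n E q * (X n E q - X (n + 1) E q * X (n + 2) E q) = q / 2 := by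
  have h1 := W_inv n E q
  have h2 := U_inv n E q
  unfold A
  have e : U (n + 1) E q / W (n + 1) E q * W (n + 1) E q = U (n + 1) E q := by field_simp
  set r := U (n + 1) E q / W (n + 1) E q
  linear_combination 2 * h2 - 2 * r * h1 + 2 * (X (n + 1) E q - X n E q * X (n + 2) E q) * e

theorem Q_le {c a0 a1 p : ℝ} (hc : c ^ 2 < 1) (h0 : |a0| ≤ p) (h1 : |2 * c * a0 - a1| ≤ 1 - p) :
    a0 ^ 2 + a1 ^ 2 - 2 * c * a0 * a1 ≤ 1 := by
  have hcc : |c| ≤ 1 := by
    have := abs_le_of_sq_le_sq (a := c) (b := 1) (by linarith) (by norm_num); exact this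
  set m := 2 * c * a0 - a1 with hm
  have e : a0 ^ 2 + a1 ^ 2 - 2 * c * a0 * a1 = a0 ^ 2 + m ^ 2 - 2 * c * a0 * m := by
    rw [hm]; ring
  rw [e]
  have h2 : -(2 * c * a0 * m) ≤ 2 * |a0| * |m| := by
    calc -(2 * c * a0 * m) ≤ |2 * c * a0 * m| := neg_le_abs _
      _ = 2 * |c| * |a0| * |m| := by rw [abs_mul, abs_mul, abs_mul]; norm_num
      _ ≤ 2 * 1 * |a0| * |m| := by gcongr
      _ = _ := by ring
  have h3 : |a0| + |m| ≤ 1 := by linarith
  have h4 : (|a0| + |m|) ^ 2 ≤ 1 := by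
    have h5 : 0 ≤ |a0| + |m| := by positivity
    nlinarith
  nlinarith [sq_abs a0, sq_abs m]

theorem nextω {h c Zm Z0 am a0 ωm ω0 p : ℝ}
    (h1 : (1 - c ^ 2) * ωm = (p - 1) * (c * Zm - Z0) - h * c * am)
    (h2 : (1 - c ^ 2) * ω0 = p * (Zm - c * Z0) - h * c * a0) :
    (1 - c ^ 2) * (2 * c * ω0 + 2 * Z0 - ωm)
      = (1 + p) * (Z0 - c * (2 * c * Z0 - Zm)) - h * c * (2 * c * a0 - am) := by
  linear_combination 2 * c * h2 - h1

theorem PInv_one (E q : ℝ) : PInv 0 E q := by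
  refine ⟨by simp [W], 0, ?_, ?_, ?_, ?_⟩
  · simp [A, U, W]
  · simp only [A, U, W, X]; norm_num
  · simp only [A, U, W, X]; norm_num
  · simp only [A, U, W, X]; norm_num; ring

theorem PInv_two (E q : ℝ) : PInv 1 E q := by
  refine ⟨by simp [W], 1, ?_, ?_, ?_, ?_⟩
  · simp only [A, U, W]; norm_num
  · simp only [A, U, W, X]; norm_num
    ring
  · simp only [A, U, W, X]; norm_num; ring
  · simp only [A, U, W, X]; norm_num; ring

theorem sq_lt_of_abs {x : ℝ} (h : |x| < 1) : x ^ 2 < 1 := by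
  have := sq_lt_sq' (by linarith [(abs_lt.1 h).1]) (abs_lt.1 h).2
  simpa using this

/-- step from the pivot `n + 1` to the pivot `n + 2` -/
theorem PInv_step1 {n : ℕ} {E q : ℝ} (hq : 0 ≤ q) (hc : |X (n + 1) E q| < 1) (hP : PInv n E q)
    (hZ : |X (n + 2) E q| < 1) : PInv (n + 1) E q := by
  obtain ⟨hW, p, h0, h1, hω0, hω1⟩ := hP
  have hc2 := sq_lt_of_abs hc
  have hZ2 := sq_lt_of_abs hZ
  have inv := X_inv n E q
  have hB := A_B n E q hW
  obtain ⟨hne, μ, hμ0, hμ1, R1, R2⟩ := pivCore (h := q / 2) (by linarith) hc2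
    (by linear_combination inv) hB (Q_le hc2 h0 h1) h0 hω0 hω1 hZ2
  have hW2 : W (n + 2) E q ≠ 0 := by
    intro h; apply hne; rw [h]; simp
  set r := U (n + 2) E q / W (n + 2) E q with hr
  have er : r * W (n + 2) E q = U (n + 2) E q := by rw [hr]; field_simp
  have eA0 : A (n + 1) (n + 1) E q
      = -(A n (n + 2) E q / (W (n + 2) E q / W (n + 1) E q)) := by
    simp only [A]
    rw [show n + 1 + 1 = n + 2 from rfl]
    field_simp
    ring
  have eAm : 2 * X (n + 2) E q * A (n + 1) (n + 1) E q - A (n + 1) (n + 3) E q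
      = (A n n E q * (W (n + 2) E q / W (n + 1) E q)
        - A n (n + 2) E q * (W n E q / W (n + 1) E q)) / (W (n + 2) E q / W (n + 1) E q) := by
    have e1 : 2 * X (n + 2) E q * A (n + 1) (n + 1) E q - A (n + 1) (n + 3) E q
        = (-2) * (U n E q - r * W n E q) := by
      simp only [A]
      rw [show n + 1 + 1 = n + 2 from rfl, W_rec, U_rec, ← hr]
      linear_combination (4 * X (n + 1) E q) * (- er)
    rw [e1, hr]
    simp only [A]
    field_simp
    ring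
  have hii : W (n + 1) E q / W (n + 2) E q * (W (n + 2) E q / W (n + 1) E q) = 1 := by
    field_simp
  have hio : W n E q / W (n + 2) E q
      = W (n + 1) E q / W (n + 2) E q * (W n E q / W (n + 1) E q) := by
    field_simp
  have hA0' : A (n + 1) (n + 1) E q
      = -(A n (n + 2) E q * (W (n + 1) E q / W (n + 2) E q)) := by
    rw [eA0]; field_simp
  have hAm' : 2 * X (n + 2) E q * A (n + 1) (n + 1) E q - A (n + 1) (n + 3) E q
      = (W (n + 1) E q / W (n + 2) E q) * (A n n E q * (W (n + 2) E q / W (n + 1) E q)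
        - A n (n + 2) E q * (W n E q / W (n + 1) E q)) := by
    rw [eAm]; field_simp
  set i1 := W (n + 1) E q / W (n + 2) E q with hi1
  set ω1 := W (n + 2) E q / W (n + 1) E q with hω1'
  set ω0 := W n E q / W (n + 1) E q with hω0'
  have G3 : (1 - X (n + 2) E q ^ 2) * i1
      = μ * (X n E q - X (n + 2) E q * X (n + 1) E q)
        - q / 2 * X (n + 2) E q * A (n + 1) (n + 1) E q := by
    rw [hA0']
    linear_combination i1 * R1 + μ * (X n E q - X (n + 1) E q * X (n + 2) E q) * hii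
  have Gm : (1 - X (n + 2) E q ^ 2) * (i1 * ω0)
      = (μ - 1) * (X (n + 2) E q * X n E q - X (n + 1) E q)
        - q / 2 * X (n + 2) E q
          * (2 * X (n + 2) E q * A (n + 1) (n + 1) E q - A (n + 1) (n + 3) E q) := by
    rw [hAm']
    linear_combination i1 * R2
      - (1 - μ) * (X (n + 2) E q * X n E q - X (n + 1) E q) * hii
  have Gn := nextω Gm G3
  have eW3 : W (n + 3) E q / W (n + 2) E q
      = 2 * X (n + 2) E q * i1 + 2 * X (n + 1) E q - i1 * ω0 := by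
    rw [W_rec, ← hio, hi1]; field_simp; ring
  refine ⟨hW2, μ, ?_, ?_, ?_, ?_⟩
  · rw [eA0, abs_neg]; exact hμ0
  · rw [show n + 1 + 2 = n + 3 from rfl, show n + 1 + 1 = n + 2 from rfl, eAm]; exact hμ1
  · rw [show n + 1 + 2 = n + 3 from rfl, show n + 1 + 1 = n + 2 from rfl, ← hi1, G3, X_rec]
    ring
  · rw [show n + 1 + 2 = n + 3 from rfl, show n + 1 + 1 = n + 2 from rfl, eW3, Gn, X_rec]
    ring

/-- step from the pivot `n + 1` to the pivot `n + 3` -/
theorem PInv_step2 {n : ℕ} {E q : ℝ} (hq : 0 ≤ q) (hc : |X (n + 1) E q| < 1) (hP : PInv n E q)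
    (hZ : |X (n + 3) E q| < 1) : PInv (n + 2) E q := by
  obtain ⟨hW, p, h0, h1, hω0, hω1⟩ := hP
  have hc2 := sq_lt_of_abs hc
  have hZ2 := sq_lt_of_abs hZ
  have inv := X_inv n E q
  have hB := A_B n E q hW
  have hQ := Q_le hc2 h0 h1
  have hp1 : |A n (n + 2) E q| ≤ 1 + p := by
    have e : A n (n + 2) E q = 2 * X (n + 1) E q * A n n E q
      - (2 * X (n + 1) E q * A n n E q - A n (n + 2) E q) := by ring
    have e2 : |2 * X (n + 1) E q * A n n E q| ≤ 2 * p := by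
      rw [abs_mul, abs_mul]
      have : |X (n + 1) E q| * |A n n E q| ≤ 1 * p :=
        mul_le_mul hc.le h0 (abs_nonneg _) (by norm_num)
      rw [show |(2 : ℝ)| = 2 by norm_num]
      nlinarith
    calc |A n (n + 2) E q| = |2 * X (n + 1) E q * A n n E q
      - (2 * X (n + 1) E q * A n n E q - A n (n + 2) E q)| := by rw [← e]
      _ ≤ |2 * X (n + 1) E q * A n n E q|
        + |2 * X (n + 1) E q * A n n E q - A n (n + 2) E q| := abs_sub _ _
      _ ≤ 1 + p := by linarith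
  -- shifted data
  have ρ : U (n + 1) E q / W (n + 1) E q * W (n + 1) E q = U (n + 1) E q := by field_simp
  have eA3 : A n (n + 3) E q = 2 * X (n + 1) E q * A n (n + 2) E q - A n n E q := by
    simp only [A]
    rw [W_rec, U_rec]
    linear_combination (4 * X (n + 2) E q) * ρ
  set ω0 := W n E q / W (n + 1) E q with hω0'
  set ω1 := W (n + 2) E q / W (n + 1) E q with hω1'
  set ω2 := W (n + 3) E q / W (n + 1) E q with hω2'
  have eω2 : ω2 = 2 * X (n + 1) E q * ω1 + 2 * X (n + 2) E q - ω0 := by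
    rw [hω2', hω1', hω0', W_rec]; field_simp
  have hX4 : X (n + 4) E q = 2 * X (n + 3) E q * X (n + 2) E q - X (n + 1) E q := rfl
  have hW4 : W (n + 4) E q =
      2 * (W (n + 3) E q * X (n + 2) E q + X (n + 3) E q * W (n + 2) E q) - W (n + 1) E q := rfl
  have hU4 : U (n + 4) E q =
      2 * (U (n + 3) E q * X (n + 2) E q + X (n + 3) E q * U (n + 2) E q) - U (n + 1) E q := rfl
  obtain ⟨hne, μ, hμ0, hμ1, R1, R2⟩ := pivCore (h := q / 2) (c := X (n + 1) E q)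
    (Z0 := X (n + 2) E q) (Z1 := X (n + 3) E q) (a0 := A n (n + 2) E q) (a1 := A n (n + 3) E q)
    (ω0 := ω1) (ω1 := ω2) (p := 1 + p) (by linarith) hc2
    (by rw [X_rec]; linear_combination inv)
    (by rw [X_rec, eA3]; linear_combination hB)
    (by rw [eA3]; linarith [hQ])
    hp1
    (by rw [X_rec]; linear_combination hω1)
    (by
      rw [eω2, eA3, X_rec]
      linear_combination (2 * X (n + 1) E q) * hω1 - hω0)
    hZ2
  have hW2 : W (n + 3) E q ≠ 0 := by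
    intro h; apply hne; rw [hω2', h]; simp
  set r := U (n + 3) E q / W (n + 3) E q with hr
  have er : r * W (n + 3) E q = U (n + 3) E q := by rw [hr]; field_simp
  set i2 := W (n + 1) E q / W (n + 3) E q with hi2
  have hii : i2 * ω2 = 1 := by rw [hi2, hω2']; field_simp
  have hio : W (n + 2) E q / W (n + 3) E q = i2 * ω1 := by rw [hi2, hω1']; field_simp
  -- A'' at Z_{-1}: index n+1
  have eAm : 2 * X (n + 3) E q * A (n + 2) (n + 2) E q - A (n + 2) (n + 4) E q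
      = -(A n (n + 3) E q * i2) := by
    have e1 : 2 * X (n + 3) E q * A (n + 2) (n + 2) E q - A (n + 2) (n + 4) E q
        = (-2) * (U (n + 1) E q - r * W (n + 1) E q) := by
      simp only [A]
      rw [show n + 2 + 1 = n + 3 from rfl, hW4, hU4, ← hr]
      linear_combination (4 * X (n + 2) E q) * (- er)
    rw [e1, hr, hi2]
    simp only [A]
    field_simp
    ring
  have eA0 : A (n + 2) (n + 2) E q
      = i2 * (A n (n + 2) E q * ω2 - A n (n + 3) E q * ω1) := by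
    simp only [A]
    rw [show n + 2 + 1 = n + 3 from rfl, hi2, hω2', hω1']
    field_simp
    ring
  have G3 : (1 - X (n + 3) E q ^ 2) * (i2 * ω1)
      = (1 - μ) * (X (n + 1) E q - X (n + 3) E q * X (n + 2) E q)
        - q / 2 * X (n + 3) E q * A (n + 2) (n + 2) E q := by
    rw [eA0]
    linear_combination i2 * R2
      + (1 - μ) * (X (n + 1) E q - X (n + 3) E q * X (n + 2) E q) * hii
  have Gm : (1 - X (n + 3) E q ^ 2) * i2
      = ((1 - μ) - 1) * (X (n + 3) E q * X (n + 1) E q - X (n + 2) E q)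
        - q / 2 * X (n + 3) E q
          * (2 * X (n + 3) E q * A (n + 2) (n + 2) E q - A (n + 2) (n + 4) E q) := by
    rw [eAm]
    linear_combination i2 * R1 + μ * (X (n + 2) E q - X (n + 1) E q * X (n + 3) E q) * hii
  have Gn := nextω Gm G3
  have eW3 : W (n + 4) E q / W (n + 3) E q
      = 2 * X (n + 3) E q * (i2 * ω1) + 2 * X (n + 2) E q - i2 := by
    rw [hW4, ← hio, hi2]
    field_simp; ring
  refine ⟨hW2, 1 - μ, ?_, ?_, ?_, ?_⟩
  · rw [eA0]
    have : i2 * (A n (n + 2) E q * ω2 - A n (n + 3) E q * ω1)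
        = (A n (n + 2) E q * ω2 - A n (n + 3) E q * ω1) / ω2 := by
      rw [eq_div_iff hne]; linear_combination (A n (n + 2) E q * ω2 - A n (n + 3) E q * ω1) * hii
    rw [this]; exact hμ1
  · rw [show n + 2 + 2 = n + 4 from rfl, show n + 2 + 1 = n + 3 from rfl, eAm, abs_neg]
    have : A n (n + 3) E q * i2 = A n (n + 3) E q / ω2 := by
      rw [eq_div_iff hne]; linear_combination A n (n + 3) E q * hii
    rw [this]; linarith [hμ0]
  · rw [show n + 2 + 2 = n + 4 from rfl, show n + 2 + 1 = n + 3 from rfl, hio, G3, hX4]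
    ring
  · rw [show n + 2 + 2 = n + 4 from rfl, show n + 2 + 1 = n + 3 from rfl, eW3, Gn, hX4]
    ring

/-- one step of the growth of `|X|` -/
theorem growX {x0 x1 x2 : ℝ} (h1 : 1 ≤ |x1|) (h2 : 1 ≤ |x2|) (h0 : |x0| ≤ |x2|) :
    |x1| ≤ |2 * x2 * x1 - x0| := by
  have h3 : |2 * x2 * x1| - |x0| ≤ |2 * x2 * x1 - x0| := abs_sub_abs_le_abs_sub _ _
  have h4 : |2 * x2 * x1| = 2 * |x2| * |x1| := by rw [abs_mul, abs_mul]; norm_num
  rw [h4] at h3
  nlinarith [mul_le_mul h2 h1 (by norm_num) (abs_nonneg x2)]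

/-- one step of the growth of `b` -/
theorem growB {x0 x1 x2 b0 b1 b2 : ℝ} (h1 : 1 ≤ |x1|) (h2 : 1 ≤ |x2|) (h0 : |x0| ≤ |x2|)
    (hb1 : 0 ≤ b1 * x1) (hb2 : 0 ≤ b2 * x2) (hb0 : |b0| ≤ |b2|) :
    0 ≤ (2 * (b2 * x1 + x2 * b1) - b0) * (2 * x2 * x1 - x0) ∧
      |b1| ≤ |2 * (b2 * x1 + x2 * b1) - b0| := by
  set m := x2 * x1 with hm
  have hmabs : |m| = |x2| * |x1| := abs_mul _ _
  have hm1 : 1 ≤ |m| := by rw [hmabs]; nlinarith
  have hmpos : 0 < |m| := by linarith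
  have hx3 : 0 ≤ (2 * x2 * x1 - x0) * m := by
    have h5 : x0 * m ≤ |m| * |m| := by
      calc x0 * m ≤ |x0 * m| := le_abs_self _
        _ = |x0| * |m| := abs_mul _ _
        _ ≤ |m| * |m| := by
          apply mul_le_mul_of_nonneg_right _ (abs_nonneg _)
          rw [hmabs]; nlinarith [abs_nonneg x2]
    have h6 : |m| * |m| = m * m := abs_mul_abs_self m
    have : (2 * x2 * x1 - x0) * m = 2 * (m * m) - x0 * m := by rw [hm]; ring
    rw [this]; nlinarith [mul_self_nonneg m]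
  have e1 : b1 * x1 = |b1| * |x1| := by rw [← abs_mul, abs_of_nonneg hb1]
  have e2 : b2 * x2 = |b2| * |x2| := by rw [← abs_mul, abs_of_nonneg hb2]
  have hb3 : |m| * |b1| ≤ (2 * (b2 * x1 + x2 * b1) - b0) * m := by
    have h7 : (2 * (b2 * x1 + x2 * b1) - b0) * m
        = 2 * (|b2| * |x2|) * (x1 * x1) + 2 * (|b1| * |x1|) * (x2 * x2) - b0 * m := by
      rw [← e1, ← e2, hm]; ring
    have h8 : b0 * m ≤ |b2| * |m| := by
      calc b0 * m ≤ |b0 * m| := le_abs_self _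
        _ = |b0| * |m| := abs_mul _ _
        _ ≤ |b2| * |m| := mul_le_mul_of_nonneg_right hb0 (abs_nonneg _)
    rw [h7, ← abs_mul_abs_self x1, ← abs_mul_abs_self x2]
    have h9 : |b2| * |m| ≤ |b2| * |x2| * (|x1| * |x1|) := by
      rw [hmabs]
      have : |b2| * (|x2| * |x1|) * 1 ≤ |b2| * (|x2| * |x1|) * |x1| :=
        mul_le_mul_of_nonneg_left h1 (by positivity)
      linarith
    have h10 : |b1| * |m| ≤ |b1| * |x1| * (|x2| * |x2|) := by
      rw [hmabs]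
      have : |b1| * (|x2| * |x1|) * 1 ≤ |b1| * (|x2| * |x1|) * |x2| :=
        mul_le_mul_of_nonneg_left h2 (by positivity)
      linarith
    have h11 : 0 ≤ |b2| * |m| := by positivity
    have h12 : 0 ≤ |b1| * |m| := by positivity
    linarith
  constructor
  · have h13 : 0 ≤ (2 * (b2 * x1 + x2 * b1) - b0) * m :=
      le_trans (mul_nonneg (abs_nonneg _) (abs_nonneg _)) hb3
    have h14 := mul_nonneg h13 hx3
    have h15 : (2 * (b2 * x1 + x2 * b1) - b0) * m * ((2 * x2 * x1 - x0) * m)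
        = (2 * (b2 * x1 + x2 * b1) - b0) * (2 * x2 * x1 - x0) * (m * m) := by ring
    rw [h15] at h14
    have h16 : 0 < m * m := by rw [← abs_mul_abs_self m]; positivity
    exact nonneg_of_mul_nonneg_left h14 h16
  · have h17 : (2 * (b2 * x1 + x2 * b1) - b0) * m ≤ |2 * (b2 * x1 + x2 * b1) - b0| * |m| := by
      rw [← abs_mul]; exact le_abs_self _
    have h18 : |b1| * |m| ≤ |2 * (b2 * x1 + x2 * b1) - b0| * |m| := by linarith
    exact le_of_mul_le_mul_right h18 hmpos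

/-- growth after an escape -/
theorem grow_all (b : ℕ → ℝ) (E q : ℝ) (k : ℕ)
    (hrec : ∀ n, b (n + 3) = 2 * (b (n + 2) * X (n + 1) E q + X (n + 2) E q * b (n + 1)) - b n)
    (h0 : |X k E q| ≤ 1) (h1 : 1 ≤ |X (k + 1) E q|) (h2 : 1 ≤ |X (k + 2) E q|)
    (hb0 : b k = 0) (hb1 : 0 ≤ b (k + 1) * X (k + 1) E q) (hb2 : 0 ≤ b (k + 2) * X (k + 2) E q)
    (i : ℕ) :
    1 ≤ |X (k + i + 1) E q| ∧ 1 ≤ |X (k + i + 2) E q| ∧ |X (k + i) E q| ≤ |X (k + i + 2) E q| ∧
      0 ≤ b (k + i + 1) * X (k + i + 1) E q ∧ 0 ≤ b (k + i + 2) * X (k + i + 2) E q ∧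
      |b (k + i)| ≤ |b (k + i + 2)| := by
  induction i with
  | zero =>
    refine ⟨h1, h2, le_trans h0 h2, hb1, hb2, ?_⟩
    rw [show k + 0 = k from rfl, hb0, abs_zero]; exact abs_nonneg _
  | succ i ih =>
    obtain ⟨a1, a2, a3, a4, a5, a6⟩ := ih
    have g1 := growX a1 a2 a3
    have g2 := growB a1 a2 a3 a4 a5 a6
    rw [← X_rec] at g1
    rw [← X_rec, ← hrec] at g2
    rw [show k + (i + 1) = k + i + 1 from rfl]
    exact ⟨a2, le_trans a1 g1, g1, a5, g2.1, g2.2⟩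

/-- if `|X n| < 1`, `n ≥ 3`, then one of the two previous is `< 1` -/
theorem prev_lt (n : ℕ) (E q : ℝ) (h : |X (n + 3) E q| < 1) :
    |X (n + 2) E q| < 1 ∨ |X (n + 1) E q| < 1 := by
  by_contra hcon
  push Not at hcon
  obtain ⟨h2, h1⟩ := hcon
  -- the last index k ≤ n with |X k| ≤ 1
  have hex : ∃ k, k ≤ n ∧ |X k E q| ≤ 1 ∧ ∀ j, k < j → j ≤ n + 2 → 1 ≤ |X j E q| := by
    have : ∀ m, m ≤ n → (∀ j, m < j → j ≤ n + 2 → 1 ≤ |X j E q|) →
        ∃ k, k ≤ n ∧ |X k E q| ≤ 1 ∧ ∀ j, k < j → j ≤ n + 2 → 1 ≤ |X j E q| := by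
      intro m
      induction m with
      | zero => intro _ hj; exact ⟨0, Nat.zero_le _, by simp [X], hj⟩
      | succ m ih =>
        intro hm hj
        by_cases hX : |X (m + 1) E q| ≤ 1
        · exact ⟨m + 1, hm, hX, hj⟩
        · apply ih (by omega)
          intro j hj1 hj2
          rcases Nat.eq_or_lt_of_le (Nat.succ_le_of_lt hj1) with h3 | h3
          · rw [← h3]; exact (not_le.1 hX).le
          · exact hj j h3 hj2
    apply this n le_rfl
    intro j hj1 hj2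
    have : j = n + 1 ∨ j = n + 2 := by omega
    rcases this with h3 | h3 <;> rw [h3] <;> assumption
  obtain ⟨k, hk, hk0, hk1⟩ := hex
  have := grow_all (fun _ => 0) E q k (by intro n; simp) hk0 (hk1 (k + 1) (by omega) (by omega))
    (hk1 (k + 2) (by omega) (by omega)) rfl (by simp) (by simp) (n + 1 - k)
  have h4 := this.2.1
  rw [show k + (n + 1 - k) + 2 = n + 3 by omega] at h4
  linarith

/-- the pivot invariant holds at every pivot -/
theorem PInv_all (n : ℕ) (E q : ℝ) (hq : 0 ≤ q) (h : |X (n + 1) E q| < 1) : PInv n E q := by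
  induction n using Nat.strong_induction_on with
  | _ n ih =>
    match n, ih, h with
    | 0, _, _ => exact PInv_one E q
    | 1, _, _ => exact PInv_two E q
    | (n + 2), ih, h =>
      rcases prev_lt n E q h with h1 | h1
      · exact PInv_step1 hq h1 (ih (n + 1) (by omega) h1) h
      · exact PInv_step2 hq h1 (ih n (by omega) h1) h

theorem Piv_proof : Stmt_Piv := by
  intro n E q hq h
  obtain ⟨hW, p, h0, h1, _, _⟩ := PInv_all n E q hq h
  exact ⟨hW, p, h0, h1⟩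

theorem WNe_proof : Stmt_WNe := by
  intro n hn E q hq h
  obtain ⟨m, rfl⟩ := Nat.exists_eq_add_of_le' hn
  exact (PInv_all m E q hq h).1

end Pool.Agent.FH
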