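import Pool.Agent.FH.SpecAux

/-!
SPEC2: the spectrum is inside all the covers, via cyclic matrices.
-/

set_option autoImplicit false

namespace Pool.Agent.FH

open Finset

open scoped InnerProductSpace

lemma sym_bound {F : Type} [NormedAddCommGroup F] [InnerProductSpace ℝ F] [FiniteDimensional ℝ F]
    (A : F →ₗ[ℝ] F) (hA : A.IsSymmetric) (e d : ℝ) (hd : 0 < d)
    (hno : ∀ t : ℝ, |t - e| < d → ¬ Module.End.HasEigenvalue A t) (x : F) :
    d ^ 2 * ‖x‖ ^ 2 ≤ ‖A x - e • x‖ ^ 2 := by
  set b := hA.eigenvectorBasis rfl with hb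
  rw [← b.sum_sq_norm_inner_right x, ← b.sum_sq_norm_inner_right (A x - e • x), Finset.mul_sum]
  apply Finset.sum_le_sum
  intro i _
  have h1 : ⟪b i, A x - e • x⟫_ℝ = (hA.eigenvalues rfl i - e) * ⟪b i, x⟫_ℝ := by
    rw [inner_sub_right, ← hA (b i) x, hb, hA.apply_eigenvectorBasis, inner_smul_right]
    simp only [RCLike.ofReal_real_eq_id, id_eq, real_inner_smul_left]
    ring
  rw [h1, norm_mul, mul_pow]
  apply mul_le_mul_of_nonneg_right _ (by positivity)
  have h2 : d ≤ |hA.eigenvalues rfl i - e| := by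
    by_contra hcon
    push Not at hcon
    exact hno _ hcon (hA.hasEigenvalue_eigenvalues rfl i)
  rw [Real.norm_eq_abs]
  exact pow_le_pow_left₀ hd.le h2 2

/-- the cyclic Jacobi operator -/
noncomputable def cyc (L : ℕ) [NeZero L] (V : ZMod L → ℝ) :
    EuclideanSpace ℝ (ZMod L) →ₗ[ℝ] EuclideanSpace ℝ (ZMod L) where
  toFun x := WithLp.toLp 2 (fun i => x (i + 1) + x (i - 1) + V i * x i)
  map_add' x y := by
    ext i
    simp only [PiLp.add_apply]
    ring
  map_smul' c x := by
    ext i
    simp only [PiLp.smul_apply, smul_eq_mul, RingHom.id_apply]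
    ring

lemma cyc_apply (L : ℕ) [NeZero L] (V : ZMod L → ℝ) (x : EuclideanSpace ℝ (ZMod L)) (i : ZMod L) :
    cyc L V x i = x (i + 1) + x (i - 1) + V i * x i := rfl

lemma cyc_symm (L : ℕ) [NeZero L] (V : ZMod L → ℝ) : (cyc L V).IsSymmetric := by
  intro x y
  simp only [PiLp.inner_apply, cyc_apply, RCLike.inner_apply, conj_trivial]
  have h1 : ∑ i, y i * x (i + 1) = ∑ i, y (i - 1) * x i := by
    rw [← Equiv.sum_comp (Equiv.addRight (1 : ZMod L)) (fun i => y (i - 1) * x i)]
    simp
  have h2 : ∑ i, y i * x (i - 1) = ∑ i, y (i + 1) * x i := by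
    rw [← Equiv.sum_comp (Equiv.addRight (1 : ZMod L)) (fun i => y i * x (i - 1))]
    simp
  calc ∑ i, y i * (x (i + 1) + x (i - 1) + V i * x i)
      = ∑ i, y i * x (i + 1) + ∑ i, y i * x (i - 1) + ∑ i, V i * x i * y i := by
        rw [← Finset.sum_add_distrib, ← Finset.sum_add_distrib]
        exact Finset.sum_congr rfl (fun i _ => by ring)
    _ = ∑ i, y (i - 1) * x i + ∑ i, y (i + 1) * x i + ∑ i, V i * x i * y i := by rw [h1, h2]
    _ = ∑ i, (y (i + 1) + y (i - 1) + V i * y i) * x i := by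
        rw [← Finset.sum_add_distrib, ← Finset.sum_add_distrib]
        exact Finset.sum_congr rfl (fun i _ => by ring)

/-- an eigenvalue of the cyclic operator gives trace two -/
lemma cyc_eigen (L : ℕ) [NeZero L] (f : ℕ → ℝ) (t : ℝ)
    (ht : Module.End.HasEigenvalue (cyc L (fun i => f i.val)) t) :
    (TM t ((List.range L).map f)).trace = 2 := by
  obtain ⟨x, hx⟩ := ht.exists_hasEigenvector
  have hx0 : x ≠ 0 := hx.2
  have hxe : ∀ i : ZMod L, x (i + 1) + x (i - 1) + f i.val * x i = t * x i := by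
    intro i
    have := hx.apply_eq_smul
    have := congrArg (fun z => z i) this
    simpa [cyc_apply] using this
  -- the sequence `u k = x (k - 1)`
  set u : ℕ → ℝ := fun k => x ((k : ZMod L) - 1) with hu
  have hus : ∀ k, k < L → u (k + 2) = algebraMap ℝ ℝ (t - f k) * u (k + 1) - u k := by
    intro k hk
    have := hxe (k : ZMod L)
    rw [ZMod.val_natCast_of_lt hk] at this
    simp only [hu, Algebra.algebraMap_self, RingHom.id_apply]
    have e1 : ((k + 2 : ℕ) : ZMod L) - 1 = (k : ZMod L) + 1 := by push_cast; ring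
    have e2 : ((k + 1 : ℕ) : ZMod L) - 1 = (k : ZMod L) := by push_cast; ring
    rw [e1, e2]
    linarith
  obtain ⟨h1, h2⟩ := TM_sol t f u L hus
  simp only [Algebra.algebraMap_self, RingHom.id_apply] at h1 h2
  have e1 : u (L + 1) = u 1 := by simp [hu]
  have e2 : u L = u 0 := by simp [hu]
  rw [e1] at h1
  rw [e2] at h2
  set M := TM t ((List.range L).map f) with hM
  have hdet : M.det = 1 := TM_det _ _
  rw [Matrix.det_fin_two] at hdet
  rw [Matrix.trace_fin_two]
  -- `u 1, u 0` are not both zero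
  have hne : ¬ (u 1 = 0 ∧ u 0 = 0) := by
    rintro ⟨z1, z0⟩
    have hall : ∀ k, k ≤ L → u k = 0 ∧ u (k + 1) = 0 := by
      intro k
      induction k with
      | zero => intro _; exact ⟨z0, z1⟩
      | succ k ih =>
        intro hk
        obtain ⟨a, b⟩ := ih (by omega)
        refine ⟨b, ?_⟩
        rw [show k + 1 + 1 = k + 2 by ring, hus k (by omega), a, b]
        simp
    apply hx0
    ext i
    have hi := (hall i.val (ZMod.val_lt i).le).2
    simp only [hu] at hi
    have : ((i.val + 1 : ℕ) : ZMod L) - 1 = i := by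
      push_cast
      rw [ZMod.natCast_zmod_val]
      ring
    rw [this] at hi
    simpa using hi
  by_contra hcon
  apply hne
  -- determinant of `M - 1` is `2 - trace`
  have hD : (M 0 0 - 1) * (M 1 1 - 1) - M 0 1 * M 1 0 ≠ 0 := by
    intro h
    apply hcon
    linarith
  constructor
  · have : ((M 0 0 - 1) * (M 1 1 - 1) - M 0 1 * M 1 0) * u 1 = 0 := by
      linear_combination (-(M 1 1 - 1)) * h1 + M 0 1 * h2
    exact (mul_eq_zero.mp this).resolve_left hD
  · have : ((M 0 0 - 1) * (M 1 1 - 1) - M 0 1 * M 1 0) * u 0 = 0 := by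
      linear_combination (-(M 0 0 - 1)) * h2 + M 1 0 * h1
    exact (mul_eq_zero.mp this).resolve_left hD

lemma X_cont (q : ℝ) (n : ℕ) : Continuous (fun E : ℝ => X n E q) := by
  have h : ∀ n : ℕ, Continuous (fun E : ℝ => X n E q) ∧ Continuous (fun E : ℝ => X (n + 1) E q) ∧
      Continuous (fun E : ℝ => X (n + 2) E q) := by
    intro n
    induction n with
    | zero =>
      refine ⟨?_, ?_, ?_⟩
      · simp only [X]; fun_prop
      · simp only [X]; fun_prop
      · simp only [X]; fun_prop
    | succ n ih =>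
      obtain ⟨a, b, c⟩ := ih
      refine ⟨b, c, ?_⟩
      show Continuous (fun E : ℝ => 2 * X (n + 2) E q * X (n + 1) E q - X n E q)
      fun_prop
  exact (h n).1

/-- the embedding of the cycle into the line -/
def emb (L s : ℕ) (i : ZMod L) : ℤ := (i.val : ℤ) + 1 - s

lemma emb_inj (L s : ℕ) [NeZero L] : Function.Injective (emb L s) := by
  intro i j h
  apply ZMod.val_injective L
  unfold emb at h
  omega

lemma sum_emb (L s : ℕ) [NeZero L] (F : ℤ → ℝ) (a b : ℤ) (ha : 1 - (s : ℤ) ≤ a)
    (hb : b ≤ (L : ℤ) - s) (hF : ∀ n : ℤ, n ∉ Finset.Icc a b → F n = 0) :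
    ∑ i : ZMod L, F (emb L s i) = ∑ n ∈ Finset.Icc a b, F n := by
  rw [← Finset.sum_image (f := F) (g := emb L s) (fun x _ y _ h => emb_inj L s h)]
  symm
  apply Finset.sum_subset
  · intro n hn
    rw [Finset.mem_Icc] at hn
    rw [Finset.mem_image]
    refine ⟨((n + s - 1).toNat : ZMod L), Finset.mem_univ _, ?_⟩
    unfold emb
    rw [ZMod.val_natCast_of_lt (by omega)]
    omega
  · intro n _ hn
    exact hF n hn

theorem Spec2_proof (hW : Stmt_WordTr) (hF : Stmt_FibWord) (hR : Stmt_FibRec) (hN : Stmt_Nest) :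
    Stmt_Spec2 := by
  intro q _ E hE
  by_contra hK
  have hK' : ∃ n : ℕ, 1 ≤ n ∧ 1 < |X n E q| ∧ 1 < |X (n + 1) E q| := by
    by_contra hcon
    apply hK
    intro n hn
    by_contra h2
    rw [not_or, not_le, not_le] at h2
    exact hcon ⟨n, hn, h2.1, h2.2⟩
  obtain ⟨n, hn1, hXn, hXn1⟩ := hK'
  -- a neighbourhood
  obtain ⟨d, hd, hnbd⟩ : ∃ d : ℝ, 0 < d ∧ ∀ t : ℝ, |t - E| < d →
      1 < |X n t q| ∧ 1 < |X (n + 1) t q| := by
    have h1 : ∀ᶠ t in nhds E, 1 < |X n t q| :=
      ((X_cont q n).abs.continuousAt).eventually (lt_mem_nhds hXn)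
    have h2 : ∀ᶠ t in nhds E, 1 < |X (n + 1) t q| :=
      ((X_cont q (n + 1)).abs.continuousAt).eventually (lt_mem_nhds hXn1)
    obtain ⟨d, hd, h⟩ := Metric.eventually_nhds_iff.mp (h1.and h2)
    exact ⟨d, hd, fun t ht => h (by rwa [Real.dist_eq])⟩
  have hbig : ∀ m : ℕ, n < m → ∀ t : ℝ, |t - E| < d → 1 < |X m t q| := by
    intro m hm t ht
    by_contra hcon
    rw [not_lt] at hcon
    rcases hN m t q hcon n hn1 hm with h | h
    · exact absurd (hnbd t ht).1 (not_lt.mpr h)
    · exact absurd (hnbd t ht).2 (not_lt.mpr h)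
  obtain ⟨N, ψ, hsupp, hsum⟩ := hE d hd
  obtain ⟨m, hnm, hNm, hpot⟩ := hR (N + 1) n
  set s := Nat.fib m with hs
  set L := Nat.fib (m + 2) with hL
  have hLs : 2 * s ≤ L := by
    rw [hL, Nat.fib_add_two]
    have : Nat.fib m ≤ Nat.fib (m + 1) := Nat.fib_le_fib_succ
    omega
  have : NeZero L := ⟨by omega⟩
  set f : ℕ → ℝ := fun i => pot q ((i : ℤ) + 1) with hf
  have hword : word q (m + 2) = (List.range L).map f := fibWord_nat hF (m + 2) (by omega) q
  have hno : ∀ t : ℝ, |t - E| < d →
      ¬ Module.End.HasEigenvalue (cyc L (fun i => f i.val)) t := by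
    intro t ht h
    have h1 := cyc_eigen L f t h
    rw [← hword, hW (m + 2) t q] at h1
    have h2 := hbig (m + 2) (by omega) t ht
    have h3 : X (m + 2) t q = 1 := by linarith
    rw [h3] at h2
    simp at h2
  set x : EuclideanSpace ℝ (ZMod L) := WithLp.toLp 2 (fun i => ψ (emb L s i)) with hx
  have hbound := sym_bound _ (cyc_symm L (fun i => f i.val)) E d hd hno x
  have hψ0 : ∀ k : ℤ, (k < -(N : ℤ) ∨ (N : ℤ) < k) → ψ k = 0 := by
    intro k hk
    apply hsupp
    rw [Finset.mem_Icc]
    omega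
  -- the square norm of `x`
  have e1 : ‖x‖ ^ 2 = ∑ k ∈ Finset.Icc (-(N : ℤ)) (N : ℤ), ψ k ^ 2 := by
    rw [EuclideanSpace.norm_sq_eq]
    rw [← sum_emb L s (fun k => ψ k ^ 2) (-(N : ℤ)) (N : ℤ) (by omega) (by omega) (by
      intro k hk
      simp only [hsupp k hk]
      ring)]
    apply Finset.sum_congr rfl
    intro i _
    rw [Real.norm_eq_abs, sq_abs]
  -- pointwise
  have hpt : ∀ i : ZMod L, (cyc L (fun i => f i.val) x - E • x) i
      = ψ (emb L s i + 1) + ψ (emb L s i - 1) + pot q (emb L s i) * ψ (emb L s i)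
        - E * ψ (emb L s i) := by
    intro i
    have hlt := ZMod.val_lt i
    have hi : ((i.val : ℕ) : ZMod L) = i := ZMod.natCast_zmod_val i
    have a1 : x (i + 1) = ψ (emb L s i + 1) := by
      show ψ (emb L s (i + 1)) = ψ (emb L s i + 1)
      have : i + 1 = ((i.val + 1 : ℕ) : ZMod L) := by push_cast; rw [hi]
      have hv : (i + 1).val = (i.val + 1) % L := by rw [this, ZMod.val_natCast]
      by_cases hc : i.val + 1 < L
      · rw [Nat.mod_eq_of_lt hc] at hv
        unfold emb
        rw [hv]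
        congr 1
        push_cast
        ring
      · have hcL : i.val + 1 = L := by omega
        rw [hcL, Nat.mod_self] at hv
        rw [hψ0 (emb L s (i + 1)) (by unfold emb; rw [hv]; left; push_cast; omega),
          hψ0 (emb L s i + 1) (by unfold emb; right; omega)]
    have a2 : x (i - 1) = ψ (emb L s i - 1) := by
      show ψ (emb L s (i - 1)) = ψ (emb L s i - 1)
      by_cases hc : i.val = 0
      · have hi0 : i = 0 := by rw [← hi, hc]; simp
        have hv : (i - 1).val = L - 1 := by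
          have : i - 1 = ((L - 1 : ℕ) : ZMod L) := by
            rw [Nat.cast_sub (by omega), hi0]; simp
          rw [this, ZMod.val_natCast_of_lt (by omega)]
        rw [hψ0 (emb L s (i - 1)) (by unfold emb; rw [hv]; right; omega),
          hψ0 (emb L s i - 1) (by unfold emb; rw [hc]; left; omega)]
      · have hv : (i - 1).val = i.val - 1 := by
          have : i - 1 = ((i.val - 1 : ℕ) : ZMod L) := by
            rw [Nat.cast_sub (by omega), hi]; simp
          rw [this, ZMod.val_natCast_of_lt (by omega)]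
        unfold emb
        rw [hv]
        congr 1
        omega
    have a3 : x i = ψ (emb L s i) := rfl
    have a4 : f i.val * x i = pot q (emb L s i) * ψ (emb L s i) := by
      rw [a3]
      by_cases hc : |emb L s i| ≤ ((N + 1 : ℕ) : ℤ)
      · have h := hpot q (emb L s i) hc
        have : emb L s i + (s : ℤ) = (i.val : ℤ) + 1 := by unfold emb; ring
        rw [← h, this]
      · have : ψ (emb L s i) = 0 := by
          apply hψ0
          rw [abs_le, not_and_or] at hc
          push_cast at hc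
          omega
        rw [this]; ring
    show cyc L (fun i => f i.val) x i - E * x i = _
    rw [cyc_apply, a1, a2, a4, a3]
  have e2 : ‖cyc L (fun i => f i.val) x - E • x‖ ^ 2
      = ∑ k ∈ Finset.Icc (-(N : ℤ) - 1) ((N : ℤ) + 1),
        (ψ (k + 1) + ψ (k - 1) + pot q k * ψ k - E * ψ k) ^ 2 := by
    rw [EuclideanSpace.norm_sq_eq]
    rw [← sum_emb L s (fun k => (ψ (k + 1) + ψ (k - 1) + pot q k * ψ k - E * ψ k) ^ 2)
      (-(N : ℤ) - 1) ((N : ℤ) + 1) (by omega) (by omega) (by
      intro k hk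
      rw [Finset.mem_Icc, not_and_or] at hk
      simp only [hψ0 (k + 1) (by omega), hψ0 (k - 1) (by omega), hψ0 k (by omega)]
      ring)]
    apply Finset.sum_congr rfl
    intro i _
    rw [Real.norm_eq_abs, sq_abs, hpt i]
  rw [e1, e2] at hbound
  exact absurd hsum (not_lt.mpr hbound)

end Pool.Agent.FH
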