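import Pool.Agent.FH.Stmts

/-!
Auxiliary lemmas for the modules SPEC1 and SPEC2.
-/

set_option autoImplicit false

namespace Pool.Agent.FH

open Finset

lemma TM_append (E : ℝ) (l₁ l₂ : List ℝ) : TM E (l₁ ++ l₂) = TM E l₂ * TM E l₁ := by
  induction l₁ with
  | nil => simp [TM]
  | cons v l ih => simp [TM, ih, Matrix.mul_assoc]

lemma TM_det (E : ℝ) (l : List ℝ) : (TM E l).det = 1 := by
  induction l with
  | nil => simp [TM]
  | cons v l ih => simp [TM, ih, T, Matrix.det_fin_two_of]

/-- the transfer matrix moves solutions along -/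
lemma TM_sol {K : Type} [CommRing K] [Algebra ℝ K] (E : ℝ) (V : ℕ → ℝ) (u : ℕ → K) (L : ℕ)
    (h : ∀ k, k < L → u (k + 2) = algebraMap ℝ K (E - V k) * u (k + 1) - u k) :
    u (L + 1) = algebraMap ℝ K (TM E ((List.range L).map V) 0 0) * u 1
        + algebraMap ℝ K (TM E ((List.range L).map V) 0 1) * u 0 ∧
    u L = algebraMap ℝ K (TM E ((List.range L).map V) 1 0) * u 1
        + algebraMap ℝ K (TM E ((List.range L).map V) 1 1) * u 0 := by
  induction L with
  | zero => simp [TM]
  | succ L ih =>
    obtain ⟨h1, h2⟩ := ih (fun k hk => h k (by omega))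
    have hr : TM E ((List.range (L + 1)).map V)
        = T E (V L) * TM E ((List.range L).map V) := by
      rw [List.range_succ, List.map_append, TM_append]
      simp [TM]
    rw [hr]
    set M := TM E ((List.range L).map V) with hM
    have e00 : (T E (V L) * M) 0 0 = (E - V L) * M 0 0 - M 1 0 := by
      simp [T, Matrix.mul_apply, Fin.sum_univ_two]; ring
    have e01 : (T E (V L) * M) 0 1 = (E - V L) * M 0 1 - M 1 1 := by
      simp [T, Matrix.mul_apply, Fin.sum_univ_two]; ring
    have e10 : (T E (V L) * M) 1 0 = M 0 0 := by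
      simp [T, Matrix.mul_apply, Fin.sum_univ_two]
    have e11 : (T E (V L) * M) 1 1 = M 0 1 := by
      simp [T, Matrix.mul_apply, Fin.sum_univ_two]
    rw [e00, e01, e10, e11]
    refine ⟨?_, h1⟩
    rw [h L (by omega)]
    conv_lhs => rw [h1, h2]
    simp only [map_sub, map_mul]
    ring

/-- `Stmt_FibWord` without the monadic coercion of `List.range` -/
lemma fibWord_nat (hF : Stmt_FibWord) (n : ℕ) (hn : 2 ≤ n) (q : ℝ) :
    word q n = (List.range (Nat.fib n)).map (fun i : ℕ => pot q ((i : ℤ) + 1)) := by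
  rw [hF n hn q]
  have h : ∀ l : List ℕ, List.map (fun i : ℤ => pot q (i + 1)) (do let a ← l; pure (a : ℤ))
      = l.map (fun i : ℕ => pot q ((i : ℤ) + 1)) := by
    intro l
    induction l with
    | nil => rfl
    | cons a l ih => simpa using ih
  exact h _

end Pool.Agent.FH
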