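import Pool.Agent.FH.Defs

/-!
Exact statements of all modules. Each module proves `theorem <name>_proof : Stmt_<Name>`
(hypotheses: any other `Stmt_*` it needs).
-/

set_option autoImplicit false

namespace Pool.Agent.FH

/-- BASIC: derivatives -/
def Stmt_Deriv : Prop :=
  ∀ n : ℕ, ∀ E q : ℝ,
    HasFDerivAt (fun p : ℝ × ℝ => X n p.1 p.2)
      (W n E q • ContinuousLinearMap.fst ℝ ℝ ℝ + U n E q • ContinuousLinearMap.snd ℝ ℝ ℝ) (E, q)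

/-- BASIC: polynomial structure in `E` -/
def Stmt_Poly : Prop :=
  ∀ n : ℕ, 1 ≤ n → ∀ q : ℝ, ∃ P R : Polynomial ℝ, P.natDegree = Nat.fib n ∧
    R.natDegree < Nat.fib n ∧ (∀ E : ℝ, P.eval E = X n E q) ∧
    (∀ E : ℝ, P.derivative.eval E = W n E q) ∧ (∀ E : ℝ, R.eval E = U n E q)

/-- BASIC: the covers are nested -/
def Stmt_Nest : Prop :=
  ∀ m : ℕ, ∀ E q : ℝ, |X m E q| ≤ 1 → ∀ k : ℕ, 1 ≤ k → k < m → |X k E q| ≤ 1 ∨ |X (k + 1) E q| ≤ 1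

/-- PIV: the pivot invariant. With `c = X (n+1)`, `h = q/2`, `v = -U (n+1) / W (n+1)` and
`a j = -2 (U j + v W j)` for `j = n, n+2`. -/
def Stmt_Piv : Prop :=
  ∀ n : ℕ, ∀ E q : ℝ, 0 ≤ q → |X (n + 1) E q| < 1 →
    W (n + 1) E q ≠ 0 ∧ ∃ p : ℝ,
      |(-2) * (U n E q - U (n + 1) E q / W (n + 1) E q * W n E q)| ≤ p ∧
      |2 * X (n + 1) E q * ((-2) * (U n E q - U (n + 1) E q / W (n + 1) E q * W n E q))
        - (-2) * (U (n + 2) E q - U (n + 1) E q / W (n + 1) E q * W (n + 2) E q)| ≤ 1 - p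

/-- CRIT: sign of `U` at the critical points -/
def Stmt_Crit : Prop :=
  ∀ n : ℕ, 1 ≤ n → ∀ E q : ℝ, 0 < q → -2 < E → E < 2 + q → W n E q = 0 → 0 ≤ U n E q * X n E q

/-- PIV/CRIT: no critical points inside the bands -/
def Stmt_WNe : Prop :=
  ∀ n : ℕ, 1 ≤ n → ∀ E q : ℝ, 0 ≤ q → |X n E q| < 1 → W n E q ≠ 0

/-- HERMABS: abstract Hermitian counting. `neg A` is the number of eigenvalues `< 0`
(with multiplicity). If the forms of `A` and `B + s` (`s ≥ 0`...) compare on a subspace of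
codimension `≤ r`, the counts compare. -/
def Stmt_HermAbs : Prop :=
  ∀ (ι κ : Type) [Fintype ι] [DecidableEq ι] [Fintype κ] [DecidableEq κ]
    (A : Matrix ι ι ℂ) (B : Matrix κ κ ℂ) (hA : A.IsHermitian) (hB : B.IsHermitian) (a b : ℝ)
    (V : Submodule ℂ (ι → ℂ)) (f : V →ₗ[ℂ] (κ → ℂ)) (r : ℕ),
    Fintype.card ι ≤ Module.finrank ℂ V + r → Function.Injective f →
    (∀ x : V, (star (f x) ⬝ᵥ (B.mulVec (f x))).re - b * (star (f x) ⬝ᵥ (f x)).re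
      ≤ (star (x : ι → ℂ) ⬝ᵥ (A.mulVec (x : ι → ℂ))).re
        - a * (star (x : ι → ℂ) ⬝ᵥ (x : ι → ℂ)).re) →
    (Finset.univ.filter (fun i => hA.eigenvalues i < a)).card
      ≤ (Finset.univ.filter (fun i => hB.eigenvalues i < b)).card + r

/-- HERM: for a word `w` the equation `tr TM = 2 cos κ` has `length w` real solutions -/
def Stmt_HermCard : Prop :=
  ∀ (w : List ℝ) (κ : ℝ), w ≠ [] → 0 < κ → κ < Real.pi →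
    {E : ℝ | (TM E w).trace = 2 * Real.cos κ}.ncard = w.length

/-- HERM: additivity of the counts -/
def Stmt_HermAdd : Prop :=
  ∀ (w₁ w₂ : List ℝ) (κ E : ℝ), w₁ ≠ [] → w₂ ≠ [] → 0 < κ → κ < Real.pi →
    cntW (w₁ ++ w₂) κ E ≤ cntW w₁ κ E + cntW w₂ κ E + 2 ∧
    cntW w₁ κ E + cntW w₂ κ E ≤ cntW (w₁ ++ w₂) κ E + 2

/-- HERM: dependence on the phase -/
def Stmt_HermPhase : Prop :=
  ∀ (w : List ℝ) (κ κ' E : ℝ), w ≠ [] → 0 < κ → κ < Real.pi → 0 < κ' → κ' < Real.pi →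
    cntW w κ E ≤ cntW w κ' E + 2

/-- HERM: Lipschitz dependence on the potential and on the phase -/
def Stmt_HermLip : Prop :=
  ∀ (w w' : List ℝ) (κ κ' E t : ℝ), w ≠ [] → 0 < κ → κ < Real.pi → 0 < κ' → κ' < Real.pi →
    w.length = w'.length → (∀ p ∈ List.zip w w', |p.1 - p.2| ≤ t) →
    cntW w κ E ≤ cntW w' κ' (E + t + 2 * |κ - κ'|)

/-- WORDTR: the half traces are the traces of the Fibonacci words -/
def Stmt_WordTr : Prop :=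
  ∀ n : ℕ, ∀ E q : ℝ, (TM E (word q n)).trace = 2 * X n E q

/-- LAM: the root functions -/
def Stmt_Lam : Prop :=
  ∀ n : ℕ, 1 ≤ n → ∀ j : ℕ, j < Nat.fib n →
    (∀ κ ∈ Set.Ioo 0 Real.pi, ∀ q : ℝ,
      X n (lam n j κ q) q = Real.cos κ ∧ cnt n κ q (lam n j κ q) = j) ∧
    (∀ κ ∈ Set.Ioo 0 Real.pi, ∀ κ' ∈ Set.Ioo 0 Real.pi, ∀ q q' : ℝ,
      |lam n j κ q - lam n j κ' q'| ≤ |q - q'| + 2 * |κ - κ'|)

/-- LAM: finiteness and cardinality of the root sets -/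
def Stmt_RootCard : Prop :=
  ∀ n : ℕ, 1 ≤ n → ∀ κ ∈ Set.Ioo 0 Real.pi, ∀ q : ℝ,
    {E : ℝ | X n E q = Real.cos κ}.Finite ∧ {E : ℝ | X n E q = Real.cos κ}.ncard = Nat.fib n

/-- LAM: bands in terms of the root functions -/
def Stmt_BandLam : Prop :=
  ∀ n : ℕ, 1 ≤ n → ∀ j : ℕ, ∀ q E : ℝ,
    E ∈ Band n j q ↔ j < Nat.fib n ∧ ∃ κ ∈ Set.Ioo 0 Real.pi, lam n j κ q = E

/-- LAM: the counting functions -/
def Stmt_Count : Prop :=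
  (∀ n : ℕ, 1 ≤ n → ∀ q E : ℝ,
    Z (n + 2) q E ≤ Z (n + 1) q E + Z n q E + 2 ∧ Z (n + 1) q E + Z n q E ≤ Z (n + 2) q E + 2) ∧
  (∀ n : ℕ, 1 ≤ n → ∀ j : ℕ, ∀ q E : ℝ, E ∈ Band n j q → Z n q E ≤ j + 2 ∧ j ≤ Z n q E + 2) ∧
  (∀ n : ℕ, 1 ≤ n → ∀ q E E' : ℝ, E ≤ E' → Z n q E ≤ Z n q E')

/-- VMONO: `U / W` increases inside the bands -/
def Stmt_VMono : Prop :=
  ∀ n : ℕ, 1 ≤ n → ∀ E₁ E₂ q : ℝ, 0 < q → E₁ ≤ E₂ → (∀ E ∈ Set.Icc E₁ E₂, |X n E q| < 1) →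
    U n E₁ q / W n E₁ q ≤ U n E₂ q / W n E₂ q

/-- SHRINK: the bands shrink -/
def Stmt_Shrink : Prop :=
  ∀ n : ℕ, 1 ≤ n → ∀ j : ℕ, j < Nat.fib n → ∀ κ ∈ Set.Ioo 0 Real.pi, ∀ κ' ∈ Set.Ioo 0 Real.pi,
    ∀ q₁ q₂ : ℝ, 0 ≤ q₁ → q₁ ≤ q₂ →
      |lam n j κ q₂ - lam n j κ' q₂| ≤ |lam n j κ q₁ - lam n j κ' q₁|

/-- BAND0: band lengths at `q = 0` -/
def Stmt_Band0 : Prop :=
  ∀ n : ℕ, 1 ≤ n → ∀ j : ℕ, j < Nat.fib n → ∀ κ ∈ Set.Ioo 0 Real.pi, ∀ κ' ∈ Set.Ioo 0 Real.pi,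
    |lam n j κ 0 - lam n j κ' 0| ≤ 2 * Real.pi / Nat.fib n

/-- COVER: the dimension inequality -/
def Stmt_Cover : Prop :=
  ∀ q₁ q₂ : ℝ, 0 ≤ q₁ → q₁ ≤ q₂ → dimH (Kinf q₂) ≤ dimH (Kinf q₁)

/-- FIBW: the Fibonacci potential on `1, ..., fib n` is the Fibonacci word -/
def Stmt_FibWord : Prop :=
  ∀ n : ℕ, 2 ≤ n → ∀ q : ℝ,
    word q n = (List.range (Nat.fib n)).map (fun i => pot q ((i : ℤ) + 1))

/-- FIBP: periodicity of the Fibonacci potential -/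
def Stmt_FibPer : Prop :=
  ∀ n : ℕ, 2 ≤ n → ∀ q : ℝ, ∀ i : ℕ, 1 ≤ i → i + 2 ≤ Nat.fib (n + 1) →
    pot q ((i : ℤ) + Nat.fib n) = pot q i

/-- FIBR: every finite window of the potential reappears inside a Fibonacci word -/
def Stmt_FibRec : Prop :=
  ∀ N m : ℕ, ∃ n : ℕ, m ≤ n ∧ N + 2 < Nat.fib n ∧
    ∀ q : ℝ, ∀ i : ℤ, |i| ≤ N → pot q (i + Nat.fib n) = pot q i

/-- SPEC1 -/
def Stmt_Spec1 : Prop := ∀ q : ℝ, 0 ≤ q → Kinf q ⊆ Spec q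

/-- SPEC2 -/
def Stmt_Spec2 : Prop := ∀ q : ℝ, 0 ≤ q → Spec q ⊆ Kinf q

/-- the final statement -/
def Stmt_Final : Prop := AntitoneOn (fun q : ℝ => dimH (Spec q)) (Set.Ici (0 : ℝ))

theorem final_of (hC : Stmt_Cover) (h1 : Stmt_Spec1) (h2 : Stmt_Spec2) : Stmt_Final := by
  intro q₁ hq₁ q₂ hq₂ h
  have e1 : Spec q₁ = Kinf q₁ := Set.Subset.antisymm (h2 q₁ hq₁) (h1 q₁ hq₁)
  have e2 : Spec q₂ = Kinf q₂ := Set.Subset.antisymm (h2 q₂ hq₂) (h1 q₂ hq₂)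
  show dimH (Spec q₂) ≤ dimH (Spec q₁)
  rw [e1, e2]
  exact hC q₁ q₂ hq₁ h

end Pool.Agent.FH
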